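import Pool.Agent.Y627.TP.Stm
import Pool.Agent.Y926.TW.J_ARC

/-!
# The forms are small, periodic case (job TP-ARCa, helper664)
-/

set_option autoImplicit false

open Polynomial Pool.Agent.H337R2 Pool.Agent.W165.OZ Pool.Agent.Y926.LZ Pool.Agent.Y926.TW

namespace Pool.Agent.Y627.TP

noncomputable section

namespace ArcP

open Pool.Agent.Y926.TW.ArcL

lemma per_mul {f b : ℕ} {a : ℕ → ℤ} (hp : Par f b a) (u k : ℕ) : a (u + k * f) = a u := by
  induction k with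
  | zero => simp
  | succ k ih =>
    rw [Nat.succ_mul, ← add_assoc, hp.per, ih]

lemma Ca_add {f b B : ℕ} {a : ℕ → ℤ} (hp : Par f b a) (c : ℕ → ℚ) (e u ν : ℕ) :
    Ca f B a c e (u + ν * e) = Ca f B a c e u := by
  unfold Ca
  refine Finset.sum_congr rfl fun d hd => ?_
  have h1 := (Finset.mem_filter.1 hd).2
  have h2 : (u + ν * e) * (f * d / e) = u * (f * d / e) + (ν * d) * f := by
    have h3 : e * (f * d / e) = f * d := Nat.mul_div_cancel' h1
    calc (u + ν * e) * (f * d / e) = u * (f * d / e) + ν * (e * (f * d / e)) := by ring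
      _ = u * (f * d / e) + (ν * d) * f := by rw [h3]; ring
  rw [h2, per_mul hp]

lemma Ca_one {f b B : ℕ} {a : ℕ → ℤ} (hp : Par f b a) (c : ℕ → ℚ) (u : ℕ)
    (h0 : ∑ d ∈ Finset.Icc 1 B, c d = 0) : Ca f B a c 1 u = 0 := by
  unfold Ca
  rw [Finset.filter_true_of_mem (fun d _ => one_dvd _)]
  have h1 : ∀ d ∈ Finset.Icc 1 B, c d * (a (u * (f * d / 1)) : ℚ) = c d * (a 0 : ℚ) := by
    intro d _
    have h2 : u * (f * d / 1) = 0 + (u * d) * f := by
      rw [Nat.div_one]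
      ring
    rw [h2, per_mul hp]
  rw [Finset.sum_congr rfl h1, ← Finset.sum_mul, h0, zero_mul]

lemma fea_add {m f b B : ℕ} {a : ℕ → ℤ} (hp : Par f b a) (w : Fin m → ℕ → ℤ) (Q : Fin m → ℚ[X])
    (e u ν : ℕ) : fea f B a w Q e (u + ν * e) = fea f B a w Q e u := by
  unfold fea
  refine Finset.sum_congr rfl fun l _ => ?_
  rw [Ca_add hp]

lemma fea_one {m f b B : ℕ} {a : ℕ → ℤ} (hp : Par f b a) (w : Fin m → ℕ → ℤ) (Q : Fin m → ℚ[X])
    (u : ℕ) (h0 : ∀ l, ∑ d ∈ Finset.Icc 1 B, w l d = 0) : fea f B a w Q 1 u = 0 := by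
  unfold fea
  apply Finset.sum_eq_zero
  intro l _
  rw [Ca_one hp, map_zero, zero_mul]
  exact_mod_cast h0 l

lemma sum_Pva {m : ℕ} (f B : ℕ) (a : ℕ → ℤ) (e u : ℕ) (w : Fin m → ℕ → ℤ) (Q : Fin m → ℚ[X]) :
    ∑ d ∈ (Finset.Icc 1 B).filter (fun d => e ∣ f * d),
      C ((a (u * (f * d / e)) : ℤ) : ℚ) * Pv w Q d = fea f B a w Q e u := by
  unfold Pv fea Ca
  simp only [Finset.mul_sum]
  rw [Finset.sum_comm]
  refine Finset.sum_congr rfl fun l _ => ?_
  rw [map_sum, Finset.sum_mul]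
  refine Finset.sum_congr rfl fun d _ => ?_
  rw [map_mul]
  ring

lemma coeff_KP_C {n h b : ℕ} (y : ℚ) (g P : ℚ[X]) (x : ℚ) :
    PowerSeries.coeff b (RS (sP n) (mP h) (KP n h (g * (C y * P))) x) =
      y * PowerSeries.coeff b (RS (sP n) (mP h) (KP n h (g * P)) x) := by
  have h1 : KP n h (g * (C y * P)) = C y * KP n h (g * P) := by
    unfold KP num
    rw [show g * (C y * P) = C y * (g * P) by ring, Polynomial.mul_comp, Polynomial.C_comp]
    ring
  rw [h1]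
  unfold RS
  rw [(TS x).map_mul, TS_C, mul_assoc, PowerSeries.coeff_C_mul]

/-! ### The head -/

/-- the terms as a function of the numerator, without zero -/
def Fh (n h b f : ℕ) (a : ℕ → ℤ) (g : ℚ[X]) (P : ℕ → ℚ[X]) (d v : ℕ) : ℚ :=
  if v = 0 then 0 else (a v : ℚ) *
    PowerSeries.coeff b (RS (sP n) (mP h) (KP n h (g * P d)) ((v : ℚ) / ((f * d : ℕ) : ℚ)))

lemma head_inner {f b B m ν L h : ℕ} {a : ℕ → ℤ} (hp : Par f b a) {w : Fin m → ℕ → ℤ}
    {Q : Fin m → ℚ[X]} (g : ℚ[X])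
    (h0 : ∀ l, ∑ d ∈ Finset.Icc 1 B, w l d = 0) (hV : Vana f b B ν (L + ν) a w Q) {e u : ℕ}
    (he : 1 ≤ e) (heB : e ≤ f * B) (hu : u < e * L) (hc : Nat.Coprime u e) :
    ∑ d ∈ (Finset.Icc 1 B).filter (fun d => e ∣ f * d),
      Fh (2 * ν + 1) h b f a g (Pv w Q) d (u * (f * d / e)) = 0 := by
  have he0 : (e : ℚ) ≠ 0 := by exact_mod_cast (by omega : e ≠ 0)
  by_cases hu0 : u = 0
  · apply Finset.sum_eq_zero
    intro d _
    unfold Fh
    rw [if_pos (by rw [hu0, zero_mul])]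
  · have h1 : ∀ d ∈ (Finset.Icc 1 B).filter (fun d => e ∣ f * d),
        Fh (2 * ν + 1) h b f a g (Pv w Q) d (u * (f * d / e)) =
        PowerSeries.coeff b (RS (sP (2 * ν + 1)) (mP h) (KP (2 * ν + 1) h
          (g * (C ((a (u * (f * d / e)) : ℤ) : ℚ) * Pv w Q d))) ((u : ℚ) / e)) := by
      intro d hd
      rw [Finset.mem_filter, Finset.mem_Icc] at hd
      have hfd : 0 < f * d := Nat.mul_pos hp.pos hd.1.1
      have h2 : 0 < f * d / e := Nat.div_pos (Nat.le_of_dvd hfd hd.2) he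
      have h3 : u * (f * d / e) ≠ 0 := Nat.mul_ne_zero hu0 h2.ne'
      have h4 : ((u * (f * d / e) : ℕ) : ℚ) / ((f * d : ℕ) : ℚ) = (u : ℚ) / e := by
        have h5 : ((f * d : ℕ) : ℚ) = (e : ℚ) * ((f * d / e : ℕ) : ℚ) := by
          exact_mod_cast (Nat.mul_div_cancel' hd.2).symm
        have h6 : ((f * d / e : ℕ) : ℚ) ≠ 0 := by exact_mod_cast h2.ne'
        rw [h5, Nat.cast_mul, mul_div_mul_right _ _ h6]
      unfold Fh
      rw [if_neg h3, h4, coeff_KP_C]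
    rw [Finset.sum_congr rfl h1, coeff_KP_sum _ _
      (fun d => C ((a (u * (f * d / e)) : ℤ) : ℚ) * Pv w Q d), sum_Pva]
    rcases Nat.lt_or_ge 1 e with h1 | h1
    · apply RS_zero
      have h2 := hV e h1 heB (u + ν * e) (by
        calc u + ν * e < e * L + ν * e := by omega
          _ = e * (L + ν) := by ring) (by
        rw [Nat.coprime_add_mul_right_left]
        exact hc)
      have h3 : (((u + ν * e : ℕ) : ℚ)) / e - ν = (u : ℚ) / e := by
        push_cast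
        field_simp
        ring
      rw [h3, fea_add hp] at h2
      rw [mul_comm g]
      exact KP_dvd h2
    · have : e = 1 := by omega
      subst this
      rw [fea_one hp w Q u h0]
      exact coeff_KP_zero _ _

lemma head_zero (hR : S_REGa) {f b B m ν L h : ℕ} {a : ℕ → ℤ} (hp : Par f b a)
    {w : Fin m → ℕ → ℤ} {Q : Fin m → ℚ[X]} (g : ℚ[X])
    (h0 : ∀ l, ∑ d ∈ Finset.Icc 1 B, w l d = 0) (hV : Vana f b B ν (L + ν) a w Q) (hL : 1 ≤ L) :
    ∑ d ∈ Finset.Icc 1 B, ∑ t ∈ Finset.range (f * d * L - 1), ((a (t + 1) : ℤ) : ℚ) *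
      PowerSeries.coeff b (RS (sP (2 * ν + 1)) (mP h) (KP (2 * ν + 1) h (g * Pv w Q d))
        (((t : ℚ) + 1) / ((f * d : ℕ) : ℚ))) = 0 := by
  have h1 : ∀ d ∈ Finset.Icc 1 B, ∑ t ∈ Finset.range (f * d * L - 1), ((a (t + 1) : ℤ) : ℚ) *
      PowerSeries.coeff b (RS (sP (2 * ν + 1)) (mP h) (KP (2 * ν + 1) h (g * Pv w Q d))
        (((t : ℚ) + 1) / ((f * d : ℕ) : ℚ))) =
      ∑ v ∈ Finset.range (f * d * L), Fh (2 * ν + 1) h b f a g (Pv w Q) d v := by
    intro d hd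
    rw [Finset.mem_Icc] at hd
    have hdL : 1 ≤ f * d * L := Nat.mul_pos (Nat.mul_pos hp.pos hd.1) hL
    obtain ⟨N, hN⟩ : ∃ N, f * d * L = N + 1 := ⟨f * d * L - 1, by omega⟩
    rw [hN, Nat.add_sub_cancel, Finset.sum_range_succ']
    have h2 : Fh (2 * ν + 1) h b f a g (Pv w Q) d 0 = 0 := by
      unfold Fh
      rw [if_pos rfl]
    rw [h2, add_zero]
    refine Finset.sum_congr rfl fun t _ => ?_
    unfold Fh
    rw [if_neg (Nat.succ_ne_zero t), Nat.cast_succ]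
  rw [Finset.sum_congr rfl h1, hR ℚ f B L (Fh (2 * ν + 1) h b f a g (Pv w Q)) hp.pos]
  apply Finset.sum_eq_zero
  intro e he
  apply Finset.sum_eq_zero
  intro u hu
  rw [Finset.mem_Icc] at he
  rw [Finset.mem_filter, Finset.mem_range] at hu
  exact head_inner hp g h0 hV he.1 he.2 hu.1 hu.2

/-! ### Splitting of the series -/

lemma tsum_split' {f : ℕ → ℝ} (N : ℕ) {M : ℝ} (hM : 0 ≤ M)
    (hf : ∀ t, ¬ t + 1 < N → |f t| ≤ M * (1 / ((t : ℝ) + 1) ^ 2)) :
    ∑' t, f t = ∑ t ∈ Finset.range (N - 1), f t + ∑' t, (if t + 1 < N then 0 else f t) := by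
  apply tsum_split
  have h1 : Summable (fun t => if t + 1 < N then f t else 0) := by
    apply summable_of_ne_finset_zero (s := Finset.range (N - 1))
    intro t ht
    rw [Finset.mem_range] at ht
    exact if_neg (by omega)
  have h2 : Summable (fun t => if t + 1 < N then 0 else f t) := by
    refine Summable.of_norm_bounded (g := fun t : ℕ => M * (1 / ((t : ℝ) + 1) ^ 2))
      ((summable_zr le_rfl).mul_left M) fun t => ?_
    rw [Real.norm_eq_abs]
    by_cases ht : t + 1 < N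
    · rw [if_pos ht, abs_zero]
      positivity
    · rw [if_neg ht]
      exact hf t ht
  have h3 := h1.add h2
  refine h3.congr fun t => ?_
  split_ifs <;> ring

end ArcP

open ArcP Pool.Agent.Y926.TW.ArcL

theorem t_arca (hR : S_REGa) : S_ARCa := by
  intro f b B m h ν r D i W H α a w c hp hb1 hr hν hα hdeg h0 hc hW hV
  obtain ⟨n, hn⟩ : ∃ n, n = 2 * ν + 1 := ⟨_, rfl⟩
  have hn1 : 1 ≤ n := by omega
  obtain ⟨E, hE⟩ : ∃ E, E = i + D + 2 * n := ⟨_, rfl⟩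
  have hdeg' : 2 * E + 3 ≤ 2 * h * n := by rw [hE, hn]; exact hdeg
  obtain ⟨P, hP⟩ : ∃ P : ℕ → ℚ[X], P = Pv w (fun l => Qv n D (c l)) := ⟨_, rfl⟩
  have hhead := ArcP.head_zero (h := h) hR hp (Gb n i) h0 (L := r * (2 * ν + 1)) hV
    (Nat.mul_pos (by omega) (by omega))
  rw [← hn, ← hP] at hhead
  rw [← hn, ← hP, ← hE]
  have hM8 : 0 ≤ M8 n h (f * B) r E := by unfold M8; positivity
  have hM8' : (0 : ℝ) ≤ (M8 n h (f * B) r E : ℝ) := by exact_mod_cast hM8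
  have hWd : ∀ d, (0 : ℝ) ≤ ((∑ l, |w l d| : ℤ) : ℝ) := by
    intro d
    have : (0 : ℤ) ≤ ∑ l, |w l d| := Finset.sum_nonneg fun _ _ => abs_nonneg _
    exact_mod_cast this
  -- the bound of the terms
  have hterm : ∀ d, 1 ≤ d → d ≤ B → ∀ t : ℕ, ¬ t + 1 < f * d * (r * n) →
      |((a (t + 1) : ℤ) : ℝ) * ((PowerSeries.coeff b (RS (sP n) (mP h) (KP n h (Gb n i * P d))
        (((t : ℚ) + 1) / ((f * d : ℕ) : ℚ))) : ℚ) : ℝ)| ≤
      (α * (((∑ l, |w l d| : ℤ) : ℝ) * (D * H * (M8 n h (f * B) r E : ℝ)))) *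
        (1 / ((t : ℝ) + 1) ^ 2) := by
    intro d hd hdB t ht
    have h2 := term_le (n := n) (b := b) (h := h) (B := f * B) (i := i) (E := E) (D := D) (H := H)
      (d := f * d) hn1 hr (Nat.mul_pos hp.pos hd) (Nat.mul_le_mul_left f hdB) hc
      (fun l _ => w l d) hE hdeg' ht
    have e1 : Pv (fun l _ => w l d) (fun l => Qv n D (c l)) (f * d) = P d := by
      rw [hP]
      rfl
    rw [e1] at h2
    have h3 : ((|PowerSeries.coeff b (RS (sP n) (mP h) (KP n h (Gb n i * P d))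
        (((t : ℚ) + 1) / ((f * d : ℕ) : ℚ)))| : ℚ) : ℝ) ≤
        ((((∑ l, |w l d| : ℤ) : ℚ) * (D * H * M8 n h (f * B) r E) *
          (1 / ((t : ℚ) + 1) ^ 2) : ℚ) : ℝ) := by
      exact_mod_cast h2
    push_cast at h3
    rw [abs_mul]
    have h4 : |((a (t + 1) : ℤ) : ℝ)| ≤ (α : ℝ) := by
      have := hα (t + 1)
      exact_mod_cast this
    calc |((a (t + 1) : ℤ) : ℝ)| * |((PowerSeries.coeff b (RS (sP n) (mP h)
          (KP n h (Gb n i * P d)) (((t : ℚ) + 1) / ((f * d : ℕ) : ℚ))) : ℚ) : ℝ)|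
        ≤ α * (((∑ l, |w l d| : ℤ) : ℝ) * (D * H * (M8 n h (f * B) r E : ℝ)) *
          (1 / ((t : ℝ) + 1) ^ 2)) := by
          apply mul_le_mul h4 _ (abs_nonneg _) (by positivity)
          push_cast
          exact h3
      _ = _ := by ring
  -- the splitting
  have hsplit : ∀ d ∈ Finset.Icc 1 B, Sda a n h b f d (KP n h (Gb n i * P d)) =
      (-1) ^ b * (((∑ t ∈ Finset.range (f * d * (r * n) - 1), ((a (t + 1) : ℤ) : ℚ) *
        PowerSeries.coeff b (RS (sP n) (mP h) (KP n h (Gb n i * P d))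
          (((t : ℚ) + 1) / ((f * d : ℕ) : ℚ))) : ℚ) : ℝ) +
      ∑' t : ℕ, (if t + 1 < f * d * (r * n) then 0 else ((a (t + 1) : ℤ) : ℝ) *
        ((PowerSeries.coeff b (RS (sP n) (mP h) (KP n h (Gb n i * P d))
          (((t : ℚ) + 1) / ((f * d : ℕ) : ℚ))) : ℚ) : ℝ))) := by
    intro d hd
    rw [Finset.mem_Icc] at hd
    unfold Sda
    rw [tsum_split' (f * d * (r * n)) (M := α * (((∑ l, |w l d| : ℤ) : ℝ) *
      (D * H * (M8 n h (f * B) r E : ℝ)))) (mul_nonneg (by positivity) (mul_nonneg (hWd d)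
      (by positivity))) (hterm d hd.1 hd.2)]
    push_cast
    rfl
  rw [Finset.sum_congr rfl hsplit, ← Finset.mul_sum, Finset.sum_add_distrib]
  have hh0 : ∑ d ∈ Finset.Icc 1 B, ((∑ t ∈ Finset.range (f * d * (r * n) - 1),
      ((a (t + 1) : ℤ) : ℚ) * PowerSeries.coeff b
        (RS (sP n) (mP h) (KP n h (Gb n i * P d)) (((t : ℚ) + 1) / ((f * d : ℕ) : ℚ))) : ℚ) : ℝ)
      = 0 := by
    rw [← Rat.cast_sum, hhead, Rat.cast_zero]
  rw [hh0, zero_add, abs_mul, abs_pow, abs_neg, abs_one, one_pow, one_mul]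
  refine (Finset.abs_sum_le_sum_abs _ _).trans ?_
  have hbd : ∀ d ∈ Finset.Icc 1 B, |∑' t : ℕ, (if t + 1 < f * d * (r * n) then 0 else
      ((a (t + 1) : ℤ) : ℝ) * ((PowerSeries.coeff b (RS (sP n) (mP h) (KP n h (Gb n i * P d))
        (((t : ℚ) + 1) / ((f * d : ℕ) : ℚ))) : ℚ) : ℝ))| ≤
      ((∑ l, |w l d| : ℤ) : ℝ) * (α * (D * H * (2 * (M8 n h (f * B) r E : ℝ)))) := by
    intro d hd
    rw [Finset.mem_Icc] at hd
    have hnn : (0 : ℝ) ≤ α * (((∑ l, |w l d| : ℤ) : ℝ) * (D * H * (M8 n h (f * B) r E : ℝ))) :=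
      mul_nonneg (by positivity) (mul_nonneg (hWd d) (by positivity))
    have h1 := sum_bound (f := fun t : ℕ => (if t + 1 < f * d * (r * n) then 0 else
      ((a (t + 1) : ℤ) : ℝ) * ((PowerSeries.coeff b (RS (sP n) (mP h) (KP n h (Gb n i * P d))
        (((t : ℚ) + 1) / ((f * d : ℕ) : ℚ))) : ℚ) : ℝ)))
      (M := α * (((∑ l, |w l d| : ℤ) : ℝ) * (D * H * (M8 n h (f * B) r E : ℝ)))) (by
      intro t
      by_cases ht : t + 1 < f * d * (r * n)
      · simp only [ht, if_true, abs_zero]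
        positivity
      · simp only [ht, if_false]
        exact hterm d hd.1 hd.2 t ht) hnn
    refine h1.trans (le_of_eq ?_)
    ring
  refine (Finset.sum_le_sum hbd).trans ?_
  rw [← Finset.sum_mul]
  have h1 : ∑ d ∈ Finset.Icc 1 B, ((∑ l, |w l d| : ℤ) : ℝ) ≤ (W : ℝ) := by
    have : (((∑ d ∈ Finset.Icc 1 B, ∑ l, |w l d| : ℤ)) : ℝ) ≤ ((W : ℤ) : ℝ) := by exact_mod_cast hW
    rw [Int.cast_sum] at this
    exact_mod_cast this
  calc (∑ d ∈ Finset.Icc 1 B, ((∑ l, |w l d| : ℤ) : ℝ)) *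
        (α * (D * H * (2 * (M8 n h (f * B) r E : ℝ))))
      ≤ (W : ℝ) * (α * (D * H * (2 * (M8 n h (f * B) r E : ℝ)))) :=
        mul_le_mul_of_nonneg_right h1 (by positivity)
    _ = _ := by ring

end

end Pool.Agent.Y627.TP
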