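import Pool.Agent.Y627.TP.Stm
import Pool.Agent.Y926.TW.J_DIF

/-!
# Periodic Dirichlet series: the difference of the forms
-/

open Polynomial Pool.Agent.H337R2 Pool.Agent.W165.OZ Pool.Agent.W165.OZ.PAx Pool.Agent.Y926.LZ
  Pool.Agent.Y926.TW

namespace Pool.Agent.Y627.TP

noncomputable section

namespace DIF

open Pool.Agent.Y926.TW.DIF

/-- the coefficient for every parity of `b` -/
lemma coeff_RSg {n h b : ℕ} (P : ℚ[X])
    (hdeg : P.degree < (QQ (sP n) (mP h)).degree) (x : ℚ)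
    (hx : ∀ m ∈ sP n, x + (m : ℚ) ≠ 0) :
    PowerSeries.coeff b (RS (sP n) (mP h) P x) = (-1) ^ b * ∑ k ∈ sP n, Gk n h b P x k := by
  rw [coeff_RS _ _ _ hdeg x hx b, Finset.mul_sum]
  apply Finset.sum_congr rfl
  intro k _
  unfold Gk
  rw [← sum_pfc_eq_rat (sP n) (mP h) P (2 * h) k le_rfl
    (fun a i => a * Cb b i / (x + k) ^ (i + b)) (by intro i; simp), Finset.mul_sum]
  apply Finset.sum_congr rfl
  intro j _
  simp only [Cb]
  ring

lemma per_mul {f b : ℕ} {a : ℕ → ℤ} (ha : Par f b a) (u c : ℕ) : a (u + f * c) = a u := by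
  induction c with
  | zero => simp
  | succ c ih => rw [Nat.mul_succ, ← add_assoc, ha.per, ih]

lemma bdd {f b : ℕ} {a : ℕ → ℤ} (ha : Par f b a) : ∃ α : ℝ, ∀ u, |(a u : ℝ)| ≤ α := by
  refine ⟨∑ v ∈ Finset.range f, |(a v : ℝ)|, fun u => ?_⟩
  have h1 : a u = a (u % f) := by
    conv_lhs => rw [← Nat.mod_add_div u f]
    exact per_mul ha _ _
  rw [h1]
  exact Finset.single_le_sum (f := fun v => |(a v : ℝ)|) (fun _ _ => abs_nonneg _)
    (Finset.mem_range.2 (Nat.mod_lt _ ha.pos))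

lemma summable_a {f b : ℕ} {a : ℕ → ℤ} (ha : Par f b a) {e : ℕ} (he : 2 ≤ e) :
    Summable (fun t : ℕ => (a (t + 1) : ℝ) / ((t : ℝ) + 1) ^ e) := by
  obtain ⟨α, hα⟩ := bdd ha
  refine Summable.of_norm_bounded ((summable_zr he).mul_left α) fun t => ?_
  rw [Real.norm_eq_abs, abs_div, abs_of_pos (show (0 : ℝ) < ((t : ℝ) + 1) ^ e by positivity),
    mul_one_div]
  exact div_le_div_of_nonneg_right (hα _) (by positivity)

lemma hasSum_tail_a {f b : ℕ} {a : ℕ → ℤ} (ha : Par f b a) {e : ℕ} (he : 2 ≤ e) (c : ℕ) :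
    HasSum (fun t : ℕ => (a (t + 1) : ℝ) * (1 / ((t : ℝ) + (((f * c : ℕ) : ℝ) + 1)) ^ e))
      (zra a e - (hsa a e (f * c) : ℚ)) := by
  have h := summable_a ha he
  have h1 : Summable (fun t : ℕ => (a (t + f * c + 1) : ℝ) / (((t + f * c : ℕ) : ℝ) + 1) ^ e) :=
    (summable_nat_add_iff (f := fun t : ℕ => (a (t + 1) : ℝ) / ((t : ℝ) + 1) ^ e) (f * c)).2 h
  have h2 := h.sum_add_tsum_nat_add (f * c)
  have h3 : ∑' t : ℕ, (a (t + f * c + 1) : ℝ) / (((t + f * c : ℕ) : ℝ) + 1) ^ e =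
      zra a e - (hsa a e (f * c) : ℚ) := by
    unfold zra hsa
    rw [← h2]
    push_cast
    ring
  have h4 : (fun t : ℕ => (a (t + 1) : ℝ) * (1 / ((t : ℝ) + (((f * c : ℕ) : ℝ) + 1)) ^ e)) =
      fun t : ℕ => (a (t + f * c + 1) : ℝ) / (((t + f * c : ℕ) : ℝ) + 1) ^ e := by
    ext t
    have e1 : a (t + f * c + 1) = a (t + 1) := by
      rw [add_right_comm]
      exact per_mul ha _ _
    rw [e1, mul_one_div]
    push_cast
    ring
  rw [h4, ← h3]
  exact h1.hasSum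

/-- the sum over the line `f d` -/
lemma hasSum_Sa {n h b f d : ℕ} {a : ℕ → ℤ} (ha : Par f b a) (hb1 : 1 ≤ b) (hd : 1 ≤ d) (P : ℚ[X])
    (hdeg : P.degree < (QQ (sP n) (mP h)).degree) :
    HasSum (fun t : ℕ => (a (t + 1) : ℝ) *
        ((PowerSeries.coeff b (RS (sP n) (mP h) P (((t : ℚ) + 1) / ((f * d : ℕ) : ℚ))) : ℚ) : ℝ))
      ((-1) ^ b * (∑ i ∈ Finset.Icc 1 (2 * h),
        ((Cb b i * rhoP n h P i * ((f * d : ℕ) : ℚ) ^ (i + b) : ℚ) : ℝ) * zra a (i + b) -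
        (bea a n h b f d P : ℝ))) := by
  have hfd : 0 < f * d := Nat.mul_pos ha.pos hd
  obtain ⟨D, hD⟩ : ∃ D, D = f * d := ⟨_, rfl⟩
  have hD0 : (D : ℚ) ≠ 0 := by exact_mod_cast (by omega : D ≠ 0)
  have hD0' : (D : ℝ) ≠ 0 := by exact_mod_cast (by omega : D ≠ 0)
  have h1 : HasSum (fun t : ℕ => (-1 : ℝ) ^ b * ∑ k ∈ sP n, ∑ i ∈ Finset.Icc 1 (2 * h),
      ((pa (sP n) (mP h) P k i * Cb b i * (D : ℚ) ^ (i + b) : ℚ) : ℝ) *
        ((a (t + 1) : ℝ) * (1 / ((t : ℝ) + (((D * k : ℕ) : ℝ) + 1)) ^ (i + b))))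
      ((-1 : ℝ) ^ b * ∑ k ∈ sP n, ∑ i ∈ Finset.Icc 1 (2 * h),
      ((pa (sP n) (mP h) P k i * Cb b i * (D : ℚ) ^ (i + b) : ℚ) : ℝ) *
        (zra a (i + b) - (hsa a (i + b) (D * k) : ℚ))) := by
    apply HasSum.mul_left
    apply hasSum_sum
    intro k _
    apply hasSum_sum
    intro i hi
    rw [Finset.mem_Icc] at hi
    have := hasSum_tail_a ha (e := i + b) (by omega) (d * k)
    rw [← mul_assoc, ← hD] at this
    exact this.mul_left _
  have h2 : (∑ k ∈ sP n, ∑ i ∈ Finset.Icc 1 (2 * h),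
      ((pa (sP n) (mP h) P k i * Cb b i * (D : ℚ) ^ (i + b) : ℚ) : ℝ) *
        (zra a (i + b) - (hsa a (i + b) (D * k) : ℚ))) =
      (∑ i ∈ Finset.Icc 1 (2 * h), ((Cb b i * rhoP n h P i * (D : ℚ) ^ (i + b) : ℚ) : ℝ) *
        zra a (i + b) - (bea a n h b f d P : ℝ)) := by
    have h3 : (bea a n h b f d P : ℝ) = ∑ k ∈ sP n, ∑ i ∈ Finset.Icc 1 (2 * h),
        ((pa (sP n) (mP h) P k i * Cb b i * (D : ℚ) ^ (i + b) : ℚ) : ℝ) *
        ((hsa a (i + b) (D * k) : ℚ) : ℝ) := by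
      unfold bea
      rw [← hD]
      push_cast
      refine Finset.sum_congr rfl fun k _ => Finset.sum_congr rfl fun i _ => ?_
      ring
    have h4 : (∑ i ∈ Finset.Icc 1 (2 * h), ((Cb b i * rhoP n h P i * (D : ℚ) ^ (i + b) : ℚ) : ℝ) *
        zra a (i + b)) = ∑ k ∈ sP n, ∑ i ∈ Finset.Icc 1 (2 * h),
        ((pa (sP n) (mP h) P k i * Cb b i * (D : ℚ) ^ (i + b) : ℚ) : ℝ) * zra a (i + b) := by
      rw [Finset.sum_comm]
      refine Finset.sum_congr rfl fun i _ => ?_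
      rw [← Finset.sum_mul]
      congr 1
      unfold rhoP
      push_cast
      rw [Finset.mul_sum, Finset.sum_mul]
      refine Finset.sum_congr rfl fun k _ => ?_
      ring
    rw [h3, h4, ← Finset.sum_sub_distrib]
    refine Finset.sum_congr rfl fun k _ => ?_
    rw [← Finset.sum_sub_distrib]
    refine Finset.sum_congr rfl fun i _ => ?_
    ring
  rw [← hD, ← h2]
  refine h1.congr_fun ?_
  intro t
  have hne : ∀ m ∈ sP n, ((t : ℚ) + 1) / D + (m : ℚ) ≠ 0 := by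
    intro m _
    have h5 : (0 : ℚ) < ((t : ℚ) + 1) / D := by
      apply div_pos (by positivity)
      exact_mod_cast (by omega : 0 < D)
    positivity
  rw [coeff_RSg P hdeg _ hne]
  unfold Gk
  push_cast
  rw [mul_left_comm]
  congr 1
  rw [Finset.mul_sum]
  refine Finset.sum_congr rfl fun k _ => ?_
  rw [Finset.mul_sum]
  refine Finset.sum_congr rfl fun i _ => ?_
  have h6 : (((t : ℝ) + 1) / D + k) = (t + ((D : ℝ) * k + 1)) / D := by
    field_simp
    ring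
  rw [h6, div_pow]
  have h7 : (D : ℝ) ^ (i + b) ≠ 0 := pow_ne_zero _ hD0'
  have h8 : (t + ((D : ℝ) * k + 1)) ^ (i + b) ≠ 0 := by positivity
  field_simp

end DIF

open DIF Pool.Agent.Y926.TW.DIF

theorem t_difa : S_DIFa := by
  intro z n h b f B m a w g Q R W δ ha hn hB hb1 hδ hR0 hdeg hR hW hz
  -- degrees
  have hdegl : ∀ l, (KP n h (g * Q l)).degree < (QQ (sP n) (mP h)).degree :=
    fun l => degree_KP_lt (hdeg l)
  have hdegd : ∀ d, (KP n h (g * Pv w Q d)).degree < (QQ (sP n) (mP h)).degree := by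
    intro d
    rw [KP_Pv]
    have e1 : (QQ (sP n) (mP h)).degree = ((n * (2 * h) : ℕ) : WithBot ℕ) := by
      rw [Polynomial.degree_eq_natDegree (QQ_monic _ _).ne_zero, natDegree_QQ]
    rw [e1] at hdegl ⊢
    rw [← Polynomial.mem_degreeLT]
    refine Submodule.sum_mem _ fun l _ => ?_
    rw [← Polynomial.smul_eq_C_mul]
    exact Submodule.smul_mem _ _ (Polynomial.mem_degreeLT.2 (hdegl l))
  -- the coefficient
  obtain ⟨ρ, hρ⟩ : ∃ ρ : ℕ → ℚ, ρ = fun i => ∑ l, rhoP n h (KP n h (g * Q l)) i *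
      ((f : ℚ) ^ (i + b) * (WW B (w l) (i + b) : ℚ)) := ⟨_, rfl⟩
  have hcoef : ∀ i, ∑ d ∈ Finset.Icc 1 B, rhoP n h (KP n h (g * Pv w Q d)) i *
      (((f * d : ℕ) : ℚ)) ^ (i + b) = ρ i := by
    intro i
    rw [hρ]
    simp only
    have e1 : ∀ d ∈ Finset.Icc 1 B, rhoP n h (KP n h (g * Pv w Q d)) i *
        (((f * d : ℕ) : ℚ)) ^ (i + b) = ∑ l, rhoP n h (KP n h (g * Q l)) i *
        ((f : ℚ) ^ (i + b) * ((w l d : ℚ) * (d : ℚ) ^ (i + b))) := by
      intro d _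
      rw [KP_Pv, rhoP_sum', Finset.sum_mul]
      refine Finset.sum_congr rfl fun l _ => ?_
      push_cast
      ring
    rw [Finset.sum_congr rfl e1, Finset.sum_comm]
    refine Finset.sum_congr rfl fun l _ => ?_
    rw [← Finset.mul_sum, ← Finset.mul_sum]
    unfold WW
    push_cast
    rfl
  -- the difference
  have hmain : ∑ d ∈ Finset.Icc 1 B, Sda a n h b f d (KP n h (g * Pv w Q d)) -
      (LQa a z n h b f B (fun d => g * Pv w Q d) : ℝ) =
      ∑ i ∈ Finset.Icc 1 (2 * h), ((Cb b i : ℚ) : ℝ) * ((ρ i : ℚ) : ℝ) *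
        (zra a (i + b) - (z (i + b) : ℝ)) := by
    have e1 : ∀ d ∈ Finset.Icc 1 B, Sda a n h b f d (KP n h (g * Pv w Q d)) =
        ∑ i ∈ Finset.Icc 1 (2 * h), ((Cb b i * rhoP n h (KP n h (g * Pv w Q d)) i *
          ((f * d : ℕ) : ℚ) ^ (i + b) : ℚ) : ℝ) * zra a (i + b) -
          (bea a n h b f d (KP n h (g * Pv w Q d)) : ℝ) := by
      intro d hd
      rw [Finset.mem_Icc] at hd
      unfold Sda
      rw [(hasSum_Sa ha hb1 hd.1 _ (hdegd d)).tsum_eq, ← mul_assoc, ← mul_pow]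
      norm_num
    rw [Finset.sum_congr rfl e1]
    unfold LQa
    push_cast
    rw [← Finset.sum_sub_distrib]
    have e2 : ∀ i ∈ Finset.Icc 1 (2 * h), ((Cb b i : ℚ) : ℝ) * ((ρ i : ℚ) : ℝ) *
        (zra a (i + b) - (z (i + b) : ℝ)) = ∑ d ∈ Finset.Icc 1 B, ((Cb b i : ℚ) : ℝ) *
        ((rhoP n h (KP n h (g * Pv w Q d)) i : ℚ) : ℝ) * ((f : ℝ) * (d : ℝ)) ^ (i + b) *
        (zra a (i + b) - (z (i + b) : ℝ)) := by
      intro i _
      rw [← hcoef i]
      push_cast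
      rw [Finset.mul_sum, Finset.sum_mul]
      refine Finset.sum_congr rfl fun d _ => ?_
      ring
    rw [Finset.sum_congr rfl e2, Finset.sum_comm]
    refine Finset.sum_congr rfl fun d _ => ?_
    rw [sub_sub_sub_cancel_right, ← Finset.sum_sub_distrib]
    refine Finset.sum_congr rfl fun i _ => ?_
    ring
  rw [hmain]
  refine (Finset.abs_sum_le_sum_abs _ _).trans ?_
  have hR0' : (0 : ℝ) ≤ R := by exact_mod_cast hR0
  have h1 : ∀ i ∈ Finset.Icc 1 (2 * h),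
      |((Cb b i : ℚ) : ℝ) * ((ρ i : ℚ) : ℝ) * (zra a (i + b) - (z (i + b) : ℝ))| ≤
      2 ^ (2 * h + b) * R * (W * ((f * B : ℕ) : ℝ) ^ (2 * h + b)) * δ := by
    intro i hi
    rw [Finset.mem_Icc] at hi
    have hnn : (0 : ℝ) ≤ 2 ^ (2 * h + b) * R * (W * ((f * B : ℕ) : ℝ) ^ (2 * h + b)) * δ := by
      positivity
    rcases Nat.even_or_odd i with hi2 | hi2
    · have e1 : ρ i = 0 := by
        rw [hρ]
        exact Finset.sum_eq_zero fun l _ => by rw [rho_even hn _ hi2 hi.1, zero_mul]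
      rw [e1]
      simpa using hnn
    · have hodd : Odd (i + b + b) := by
        rw [add_assoc]
        exact hi2.add_even (Even.add_self b)
      rcases hz (i + b) hodd (by omega) (by omega) with h3 | h3
      · have e1 : ρ i = 0 := by
          rw [hρ]
          exact Finset.sum_eq_zero fun l _ => by rw [h3 l]; simp
        rw [e1]
        simpa using hnn
      · have a1 : |(Cb b i : ℚ)| ≤ 2 ^ (2 * h + b) := by
          unfold Cb
          rw [abs_of_nonneg (by positivity)]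
          have h4 : (i - 1 + b).choose (i - 1) ≤ 2 ^ (i - 1 + b) := Nat.choose_le_two_pow _ _
          have h5 : 2 ^ (i - 1 + b) ≤ 2 ^ (2 * h + b) := Nat.pow_le_pow_right (by norm_num) (by omega)
          exact_mod_cast h4.trans h5
        have a1' : |((Cb b i : ℚ) : ℝ)| ≤ 2 ^ (2 * h + b) := by exact_mod_cast a1
        have a2 : |ρ i| ≤ R * (W * ((f * B : ℕ) : ℚ) ^ (2 * h + b)) := by
          rw [hρ]
          refine (Finset.abs_sum_le_sum_abs _ _).trans ?_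
          have a3 : ∀ l ∈ Finset.univ, |rhoP n h (KP n h (g * Q l)) i *
              ((f : ℚ) ^ (i + b) * (WW B (w l) (i + b) : ℚ))| ≤
              R * ((f : ℚ) ^ (2 * h + b) * ((|WW B (w l) (i + b)| : ℤ) : ℚ)) := by
            intro l _
            rw [abs_mul, abs_mul, Int.cast_abs, abs_of_nonneg (show (0 : ℚ) ≤ (f : ℚ) ^ (i + b) by positivity)]
            have hf1 : (1 : ℚ) ≤ f := by exact_mod_cast ha.pos
            have hf2 : (f : ℚ) ^ (i + b) ≤ (f : ℚ) ^ (2 * h + b) := pow_le_pow_right₀ hf1 (by omega)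
            exact mul_le_mul (hR l i hi.2) (mul_le_mul_of_nonneg_right hf2 (abs_nonneg _))
              (by positivity) hR0
          refine (Finset.sum_le_sum a3).trans ?_
          rw [← Finset.mul_sum, ← Finset.mul_sum]
          refine mul_le_mul_of_nonneg_left ?_ hR0
          have a4 := WW_sum_le B (2 * h + b) (i + b) hB (by omega) w W hW
          have a5 : ((∑ l, |WW B (w l) (i + b)| : ℤ) : ℚ) ≤
              (((W : ℤ) * (B : ℤ) ^ (2 * h + b) : ℤ) : ℚ) := by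
            exact_mod_cast a4
          push_cast at a5 ⊢
          calc (f : ℚ) ^ (2 * h + b) * ∑ l, |(WW B (w l) (i + b) : ℚ)|
              ≤ (f : ℚ) ^ (2 * h + b) * ((W : ℚ) * (B : ℚ) ^ (2 * h + b)) :=
                mul_le_mul_of_nonneg_left a5 (by positivity)
            _ = W * ((f : ℚ) * B) ^ (2 * h + b) := by rw [mul_pow]; ring
        have a2' : |((ρ i : ℚ) : ℝ)| ≤ R * (W * ((f * B : ℕ) : ℝ) ^ (2 * h + b)) := by
          exact_mod_cast a2
        rw [abs_mul, abs_mul, mul_assoc ((2 : ℝ) ^ (2 * h + b))]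
        refine mul_le_mul (mul_le_mul a1' a2' (abs_nonneg _) (by positivity)) h3 (abs_nonneg _)
          (by positivity)
  refine (Finset.sum_le_sum h1).trans ?_
  rw [Finset.sum_const, Nat.card_Icc, nsmul_eq_mul]
  push_cast
  simp

end

end Pool.Agent.Y627.TP
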