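import Pool.Agent.Y627.TP.Stm
import Pool.Agent.Y926.TW.J_INT
import Pool.Agent.Y926.LZ.NonX

/-!
# Integrality of the forms, the periodic case
-/

open Polynomial Pool.Agent.H337R2 Pool.Agent.W165.OZ Pool.Agent.W165.OZ.PAx Pool.Agent.Y926.LZ
  Pool.Agent.Y926.TW

namespace Pool.Agent.Y627.TP

noncomputable section

namespace IntA

open Pool.Agent.Y926.TW.IntAux

/-! ### the sequence -/

lemma a_add {f b : ℕ} {a : ℕ → ℤ} (hp : Par f b a) (u k : ℕ) : a (u + f * k) = a u := by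
  induction k with
  | zero => simp
  | succ k ih => rw [Nat.mul_succ, ← Nat.add_assoc, hp.per, ih]

lemma a_neg {f b : ℕ} {a : ℕ → ℤ} (hp : Par f b a) {N k v : ℕ} (hN : f ∣ N) (hv : v ≤ N * k) :
    a (N * k - v) = (-1) ^ b * a v := by
  refine hp.par v (N * k - v) ?_
  rw [Nat.add_sub_cancel' hv]
  exact hN.mul_right k

/-- the coefficients of the classes -/
def Cz (f B : ℕ) (a : ℕ → ℤ) (w : ℕ → ℤ) (e u : ℕ) : ℤ :=
  ∑ d ∈ (Finset.Icc 1 B).filter (fun d => e ∣ f * d), w d * a (u * (f * d / e))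

lemma Ca_eq (f B : ℕ) (a : ℕ → ℤ) (w : ℕ → ℤ) (e u : ℕ) :
    Ca f B a (fun d => (w d : ℚ)) e u = ((Cz f B a w e u : ℤ) : ℚ) := by
  unfold Ca Cz
  push_cast
  rfl

/-- periodicity -/
lemma Cz_add {f b B : ℕ} {a : ℕ → ℤ} (hp : Par f b a) (w : ℕ → ℤ) (e u ν : ℕ) :
    Cz f B a w e (u + ν * e) = Cz f B a w e u := by
  unfold Cz
  refine Finset.sum_congr rfl fun d hd => ?_
  obtain ⟨s, hs⟩ := (Finset.mem_filter.1 hd).2
  rcases Nat.eq_zero_or_pos e with he | he
  · subst he
    simp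
  · have h1 : f * d / e = s := by rw [hs, Nat.mul_div_cancel_left _ he]
    rw [h1]
    have h2 : (u + ν * e) * s = u * s + f * (ν * d) := by
      calc (u + ν * e) * s = u * s + ν * (e * s) := by ring
        _ = u * s + ν * (f * d) := by rw [hs]
        _ = _ := by ring
    rw [h2, a_add hp]

/-- parity -/
lemma Cz_neg {f b B : ℕ} {a : ℕ → ℤ} (hp : Par f b a) (w : ℕ → ℤ) {e u v : ℕ} (h : e ∣ u + v) :
    Cz f B a w e v = (-1) ^ b * Cz f B a w e u := by
  unfold Cz
  rw [Finset.mul_sum]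
  refine Finset.sum_congr rfl fun d hd => ?_
  obtain ⟨s, hs⟩ := (Finset.mem_filter.1 hd).2
  obtain ⟨r, hr⟩ := h
  have h3 : a (v * (f * d / e)) = (-1) ^ b * a (u * (f * d / e)) := by
    refine hp.par _ _ ?_
    rcases Nat.eq_zero_or_pos e with he | he
    · subst he
      simp
    · have h1 : f * d / e = s := by rw [hs, Nat.mul_div_cancel_left _ he]
      rw [h1, ← Nat.add_mul, hr]
      refine ⟨r * d, ?_⟩
      calc e * r * s = r * (e * s) := by ring
        _ = r * (f * d) := by rw [hs]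
        _ = _ := by ring
  rw [h3]
  ring

lemma fea_eq {m : ℕ} (f B : ℕ) (a : ℕ → ℤ) (w : Fin m → ℕ → ℤ) (Q : Fin m → ℚ[X]) (e u : ℕ) :
    fea f B a w Q e u = ∑ l, C ((Cz f B a (w l) e u : ℤ) : ℚ) * Q l := by
  unfold fea
  exact Finset.sum_congr rfl fun l _ => by rw [Ca_eq]

lemma fea_add {f b B m : ℕ} {a : ℕ → ℤ} (hp : Par f b a) (w : Fin m → ℕ → ℤ) (Q : Fin m → ℚ[X])
    (e u ν : ℕ) : fea f B a w Q e (u + ν * e) = fea f B a w Q e u := by
  rw [fea_eq, fea_eq]
  exact Finset.sum_congr rfl fun l _ => by rw [Cz_add hp]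

lemma fea_neg {f b B m : ℕ} {a : ℕ → ℤ} (hp : Par f b a) (w : Fin m → ℕ → ℤ) (Q : Fin m → ℚ[X])
    {e u v : ℕ} (h : e ∣ u + v) : fea f B a w Q e v = C ((-1 : ℚ) ^ b) * fea f B a w Q e u := by
  rw [fea_eq, fea_eq, Finset.mul_sum]
  refine Finset.sum_congr rfl fun l _ => ?_
  rw [Cz_neg hp (w l) h]
  push_cast
  rw [map_mul]
  simp only [map_pow, map_neg, map_one]
  ring

/-! ### the rational part -/

lemma hsa_eq {f b d e k : ℕ} {a : ℕ → ℤ} (hp : Par f b a) (hd : 1 ≤ d) :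
    (((f * d : ℕ) : ℚ)) ^ e * hsa a e (f * d * k) =
    (-1) ^ b * ∑ v ∈ Finset.range (f * d * k), (a v : ℚ) / (-(v : ℚ) / ((f * d : ℕ) : ℚ) + k) ^ e := by
  obtain ⟨N, hN⟩ : ∃ N, N = f * d := ⟨_, rfl⟩
  have hfN : f ∣ N := ⟨d, hN⟩
  have hN1 : 1 ≤ N := by
    rw [hN]
    exact Nat.mul_pos hp.pos hd
  rw [← hN]
  have hd0 : (N : ℚ) ≠ 0 := by exact_mod_cast (by omega : N ≠ 0)
  unfold hsa
  rw [← Finset.sum_range_reflect, Finset.mul_sum, Finset.mul_sum]
  apply Finset.sum_congr rfl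
  intro v hv
  rw [Finset.mem_range] at hv
  have h2 : N * k - 1 - v + 1 = N * k - v := by omega
  have h1 : ((N * k - 1 - v : ℕ) : ℚ) + 1 = (N : ℚ) * (-(v : ℚ) / N + k) := by
    have h3 : ((N * k - 1 - v : ℕ) : ℚ) + 1 = ((N * k - v : ℕ) : ℚ) := by
      rw [← h2]; push_cast; ring
    rw [h3, Nat.cast_sub hv.le]
    push_cast
    field_simp
    ring
  rw [h1, h2, a_neg hp hfN hv.le, mul_pow]
  have h4 : (N : ℚ) ^ e ≠ 0 := pow_ne_zero _ hd0
  push_cast
  rw [mul_div_assoc', mul_div_mul_left _ _ h4, mul_div_assoc]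

lemma bea_eq {f b d n h : ℕ} {a : ℕ → ℤ} (hp : Par f b a) (hd : 1 ≤ d) (P : ℚ[X]) :
    bea a n h b f d P =
    (-1) ^ b * ∑ v ∈ Finset.range (f * d * n), (a v : ℚ) *
      ∑ k ∈ (sP n).filter (fun k => v < f * d * k), Gk n h b P (-(v : ℚ) / ((f * d : ℕ) : ℚ)) k := by
  have h1 : bea a n h b f d P = (-1) ^ b * ∑ k ∈ sP n, ∑ v ∈ Finset.range (f * d * n),
      if v < f * d * k then (a v : ℚ) * Gk n h b P (-(v : ℚ) / ((f * d : ℕ) : ℚ)) k else 0 := by
    unfold bea
    rw [Finset.mul_sum]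
    apply Finset.sum_congr rfl
    intro k hk
    rw [Finset.mem_range] at hk
    rw [← Finset.sum_filter]
    have h2 : (Finset.range (f * d * n)).filter (fun v => v < f * d * k) =
        Finset.range (f * d * k) := by
      ext v
      rw [Finset.mem_filter, Finset.mem_range, Finset.mem_range]
      constructor
      · exact fun h => h.2
      · intro h
        exact ⟨h.trans_le (Nat.mul_le_mul_left _ hk.le), h⟩
    rw [h2]
    unfold Gk
    have h3 : ∀ v : ℕ, (a v : ℚ) * ∑ i ∈ Finset.Icc 1 (2 * h), pa (sP n) (mP h) P k i * Cb b i /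
        (-(v : ℚ) / ((f * d : ℕ) : ℚ) + k) ^ (i + b) =
        ∑ i ∈ Finset.Icc 1 (2 * h), (a v : ℚ) * (pa (sP n) (mP h) P k i * Cb b i /
        (-(v : ℚ) / ((f * d : ℕ) : ℚ) + k) ^ (i + b)) := fun v => Finset.mul_sum _ _ _
    rw [Finset.sum_congr rfl fun v _ => h3 v, Finset.sum_comm, Finset.mul_sum]
    apply Finset.sum_congr rfl
    intro i _
    rw [hsa_eq hp hd, Finset.mul_sum, Finset.mul_sum, Finset.mul_sum]
    apply Finset.sum_congr rfl
    intro v _
    ring
  rw [h1, Finset.sum_comm]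
  congr 1
  apply Finset.sum_congr rfl
  intro v _
  rw [Finset.sum_filter, Finset.mul_sum]
  apply Finset.sum_congr rfl
  intro k _
  split_ifs
  · rfl
  · simp

lemma coeff_RSg {n h b : ℕ} (P : ℚ[X])
    (hdeg : P.degree < (QQ (sP n) (mP h)).degree) (x : ℚ)
    (hx : ∀ m ∈ sP n, x + (m : ℚ) ≠ 0) :
    PowerSeries.coeff b (RS (sP n) (mP h) P x) = (-1) ^ b * ∑ k ∈ sP n, Gk n h b P x k := by
  rw [coeff_RS _ _ _ hdeg x hx b, Finset.mul_sum]
  apply Finset.sum_congr rfl
  intro k _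
  unfold Gk
  rw [← sum_pfc_eq_rat (sP n) (mP h) P (2 * h) k le_rfl
    (fun a i => a * Cb b i / (x + k) ^ (i + b)) (by intro i; simp), Finset.mul_sum]
  apply Finset.sum_congr rfl
  intro j _
  simp only [Cb]
  ring

section pad
variable {p : ℕ} [hp : Fact p.Prime]

/-- the bound of the inner sums -/
lemma part_boundg {n h b e u : ℕ} (he : 2 ≤ e) (hc : Nat.Coprime u e) {P : ℚ[X]}
    (hdeg : P.degree < (QQ (sP n) (mP h)).degree)
    (hP : ∀ k < n, ∀ i : ℕ, i ≤ 2 * h → padicNorm p (pa (sP n) (mP h) P k i) ≤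
      ((p : ℚ) ^ Nat.log p n) ^ (2 * h - i))
    (hz : PowerSeries.coeff b (RS (sP n) (mP h) P (-(u : ℚ) / e)) = 0) :
    padicNorm p (∑ k ∈ (sP n).filter (fun k => u < e * k), Gk n h b P (-(u : ℚ) / e) k) ≤
      ((p : ℚ) ^ Nat.log p n) ^ (2 * h + b) := by
  have hρ : (1 : ℚ) ≤ (p : ℚ) ^ Nat.log p n := rho_ge n
  have hρ0 : (0 : ℚ) ≤ (p : ℚ) ^ Nat.log p n := by linarith
  have he0 : (e : ℚ) ≠ 0 := by exact_mod_cast (by omega : e ≠ 0)
  have hne : ∀ m ∈ sP n, -(u : ℚ) / e + (m : ℚ) ≠ 0 := by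
    intro m _ h0
    have h1 : (u : ℚ) = (e : ℚ) * m := by
      field_simp at h0
      linarith
    have h2 : u = e * m := by exact_mod_cast h1
    have h3 : e ∣ Nat.gcd u e := Nat.dvd_gcd ⟨m, h2⟩ (dvd_refl e)
    rw [hc] at h3
    have := Nat.le_of_dvd one_pos h3
    omega
  rw [coeff_RSg P hdeg _ hne] at hz
  have hz' : ∑ k ∈ sP n, Gk n h b P (-(u : ℚ) / e) k = 0 := by
    rcases mul_eq_zero.1 hz with h1 | h1
    · exact absurd h1 (pow_ne_zero _ (by norm_num))
    · exact h1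
  have key : ∀ T : Finset ℕ, T ⊆ sP n →
      (∀ k ∈ T, (padicNorm p (-(u : ℚ) / e + k))⁻¹ ≤ (p : ℚ) ^ Nat.log p n) →
      padicNorm p (∑ k ∈ T, Gk n h b P (-(u : ℚ) / e) k) ≤
        ((p : ℚ) ^ Nat.log p n) ^ (2 * h + b) := by
    intro T hT hc
    apply padicNorm.sum_le' _ (by positivity)
    intro k hk
    exact Gk_bound (hP k (Finset.mem_range.1 (hT hk))) (hne k (hT hk)) (hc k hk)
  by_cases hex : ∀ k ∈ (sP n).filter (fun k => u < e * k),
      (padicNorm p (-(u : ℚ) / e + k))⁻¹ ≤ (p : ℚ) ^ Nat.log p n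
  · exact key _ (Finset.filter_subset _ _) hex
  · push Not at hex
    obtain ⟨k0, hk0, hk0'⟩ := hex
    have h1 : ∑ k ∈ (sP n).filter (fun k => u < e * k), Gk n h b P (-(u : ℚ) / e) k =
        -∑ k ∈ (sP n).filter (fun k => ¬ u < e * k), Gk n h b P (-(u : ℚ) / e) k := by
      rw [eq_neg_iff_add_eq_zero, Finset.sum_filter_add_sum_filter_not, hz']
    rw [h1, padicNorm.neg]
    refine key _ (Finset.filter_subset _ _) fun k hk => ?_
    by_contra hk'
    have h2 := close_unique (p := p) (Finset.mem_range.1 (Finset.mem_filter.1 hk0).1)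
      (Finset.mem_range.1 (Finset.mem_filter.1 hk).1) (not_le.2 hk0') hk'
    rw [← h2] at hk
    exact (Finset.mem_filter.1 hk).2 (Finset.mem_filter.1 hk0).2

end pad

/-! ### the zeros -/

lemma vana_dvd {f m b B ν L e u : ℕ} {a : ℕ → ℤ} (hp : Par f b a) {w : Fin m → ℕ → ℤ}
    {Q : Fin m → ℚ[X]} (hV : Vana f b B ν L a w Q)
    (hL : ν + 1 ≤ L) (he : 2 ≤ e) (heB : e ≤ f * B) (hu : u < e * (2 * ν + 1))
    (hc : Nat.Coprime u e) :
    (X - C (-(u : ℚ) / e)) ^ (b + 1) ∣ (fea f B a w Q e u).comp (yp (2 * ν + 1)) := by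
  have he0 : (e : ℚ) ≠ 0 := by exact_mod_cast (by omega : e ≠ 0)
  by_cases hcase : u ≤ ν * e
  · have h1 : ν * e - u < e * L := by
      calc ν * e - u ≤ ν * e := Nat.sub_le _ _
        _ < (ν + 1) * e := by
            rw [Nat.add_mul]
            omega
        _ ≤ L * e := Nat.mul_le_mul_right _ hL
        _ = e * L := mul_comm _ _
    have h2 : Nat.Coprime (ν * e - u) e := by
      have hg1 : Nat.gcd (ν * e - u) e ∣ e := Nat.gcd_dvd_right _ _
      have hg2 : Nat.gcd (ν * e - u) e ∣ ν * e - u := Nat.gcd_dvd_left _ _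
      have hg3 : Nat.gcd (ν * e - u) e ∣ u := by
        have h3 := Nat.dvd_sub (hg1.mul_left ν) hg2
        rwa [Nat.sub_sub_self hcase] at h3
      have h4 := Nat.dvd_gcd hg3 hg1
      rw [hc] at h4
      exact Nat.eq_one_of_dvd_one h4
    have h4 := hV e he heB _ h1 h2
    have h5 : ((ν * e - u : ℕ) : ℚ) / e - ν = -(u : ℚ) / e := by
      rw [Nat.cast_sub hcase]
      push_cast
      field_simp
      ring
    rw [h5] at h4
    have h6 : e ∣ (ν * e - u) + u := by
      rw [Nat.sub_add_cancel hcase]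
      exact dvd_mul_left e ν
    rw [fea_neg hp w Q h6, Polynomial.mul_comp]
    exact h4.mul_left _
  · push Not at hcase
    have h1 : u - ν * e < e * L := by
      have h6 : u < ν * e + (ν + 1) * e := by
        calc u < e * (2 * ν + 1) := hu
          _ = ν * e + (ν + 1) * e := by ring
      have h7 : (ν + 1) * e ≤ e * L := by
        rw [mul_comm e L]
        exact Nat.mul_le_mul_right _ hL
      omega
    have h2 : Nat.Coprime (u - ν * e) e := by
      have hg1 : Nat.gcd (u - ν * e) e ∣ e := Nat.gcd_dvd_right _ _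
      have hg2 : Nat.gcd (u - ν * e) e ∣ u - ν * e := Nat.gcd_dvd_left _ _
      have hg3 : Nat.gcd (u - ν * e) e ∣ u := by
        have h3 := Nat.dvd_add hg2 (hg1.mul_left ν)
        rwa [Nat.sub_add_cancel hcase.le] at h3
      have h4 := Nat.dvd_gcd hg3 hg1
      rw [hc] at h4
      exact Nat.eq_one_of_dvd_one h4
    have h4 := sym_dvd (hV e he heB _ h1 h2)
    have h5 : 1 - (((2 * ν + 1 : ℕ)) : ℚ) - (((u - ν * e : ℕ) : ℚ) / e - ν) = -(u : ℚ) / e := by
      rw [Nat.cast_sub hcase.le]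
      push_cast
      field_simp
      ring
    rw [h5] at h4
    have h6 : fea f B a w Q e u = fea f B a w Q e (u - ν * e) := by
      rw [← fea_add hp w Q e (u - ν * e) ν, Nat.sub_add_cancel hcase.le]
    rw [h6]
    exact h4

end IntA

open IntA Pool.Agent.Y926.TW.IntAux in
/-- INTa: integrality of the forms -/
theorem t_inta (hR : S_REGa) : S_INTa := by
  intro z f b B m h ν L D i q a w c hpar hL hdeg hw hV hz
  classical
  obtain ⟨n, hn⟩ : ∃ n, n = 2 * ν + 1 := ⟨_, rfl⟩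
  have hV' : ∀ e, 2 ≤ e → e ≤ f * B → ∀ u, u < e * n → Nat.Coprime u e →
      (X - C (-(u : ℚ) / e)) ^ (b + 1) ∣
        (fea f B a w (fun l => Qv n D (c l)) e u).comp (yp n) := by
    intro e he heB u hu hc
    rw [hn] at hu ⊢
    exact vana_dvd hpar hV hL he heB hu hc
  rw [← hn] at hdeg ⊢
  clear hV
  have hn1 : 1 ≤ n := by omega
  obtain ⟨Q, hQ⟩ : ∃ Q : Fin m → ℚ[X], Q = fun l => Qv n D (c l) := ⟨_, rfl⟩
  have hQl : ∀ l, Q l = Qv n D (c l) := fun l => by rw [hQ]
  rw [← hQ] at hV' ⊢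
  obtain ⟨g, hg⟩ : ∃ g : ℚ[X], g = Gb n i := ⟨_, rfl⟩
  rw [← hg]
  obtain ⟨Kl, hKl⟩ : ∃ Kl : Fin m → ℚ[X], ∀ l, Kl l = KP n h (g * Q l) := ⟨_, fun _ => rfl⟩
  -- linearity
  have hKPd : ∀ d, KP n h (g * Pv w Q d) = ∑ l, C ((w l d : ℤ) : ℚ) * Kl l := by
    intro d
    have h1 : g * Pv w Q d = ∑ l, C ((w l d : ℤ) : ℚ) * (g * Q l) := by
      unfold Pv
      rw [Finset.mul_sum]
      exact Finset.sum_congr rfl fun l _ => by ring
    rw [h1, KP_sum' n h Finset.univ (fun l => ((w l d : ℤ) : ℚ)) (fun l => g * Q l)]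
    exact Finset.sum_congr rfl fun l _ => by rw [hKl]
  have hfe : ∀ e u, g * fea f B a w Q e u = ∑ l, C ((Cz f B a (w l) e u : ℤ) : ℚ) * (g * Q l) := by
    intro e u
    rw [fea_eq, Finset.mul_sum]
    exact Finset.sum_congr rfl fun l _ => by ring
  have hKe : ∀ e u, KP n h (g * fea f B a w Q e u) =
      ∑ l, C ((Cz f B a (w l) e u : ℤ) : ℚ) * Kl l := by
    intro e u
    rw [hfe, KP_sum' n h Finset.univ (fun l => ((Cz f B a (w l) e u : ℤ) : ℚ))
      (fun l => g * Q l)]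
    exact Finset.sum_congr rfl fun l _ => by rw [hKl]
  -- degrees
  have hdegQ : ∀ l, (g * Q l).natDegree ≤ i + D := by
    intro l
    refine Polynomial.natDegree_mul_le.trans ?_
    rw [hg, (Gb_spec n i).2, hQl]
    exact Nat.add_le_add_left (Qv_natDegree n D (c l)) i
  have hdegE : ∀ e u, (KP n h (g * fea f B a w Q e u)).degree < (QQ (sP n) (mP h)).degree := by
    intro e u
    apply degree_KP_lt
    have h1 : (g * fea f B a w Q e u).natDegree ≤ i + D := by
      rw [hfe]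
      exact Polynomial.natDegree_sum_le_of_forall_le _ _ fun l _ =>
        (Polynomial.natDegree_C_mul_le _ _).trans (hdegQ l)
    omega
  -- the part with the values
  have hA : ∑ d ∈ Finset.Icc 1 B, ∑ j ∈ Finset.Icc 1 (2 * h),
      Cb b j * rhoP n h (KP n h (g * Pv w Q d)) j * (((f * d : ℕ) : ℚ)) ^ (j + b) * z (j + b) =
      ∑ j ∈ Finset.Icc 1 (2 * h), ∑ l, Cb b j * rhoP n h (Kl l) j *
        (((f ^ (j + b) : ℕ) : ℚ) * (WW B (w l) (j + b) : ℚ)) * z (j + b) := by
    rw [Finset.sum_comm]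
    refine Finset.sum_congr rfl fun j _ => ?_
    have h1 : ∀ d, Cb b j * rhoP n h (KP n h (g * Pv w Q d)) j *
        (((f * d : ℕ) : ℚ)) ^ (j + b) * z (j + b) =
        ∑ l, Cb b j * rhoP n h (Kl l) j *
          (((f ^ (j + b) : ℕ) : ℚ) * ((w l d : ℚ) * (d : ℚ) ^ (j + b))) * z (j + b) := by
      intro d
      rw [hKPd, rhoP_sum' n h Finset.univ (fun l => ((w l d : ℤ) : ℚ)) Kl, Finset.mul_sum,
        Finset.sum_mul, Finset.sum_mul]
      refine Finset.sum_congr rfl fun l _ => ?_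
      push_cast
      rw [mul_pow]
      ring
    have h2 : ∑ d ∈ Finset.Icc 1 B, Cb b j * rhoP n h (KP n h (g * Pv w Q d)) j *
        (((f * d : ℕ) : ℚ)) ^ (j + b) * z (j + b) =
        ∑ d ∈ Finset.Icc 1 B, ∑ l, Cb b j * rhoP n h (Kl l) j *
          (((f ^ (j + b) : ℕ) : ℚ) * ((w l d : ℚ) * (d : ℚ) ^ (j + b))) * z (j + b) :=
      Finset.sum_congr rfl fun d _ => h1 d
    rw [h2, Finset.sum_comm]
    refine Finset.sum_congr rfl fun l _ => ?_
    unfold WW
    push_cast
    rw [Finset.mul_sum, Finset.mul_sum, Finset.sum_mul]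
  -- the rational part
  have hB : ∑ d ∈ Finset.Icc 1 B, bea a n h b f d (KP n h (g * Pv w Q d)) =
      (-1) ^ b * ∑ e ∈ Finset.Icc 1 (f * B),
        ∑ u ∈ (Finset.range (e * n)).filter (fun u => Nat.Coprime u e),
        ∑ k ∈ (sP n).filter (fun k => u < e * k),
          Gk n h b (KP n h (g * fea f B a w Q e u)) (-(u : ℚ) / e) k := by
    have h1 : ∀ d ∈ Finset.Icc 1 B, bea a n h b f d (KP n h (g * Pv w Q d)) =
        (-1) ^ b * ∑ v ∈ Finset.range (f * d * n), (fun (d v : ℕ) => (a v : ℚ) *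
          ∑ k ∈ (sP n).filter (fun k : ℕ => v < f * d * k),
            Gk n h b (KP n h (g * Pv w Q d)) (-(v : ℚ) / ((f * d : ℕ) : ℚ)) k) d v := by
      intro d hd
      rw [bea_eq hpar (Finset.mem_Icc.1 hd).1]
    rw [Finset.sum_congr rfl h1, ← Finset.mul_sum, hR ℚ f B n (fun (d v : ℕ) => (a v : ℚ) *
          ∑ k ∈ (sP n).filter (fun k : ℕ => v < f * d * k),
            Gk n h b (KP n h (g * Pv w Q d)) (-(v : ℚ) / ((f * d : ℕ) : ℚ)) k) hpar.pos]
    congr 1
    refine Finset.sum_congr rfl fun e he => Finset.sum_congr rfl fun u _ => ?_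
    have he1 : 1 ≤ e := (Finset.mem_Icc.1 he).1
    have he0 : (e : ℚ) ≠ 0 := by exact_mod_cast (by omega : e ≠ 0)
    have h2 : ∀ d ∈ (Finset.Icc 1 B).filter (fun d => e ∣ f * d),
        (a (u * (f * d / e)) : ℚ) *
          ∑ k ∈ (sP n).filter (fun k : ℕ => u * (f * d / e) < f * d * k),
            Gk n h b (KP n h (g * Pv w Q d)) (-((u * (f * d / e) : ℕ) : ℚ) / ((f * d : ℕ) : ℚ)) k =
        ∑ k ∈ (sP n).filter (fun k : ℕ => u < e * k), ∑ l : Fin m,
          ((w l d * a (u * (f * d / e)) : ℤ) : ℚ) * Gk n h b (Kl l) (-(u : ℚ) / e) k := by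
      intro d hd
      rw [Finset.mem_filter, Finset.mem_Icc] at hd
      obtain ⟨s, hs⟩ := hd.2
      have h3 : f * d / e = s := by rw [hs, Nat.mul_div_cancel_left _ (by omega)]
      have hs1 : 1 ≤ s := by
        have h4 : 0 < f * d := Nat.mul_pos hpar.pos hd.1.1
        rw [hs] at h4
        exact Nat.pos_of_mul_pos_left h4
      have hs0 : (s : ℚ) ≠ 0 := by exact_mod_cast (by omega : s ≠ 0)
      rw [h3, hs]
      have h5 : (sP n).filter (fun k : ℕ => u * s < e * s * k) =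
          (sP n).filter (fun k : ℕ => u < e * k) := by
        refine Finset.filter_congr fun k _ => ?_
        have h6 : e * s * k = e * k * s := by ring
        rw [h6]
        exact Nat.mul_lt_mul_right hs1
      have h7 : -((u * s : ℕ) : ℚ) / ((e * s : ℕ) : ℚ) = -(u : ℚ) / e := by
        push_cast
        field_simp
      rw [h5, h7, Finset.mul_sum]
      refine Finset.sum_congr rfl fun k _ => ?_
      rw [hKPd, Gk_sum' n h b Finset.univ (fun l => ((w l d : ℤ) : ℚ)) Kl, Finset.mul_sum]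
      refine Finset.sum_congr rfl fun l _ => ?_
      push_cast
      ring
    rw [Finset.sum_congr rfl h2, Finset.sum_comm]
    refine Finset.sum_congr rfl fun k _ => ?_
    rw [hKe, Gk_sum' n h b Finset.univ (fun l => ((Cz f B a (w l) e u : ℤ) : ℚ)) Kl,
      Finset.sum_comm]
    refine Finset.sum_congr rfl fun l _ => ?_
    rw [← Finset.sum_mul]
    unfold Cz
    push_cast
    rfl
  have hLQ : (q : ℚ) * LQa a z n h b f B (fun d => g * Pv w Q d) =
      ∑ j ∈ Finset.Icc 1 (2 * h), ∑ l, Cb b j * rhoP n h (Kl l) j *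
        (((f ^ (j + b) : ℕ) : ℚ) * (WW B (w l) (j + b) : ℚ)) * ((q : ℚ) * z (j + b)) -
      (q : ℚ) * ((-1) ^ b * ∑ e ∈ Finset.Icc 1 (f * B), ∑ u ∈ (Finset.range (e * n)).filter
        (fun u => Nat.Coprime u e), ∑ k ∈ (sP n).filter (fun k => u < e * k),
          Gk n h b (KP n h (g * fea f B a w Q e u)) (-(u : ℚ) / e) k) := by
    unfold LQa
    rw [Finset.sum_sub_distrib, hA, hB, mul_sub]
    congr 1
    rw [Finset.mul_sum]
    refine Finset.sum_congr rfl fun j _ => ?_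
    rw [Finset.mul_sum]
    exact Finset.sum_congr rfl fun l _ => by ring
  apply int_of_bound
  intro p hp
  have hρ : (1 : ℚ) ≤ (p : ℚ) ^ Nat.log p n := rho_ge n
  have hρ0 : (0 : ℚ) < (p : ℚ) ^ Nat.log p n := by linarith
  have hD : padicNorm p (Dl n 1 : ℚ) ≤ ((p : ℚ) ^ Nat.log p n)⁻¹ := by
    by_cases hpn : p ≤ n
    · rw [pn_Dl hpn, one_mul]
    · rw [Nat.log_of_lt (by omega), pow_zero, inv_one]
      exact padicNorm.of_nat _
  have hPl : ∀ (l : Fin m), ∀ k < n, ∀ j : ℕ, j ≤ 2 * h →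
      padicNorm p (pa (sP n) (mP h) (Kl l) k j) ≤ ((p : ℚ) ^ Nat.log p n) ^ (2 * h - j) := by
    intro l k hk j hj
    rw [hKl]
    refine pa_bound hk _ hj ?_
    rw [hg, hQl]
    exact PB_GQ hn1 (c l)
  have hPe : ∀ e u : ℕ, ∀ k < n, ∀ j : ℕ, j ≤ 2 * h →
      padicNorm p (pa (sP n) (mP h) (KP n h (g * fea f B a w Q e u)) k j) ≤
      ((p : ℚ) ^ Nat.log p n) ^ (2 * h - j) := by
    intro e u k hk j hj
    refine pa_bound hk _ hj ?_
    rw [hfe]
    refine PB_lin _ _ fun l => ?_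
    rw [hg, hQl]
    exact PB_GQ hn1 (c l)
  have h6 : padicNorm p ((q : ℚ) * LQa a z n h b f B (fun d => g * Pv w Q d)) ≤
      ((p : ℚ) ^ Nat.log p n) ^ (2 * h + b) := by
    rw [hLQ]
    refine padicNorm.sub.trans (max_le ?_ ?_)
    · apply padicNorm.sum_le' _ (by positivity)
      intro j hj
      rw [Finset.mem_Icc] at hj
      have hzero : ∀ x : ℚ, x = 0 → padicNorm p x ≤ ((p : ℚ) ^ Nat.log p n) ^ (2 * h + b) := by
        intro x hx
        rw [hx, padicNorm.zero]
        positivity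
      apply padicNorm.sum_le' _ (by positivity)
      intro l _
      rcases Nat.even_or_odd j with hj2 | hj2
      · apply hzero
        rw [hKl, rho_even hn1 _ hj2 hj.1]
        ring
      · have hodd : Odd ((j + b) + b) := by
          rw [Nat.add_assoc]
          exact hj2.add_even (Even.add_self b)
        rcases hz (j + b) hodd (by omega) (by omega) with h3 | ⟨y, h3⟩
        · apply hzero
          rw [h3 l]
          push_cast
          ring
        · rw [h3, padicNorm.mul, padicNorm.mul, padicNorm.mul, padicNorm.mul]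
          have a1 := pn_Cb (p := p) b j
          have a2 := rho_bound (p := p) hj.2 (hPl l)
          have a3 := padicNorm.of_int (p := p) (WW B (w l) (j + b))
          have a3' := padicNorm.of_nat (p := p) (f ^ (j + b))
          have a4 := padicNorm.of_int (p := p) y
          have a5 : ((p : ℚ) ^ Nat.log p n) ^ (2 * h) ≤ ((p : ℚ) ^ Nat.log p n) ^ (2 * h + b) :=
            pow_le_pow_right₀ hρ (by omega)
          have a6 : padicNorm p (((f ^ (j + b) : ℕ) : ℚ)) *
              padicNorm p ((WW B (w l) (j + b) : ℤ) : ℚ) ≤ 1 := by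
            calc _ ≤ (1 : ℚ) * 1 := mul_le_mul a3' a3 (padicNorm.nonneg _) zero_le_one
              _ = 1 := one_mul _
          calc _ ≤ 1 * ((p : ℚ) ^ Nat.log p n) ^ (2 * h) * 1 * 1 := by
                refine mul_le_mul (mul_le_mul (mul_le_mul a1 a2 (padicNorm.nonneg _) zero_le_one) a6
                  (mul_nonneg (padicNorm.nonneg _) (padicNorm.nonneg _)) (by positivity)) a4
                  (padicNorm.nonneg _) (by positivity)
            _ ≤ _ := by rw [one_mul, mul_one, mul_one]; exact a5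
    · rw [padicNorm.mul, padicNorm.mul]
      have a1 := padicNorm.of_nat (p := p) q
      have a0 : padicNorm p ((-1 : ℚ) ^ b) ≤ 1 := by
        have h7 := padicNorm.of_int (p := p) ((-1) ^ b)
        push_cast at h7
        exact h7
      have a2 : padicNorm p (∑ e ∈ Finset.Icc 1 (f * B), ∑ u ∈ (Finset.range (e * n)).filter
          (fun u => Nat.Coprime u e), ∑ k ∈ (sP n).filter (fun k => u < e * k),
            Gk n h b (KP n h (g * fea f B a w Q e u)) (-(u : ℚ) / e) k) ≤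
          ((p : ℚ) ^ Nat.log p n) ^ (2 * h + b) := by
        apply padicNorm.sum_le' _ (by positivity)
        intro e he
        rw [Finset.mem_Icc] at he
        apply padicNorm.sum_le' _ (by positivity)
        intro u hu
        rw [Finset.mem_filter, Finset.mem_range] at hu
        by_cases he1 : e = 1
        · subst he1
          have h7 : ∀ k, Gk n h b (KP n h (g * fea f B a w Q 1 u)) (-(u : ℚ) / (1 : ℕ)) k = 0 := by
            intro k
            rw [hKe, Gk_sum' n h b Finset.univ (fun l => ((Cz f B a (w l) 1 u : ℤ) : ℚ)) Kl]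
            refine Finset.sum_eq_zero fun l _ => ?_
            have h8 : Cz f B a (w l) 1 u = 0 := by
              unfold Cz
              have h9 : (Finset.Icc 1 B).filter (fun d => 1 ∣ f * d) = Finset.Icc 1 B :=
                Finset.filter_true_of_mem fun d _ => one_dvd _
              rw [h9]
              have h10 : ∀ d ∈ Finset.Icc 1 B, w l d * a (u * (f * d / 1)) = w l d * a 0 := by
                intro d _
                have h11 : u * (f * d / 1) = 0 + f * (u * d) := by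
                  rw [Nat.div_one]
                  ring
                rw [h11, a_add hpar]
              rw [Finset.sum_congr rfl h10, ← Finset.sum_mul, hw l, zero_mul]
            rw [h8]
            push_cast
            ring
          rw [Finset.sum_eq_zero fun k _ => h7 k, padicNorm.zero]
          positivity
        · have he2 : 2 ≤ e := by omega
          refine part_boundg he2 hu.2 (hdegE e u) (hPe e u) ?_
          apply RS_zero
          rw [mul_comm g]
          exact KP_dvd (hV' e he2 he.2 u hu.1 hu.2)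
      calc _ ≤ 1 * (1 * ((p : ℚ) ^ Nat.log p n) ^ (2 * h + b)) :=
            mul_le_mul a1 (mul_le_mul a0 a2 (padicNorm.nonneg _) zero_le_one)
              (mul_nonneg (padicNorm.nonneg _) (padicNorm.nonneg _)) zero_le_one
        _ = _ := by rw [one_mul, one_mul]
  have h9 : (q : ℚ) * (Dl n 1 : ℚ) ^ (2 * h + b) * LQa a z n h b f B (fun d => g * Pv w Q d) =
      (Dl n 1 : ℚ) ^ (2 * h + b) * ((q : ℚ) * LQa a z n h b f B (fun d => g * Pv w Q d)) := by ring
  rw [h9, padicNorm.mul, pn_pow]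
  have h7 : (padicNorm p (Dl n 1 : ℚ)) ^ (2 * h + b) ≤ (((p : ℚ) ^ Nat.log p n)⁻¹) ^ (2 * h + b) :=
    pow_le_pow_left₀ (padicNorm.nonneg _) hD _
  calc _ ≤ (((p : ℚ) ^ Nat.log p n)⁻¹) ^ (2 * h + b) * ((p : ℚ) ^ Nat.log p n) ^ (2 * h + b) :=
        mul_le_mul h7 h6 (padicNorm.nonneg _) (by positivity)
    _ = 1 := by rw [← mul_pow, inv_mul_cancel₀ hρ0.ne', one_pow]

end

end Pool.Agent.Y627.TP
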