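import Pool.Agent.Y627.TP.Stm
import Pool.Agent.Y926.TW.J_NOD

/-! # TP-NODa: the nodes `u/e - ν` (periodic version) -/

set_option autoImplicit false

open Polynomial Pool.Agent.H337R2 Pool.Agent.W165.OZ Pool.Agent.Y926.LZ Pool.Agent.Y926.TW

namespace Pool.Agent.Y627.TP

noncomputable section

/-- NODa: the nodes -/
theorem t_noda : S_NODa := by
  classical
  intro S ν L m hS hmL
  set T : Finset ((Σ _ : ℕ, ℕ) × ℕ) := S ×ˢ Finset.range (2 * L - m) with hT
  let f : ((Σ _ : ℕ, ℕ) × ℕ) → ℚ := fun p =>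
    ((p.1.2 + p.1.1 * p.2 : ℕ) : ℚ) / p.1.1 - ((L : ℚ) - m) - ν
  have hf : ∀ e u t : ℕ, f (⟨e, u⟩, t) = ((u + e * t : ℕ) : ℚ) / e - ((L : ℚ) - m) - ν :=
    fun e u t => rfl
  have hmem : ∀ e u t : ℕ, ((⟨e, u⟩, t) : (Σ _ : ℕ, ℕ) × ℕ) ∈ T →
      (⟨e, u⟩ : Σ _ : ℕ, ℕ) ∈ S ∧ t < 2 * L - m := by
    intro e u t hp
    simpa only [hT, Finset.mem_product, Finset.mem_range] using hp
  have hcop : ∀ e u t : ℕ, Nat.Coprime u e → Nat.Coprime (u + e * t) e := by
    intro e u t h
    rw [Nat.coprime_add_mul_left_left]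
    exact h
  refine ⟨T.image f, ?_, ?_⟩
  · rw [Finset.card_image_of_injOn, hT, Finset.card_product, Finset.card_range]
    rintro ⟨⟨e, u⟩, t⟩ hp ⟨⟨e', u'⟩, t'⟩ hp' h
    obtain ⟨h1, -⟩ := hmem _ _ _ hp
    obtain ⟨h1', -⟩ := hmem _ _ _ hp'
    obtain ⟨he, hu, hc⟩ := hS _ h1
    obtain ⟨he', hu', hc'⟩ := hS _ h1'
    simp only at he hu hc he' hu' hc'
    have h4 : ((u + e * t : ℕ) : ℚ) / e = ((u' + e' * t' : ℕ) : ℚ) / e' := by
      rw [hf, hf] at h
      linarith
    obtain ⟨h5, rfl⟩ := Pool.Agent.Y926.TW.JNOD.inj (by omega) (by omega)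
      (hcop e u t hc) (hcop e' u' t' hc') h4
    have h6 : u = u' := by
      have h7 := congrArg (· % e) h5
      simp only [Nat.add_mul_mod_self_left] at h7
      rwa [Nat.mod_eq_of_lt hu, Nat.mod_eq_of_lt hu'] at h7
    subst h6
    have h8 : t = t' := by
      have h9 : e * t = e * t' := by omega
      exact Nat.eq_of_mul_eq_mul_left (by omega) h9
    subst h8
    rfl
  · intro x hx
    obtain ⟨⟨⟨e, u⟩, t⟩, hp, rfl⟩ := Finset.mem_image.1 hx
    obtain ⟨h1, h2⟩ := hmem _ _ _ hp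
    obtain ⟨he, hu, hc⟩ := hS _ h1
    simp only at he hu hc
    have he0 : (e : ℚ) ≠ 0 := by exact_mod_cast (by omega : e ≠ 0)
    have h3 : Nat.Coprime (u + e * t) e := hcop e u t hc
    rw [hf]
    refine ⟨?_, ⟨e, u⟩, h1, ((u + e * t : ℕ) : ℤ) - e * ((L : ℤ) - m), ?_, ?_, ?_, ?_, ?_⟩
    · intro k hk
      have h5 : ((u + e * t : ℕ) : ℚ) / e = ((k + ((L : ℤ) - m) + ν : ℤ) : ℚ) := by
        push_cast
        push_cast at hk
        linarith
      rw [div_eq_iff he0] at h5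
      have h6 : ((u + e * t : ℕ) : ℤ) = (k + ((L : ℤ) - m) + ν) * e := by exact_mod_cast h5
      have h7 : e ∣ u + e * t := Int.natCast_dvd_natCast.1 ⟨_, by rw [h6, mul_comm]⟩
      have h8 := Nat.Coprime.eq_one_of_dvd h3.symm h7
      omega
    · have h5 : IsCoprime ((u + e * t : ℕ) : ℤ) (e : ℤ) := Nat.isCoprime_iff_coprime.2 h3
      have h6 := h5.add_mul_left_left (-((L : ℤ) - m))
      have e1 : ((u + e * t : ℕ) : ℤ) - e * ((L : ℤ) - m) =
          ((u + e * t : ℕ) : ℤ) + e * (-((L : ℤ) - m)) := by ring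
      rw [e1]
      exact h6
    · refine ⟨(t : ℤ) - ((L : ℤ) - m), ?_⟩
      push_cast
      ring
    · have ha : 0 < u := by
        rcases Nat.eq_zero_or_pos u with h | h
        · rw [h, Nat.coprime_zero_left] at hc
          omega
        · exact h
      have ha' : (0 : ℤ) < ((u + e * t : ℕ) : ℤ) := by
        have : 0 < u + e * t := by omega
        exact_mod_cast this
      simp only
      linarith
    · have h4 : u + e * t < e * (2 * L - m) := by
        calc u + e * t < e + e * t := by omega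
          _ = e * (t + 1) := by ring
          _ ≤ e * (2 * L - m) := Nat.mul_le_mul_left _ h2
      have h4' : ((e * (2 * L - m) : ℕ) : ℤ) = (e : ℤ) * (2 * L - m) := by
        rw [Nat.cast_mul, Nat.cast_sub (by omega)]
        push_cast
        ring
      have h5 : ((u + e * t : ℕ) : ℤ) < e * (2 * L - m) := by
        rw [← h4']
        exact_mod_cast h4
      simp only
      linarith
    · simp only
      push_cast
      rw [sub_div, mul_div_cancel_left₀ _ he0]

end

end Pool.Agent.Y627.TP
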