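import Pool.Agent.Y627.TP.Stm

/-!
# The recursion of the germs, for periodic sequences
-/

open Polynomial Pool.Agent.H337R2 Pool.Agent.W165.OZ Pool.Agent.Y926.LZ Pool.Agent.Y926.TW

namespace Pool.Agent.Y627.TP

noncomputable section

namespace RECA

/-- the truncated expansion of `1 / (a - X)^(b+1)` -/
def Sg (h b : ℕ) (a : ℚ) : PowerSeries ℚ :=
  ∑ i ∈ Finset.Icc 1 (2 * h), PowerSeries.C (Cb b i / a ^ (i + b)) * PowerSeries.X ^ (i - 1)

lemma coeff_Sg (h b : ℕ) (a : ℚ) {m : ℕ} (hm : m < 2 * h) :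
    PowerSeries.coeff m (Sg h b a) = Cb b (m + 1) / a ^ (m + 1 + b) := by
  unfold Sg
  rw [map_sum, Finset.sum_eq_single (m + 1)]
  · rw [PowerSeries.coeff_C_mul, PowerSeries.coeff_X_pow, if_pos (by omega), mul_one]
  · intro i hi hne
    rw [Finset.mem_Icc] at hi
    rw [PowerSeries.coeff_C_mul, PowerSeries.coeff_X_pow, if_neg (by omega), mul_zero]
  · intro hn
    exact absurd (Finset.mem_Icc.2 ⟨by omega, by omega⟩) hn

lemma Sg_sub (h b : ℕ) {a : ℚ} (ha : a ≠ 0) :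
    (PowerSeries.X : PowerSeries ℚ) ^ (2 * h) ∣
      Sg h b a - PowerSeries.C ((-1 : ℚ) ^ (b + 1)) * iv (-a) ^ (b + 1) := by
  rw [PowerSeries.X_pow_dvd_iff]
  intro m hm
  rw [map_sub, PowerSeries.coeff_C_mul, coeff_Sg h b a hm, coeff_iv_pow (neg_ne_zero.2 ha)]
  have h1 : (-1 : ℚ) ^ (b + 1) * ((-1 : ℚ) ^ m * (Nat.choose (b + m) b : ℚ) / (-a) ^ (b + 1 + m)) =
      ((Nat.choose (b + m) b : ℚ) / a ^ (b + 1 + m)) := by
    have h3 : (-1 : ℚ) ^ (b + 1 + m) ≠ 0 := pow_ne_zero _ (by norm_num)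
    rw [neg_pow a (b + 1 + m), ← mul_div_assoc, ← mul_assoc, ← pow_add, mul_div_mul_left _ _ h3]
  have h2 : Cb b (m + 1) = (Nat.choose (b + m) b : ℚ) := by
    unfold Cb
    rw [Nat.add_sub_cancel, add_comm b m, Nat.choose_symm_add]
  rw [h1, h2, show m + 1 + b = b + 1 + m by ring, sub_self]

lemma sum_Icc_one {A : Type*} [AddCommMonoid A] (F : ℕ → A) (d : ℕ) :
    ∑ v ∈ Finset.Icc 1 d, F v = ∑ l ∈ Finset.range d, F (l + 1) := by
  induction d with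
  | zero => simp
  | succ d ih => rw [Finset.sum_Icc_succ_top (by omega), ih, Finset.sum_range_succ]

lemma per_mul {f : ℕ} {a : ℕ → ℤ} (hp : ∀ u, a (u + f) = a u) (u m : ℕ) : a (u + f * m) = a u := by
  induction m with
  | zero => rw [mul_zero, add_zero]
  | succ m ih => rw [Nat.mul_succ, ← add_assoc, hp, ih]

lemma hsa_sub {f : ℕ} {a : ℕ → ℤ} (hp : ∀ u, a (u + f) = a u) (e d k : ℕ) :
    hsa a e (f * d * (k + 1)) - hsa a e (f * d * k) =
    ∑ v ∈ Finset.Icc 1 (f * d), (a v : ℚ) / (((f * d : ℕ) : ℚ) * k + v) ^ e := by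
  unfold hsa
  rw [Nat.mul_succ, Finset.sum_range_add, add_sub_cancel_left, sum_Icc_one]
  refine Finset.sum_congr rfl fun l _ => ?_
  have h1 : a (f * d * k + l + 1) = a (l + 1) := by
    rw [show f * d * k + l + 1 = (l + 1) + f * (d * k) by ring, per_mul hp]
  rw [h1]
  push_cast
  rw [add_assoc]

/-- the shifted node -/
def nd (d k v : ℕ) : ℚ := (k : ℚ) + (v : ℚ) / d

lemma nd_pos {d v : ℕ} (k : ℕ) (hd : 1 ≤ d) (hv : 1 ≤ v) : 0 < nd d k v := by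
  unfold nd
  have h1 : (0 : ℚ) < d := by exact_mod_cast hd
  have h2 : (0 : ℚ) < v := by exact_mod_cast hv
  positivity

lemma bta_sub {f : ℕ} {a : ℕ → ℤ} (hp : ∀ u, a (u + f) = a u) (z : ℕ → ℚ) (h b d k : ℕ)
    (hd : 1 ≤ f * d) :
    bta a z h b f d (k + 1) - bta a z h b f d k =
      -∑ v ∈ Finset.Icc 1 (f * d), PowerSeries.C (a v : ℚ) * Sg h b (nd (f * d) k v) := by
  have hd0 : ((f * d : ℕ) : ℚ) ≠ 0 := by
    have : (0 : ℚ) < ((f * d : ℕ) : ℚ) := by exact_mod_cast hd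
    exact this.ne'
  unfold bta Sg
  rw [← Finset.sum_sub_distrib, ← Finset.sum_neg_distrib]
  simp_rw [Finset.mul_sum]
  simp_rw [← Finset.sum_neg_distrib]
  rw [Finset.sum_comm]
  refine Finset.sum_congr rfl fun i _ => ?_
  rw [← sub_mul, ← map_sub, Finset.sum_neg_distrib]
  have h1 := hsa_sub hp (i + b) d k
  have h2 : Cb b i * ((f * d : ℕ) : ℚ) ^ (i + b) * (z (i + b) - hsa a (i + b) (f * d * (k + 1))) -
      Cb b i * ((f * d : ℕ) : ℚ) ^ (i + b) * (z (i + b) - hsa a (i + b) (f * d * k)) =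
      -(Cb b i * (((f * d : ℕ) : ℚ) ^ (i + b) *
        (hsa a (i + b) (f * d * (k + 1)) - hsa a (i + b) (f * d * k)))) := by ring
  rw [h2, h1, Finset.mul_sum, Finset.mul_sum, map_neg, neg_mul, map_sum, Finset.sum_mul]
  congr 1
  refine Finset.sum_congr rfl fun v _ => ?_
  have h3 : ((f * d : ℕ) : ℚ) * k + v = ((f * d : ℕ) : ℚ) * nd (f * d) k v := by
    unfold nd
    field_simp
  have h4 : Cb b i * (((f * d : ℕ) : ℚ) ^ (i + b) * ((a v : ℚ) /
      (((f * d : ℕ) : ℚ) * k + v) ^ (i + b))) = (a v : ℚ) * (Cb b i / nd (f * d) k v ^ (i + b)) := by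
    rw [h3, mul_pow, ← mul_div_assoc, mul_div_mul_left _ _ (pow_ne_zero _ hd0)]
    ring
  rw [h4, map_mul, mul_assoc]

/-- the difference of the germs modulo `X^(2h)` -/
lemma bta_rec {f : ℕ} {a : ℕ → ℤ} (hp : ∀ u, a (u + f) = a u) (z : ℕ → ℚ) (h b d k : ℕ)
    (hd : 1 ≤ f * d) :
    (PowerSeries.X : PowerSeries ℚ) ^ (2 * h) ∣
      bta a z h b f d (k + 1) - bta a z h b f d k - ∑ v ∈ Finset.Icc 1 (f * d),
        PowerSeries.C (a v : ℚ) * (PowerSeries.C ((-1 : ℚ) ^ b) * iv (-nd (f * d) k v) ^ (b + 1)) := by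
  have h1 : bta a z h b f d (k + 1) - bta a z h b f d k - ∑ v ∈ Finset.Icc 1 (f * d),
        PowerSeries.C (a v : ℚ) * (PowerSeries.C ((-1 : ℚ) ^ b) * iv (-nd (f * d) k v) ^ (b + 1)) =
      -∑ v ∈ Finset.Icc 1 (f * d), PowerSeries.C (a v : ℚ) * (Sg h b (nd (f * d) k v) -
        PowerSeries.C ((-1 : ℚ) ^ (b + 1)) * iv (-nd (f * d) k v) ^ (b + 1)) := by
    rw [bta_sub hp z h b d k hd, ← Finset.sum_neg_distrib, ← Finset.sum_neg_distrib,
      ← Finset.sum_sub_distrib]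
    refine Finset.sum_congr rfl fun v _ => ?_
    rw [pow_succ (-1 : ℚ) b, map_mul, map_neg, map_one]
    ring
  rw [h1, dvd_neg]
  refine Finset.dvd_sum fun v hv => ?_
  exact Dvd.dvd.mul_left (Sg_sub h b (nd_pos k hd (Finset.mem_Icc.1 hv).1).ne') _

lemma rescale_dvd {m : ℕ} {f : PowerSeries ℚ} (hf : (PowerSeries.X : PowerSeries ℚ) ^ m ∣ f) :
    (PowerSeries.X : PowerSeries ℚ) ^ m ∣ PowerSeries.rescale (-1 : ℚ) f := by
  rw [PowerSeries.X_pow_dvd_iff] at hf ⊢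
  intro j hj
  rw [PowerSeries.coeff_rescale, hf j hj, mul_zero]

lemma rescale_C (x : ℚ) : PowerSeries.rescale (-1 : ℚ) (PowerSeries.C x) = PowerSeries.C x := by
  ext j
  rw [PowerSeries.coeff_rescale, PowerSeries.coeff_C]
  split_ifs with h
  · rw [h, pow_zero, one_mul]
  · rw [mul_zero]

lemma rescale_iv (b : ℕ) (a : ℚ) :
    PowerSeries.rescale (-1 : ℚ) (PowerSeries.C ((-1 : ℚ) ^ b) * iv (-a) ^ (b + 1)) =
      -iv a ^ (b + 1) := by
  have h1 : PowerSeries.rescale (-1 : ℚ) (iv (-a)) = -iv a := by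
    have h2 := iv_neg (-a)
    rw [neg_neg] at h2
    rw [h2, neg_neg]
  rw [map_mul, rescale_C, map_pow (PowerSeries.rescale (-1 : ℚ)), h1, map_pow PowerSeries.C,
    map_neg, map_one, neg_pow (iv a), ← mul_assoc,
    ← pow_add, show b + (b + 1) = 2 * b + 1 by ring, pow_succ, pow_mul]
  norm_num

lemma bsa_rec {f : ℕ} {a : ℕ → ℤ} (hp : ∀ u, a (u + f) = a u) (z : ℕ → ℚ) (n h b d k : ℕ)
    (hd : 1 ≤ f * d) (hk : k + 1 < n) :
    (PowerSeries.X : PowerSeries ℚ) ^ (2 * h) ∣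
      bsa a z n h b f d (k + 1) - bsa a z n h b f d k - ∑ v ∈ Finset.Icc 1 (f * d),
        PowerSeries.C (a v : ℚ) * (PowerSeries.C ((-1 : ℚ) ^ b) * iv (-nd (f * d) k v) ^ (b + 1) +
          iv (nd (f * d) (n - 2 - k) v) ^ (b + 1)) := by
  have e1 : n - 1 - (k + 1) = n - 2 - k := by omega
  have e2 : n - 1 - k = n - 2 - k + 1 := by omega
  have h1 : bsa a z n h b f d (k + 1) - bsa a z n h b f d k - ∑ v ∈ Finset.Icc 1 (f * d),
        PowerSeries.C (a v : ℚ) * (PowerSeries.C ((-1 : ℚ) ^ b) * iv (-nd (f * d) k v) ^ (b + 1) +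
          iv (nd (f * d) (n - 2 - k) v) ^ (b + 1)) =
      (bta a z h b f d (k + 1) - bta a z h b f d k - ∑ v ∈ Finset.Icc 1 (f * d),
        PowerSeries.C (a v : ℚ) * (PowerSeries.C ((-1 : ℚ) ^ b) * iv (-nd (f * d) k v) ^ (b + 1))) -
      PowerSeries.rescale (-1 : ℚ) (bta a z h b f d (n - 2 - k + 1) - bta a z h b f d (n - 2 - k) -
        ∑ v ∈ Finset.Icc 1 (f * d), PowerSeries.C (a v : ℚ) *
          (PowerSeries.C ((-1 : ℚ) ^ b) * iv (-nd (f * d) (n - 2 - k) v) ^ (b + 1))) := by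
    have h2 : PowerSeries.rescale (-1 : ℚ) (∑ v ∈ Finset.Icc 1 (f * d), PowerSeries.C (a v : ℚ) *
          (PowerSeries.C ((-1 : ℚ) ^ b) * iv (-nd (f * d) (n - 2 - k) v) ^ (b + 1))) =
        -∑ v ∈ Finset.Icc 1 (f * d), PowerSeries.C (a v : ℚ) *
          iv (nd (f * d) (n - 2 - k) v) ^ (b + 1) := by
      rw [map_sum, ← Finset.sum_neg_distrib]
      refine Finset.sum_congr rfl fun v _ => ?_
      rw [map_mul, rescale_C, rescale_iv, mul_neg]
    have h3 : ∑ v ∈ Finset.Icc 1 (f * d),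
        PowerSeries.C (a v : ℚ) * (PowerSeries.C ((-1 : ℚ) ^ b) * iv (-nd (f * d) k v) ^ (b + 1) +
          iv (nd (f * d) (n - 2 - k) v) ^ (b + 1)) =
        ∑ v ∈ Finset.Icc 1 (f * d),
        PowerSeries.C (a v : ℚ) * (PowerSeries.C ((-1 : ℚ) ^ b) * iv (-nd (f * d) k v) ^ (b + 1)) +
        ∑ v ∈ Finset.Icc 1 (f * d), PowerSeries.C (a v : ℚ) *
          iv (nd (f * d) (n - 2 - k) v) ^ (b + 1) := by
      rw [← Finset.sum_add_distrib]
      exact Finset.sum_congr rfl fun v _ => mul_add _ _ _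
    unfold bsa
    rw [e1, e2, map_sub, map_sub, h2, h3]
    ring
  rw [h1]
  exact dvd_sub (bta_rec hp z h b d k hd) (rescale_dvd (bta_rec hp z h b d (n - 2 - k) hd))

lemma TS_Pf1 (b d k v : ℕ) : TS (-(k : ℚ)) (Pf1 b d v) =
    (PowerSeries.X + PowerSeries.C (-nd d k v)) ^ (b + 1) := by
  unfold Pf1 nd
  rw [map_pow, sub_eq_add_neg, ← C_neg, TS_lin, neg_add]

lemma TS_Pf2 (n b d k v : ℕ) (hk : k + 1 < n) : TS (-(k : ℚ)) (Pf2 n b d v) =
    (PowerSeries.X + PowerSeries.C (nd d (n - 2 - k) v)) ^ (b + 1) := by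
  unfold Pf2 nd
  rw [map_pow, TS_lin, Nat.sub_sub, Nat.cast_sub (by omega)]
  congr 3
  push_cast
  ring

end RECA

open RECA in
theorem t_reca : S_RECa := by
  intro a z n h b f B d k ha hh hd hdB hk
  have hfd : 1 ≤ f * d := Nat.mul_pos ha.pos hd
  have h1 := bsa_rec ha.per z n h b d k hfd hk
  have h2 : TS (-(k : ℚ)) (Pi1a n b f B) * ∑ v ∈ Finset.Icc 1 (f * d),
        PowerSeries.C (a v : ℚ) * (PowerSeries.C ((-1 : ℚ) ^ b) * iv (-nd (f * d) k v) ^ (b + 1) +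
          iv (nd (f * d) (n - 2 - k) v) ^ (b + 1)) =
      TS (-(k : ℚ)) (etaa n b f B a d) := by
    unfold etaa
    rw [map_sum, Finset.mul_sum]
    refine Finset.sum_congr rfl fun v hv => ?_
    obtain ⟨hv1, hv2⟩ := Finset.mem_Icc.1 hv
    have hmem : (⟨d, v⟩ : Σ _ : ℕ, ℕ) ∈ Dva f B := by
      unfold Dva
      rw [Finset.mem_sigma, Finset.mem_Icc, Finset.mem_Icc]
      exact ⟨⟨hd, hdB⟩, hv1, hv2⟩
    have h3 : Pi1a n b f B = Pf1 b (f * d) v * Pf2 n b (f * d) v *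
        ∏ q ∈ (Dva f B).erase ⟨d, v⟩, (Pf1 b (f * q.1) q.2 * Pf2 n b (f * q.1) q.2) := by
      unfold Pi1a
      rw [← Finset.mul_prod_erase (Dva f B) _ hmem]
    have h4 : (PowerSeries.X + PowerSeries.C (-nd (f * d) k v)) ^ (b + 1) *
        iv (-nd (f * d) k v) ^ (b + 1) = 1 := by
      rw [← mul_pow, lin_mul_iv (neg_ne_zero.2 (nd_pos k hfd hv1).ne'), one_pow]
    have h5 : (PowerSeries.X + PowerSeries.C (nd (f * d) (n - 2 - k) v)) ^ (b + 1) *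
        iv (nd (f * d) (n - 2 - k) v) ^ (b + 1) = 1 := by
      rw [← mul_pow, lin_mul_iv (nd_pos (n - 2 - k) hfd hv1).ne', one_pow]
    have h6 : TS (-(k : ℚ)) ((-1 : ℚ[X]) ^ b) = PowerSeries.C ((-1 : ℚ) ^ b) := by
      rw [map_pow, map_neg, map_one, map_pow, map_neg, map_one]
    rw [h3, map_mul, map_mul, map_mul, map_mul, map_add, map_mul, h6, TS_C, TS_Pf1,
      TS_Pf2 n b (f * d) k v hk]
    linear_combination
      ((TS (-(k : ℚ)) (∏ q ∈ (Dva f B).erase ⟨d, v⟩,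
          (Pf1 b (f * q.1) q.2 * Pf2 n b (f * q.1) q.2))) * PowerSeries.C (a v : ℚ) *
        PowerSeries.C ((-1 : ℚ) ^ b) *
        (PowerSeries.X + PowerSeries.C (nd (f * d) (n - 2 - k) v)) ^ (b + 1)) * h4 +
      ((TS (-(k : ℚ)) (∏ q ∈ (Dva f B).erase ⟨d, v⟩,
          (Pf1 b (f * q.1) q.2 * Pf2 n b (f * q.1) q.2))) * PowerSeries.C (a v : ℚ) *
        (PowerSeries.X + PowerSeries.C (-nd (f * d) k v)) ^ (b + 1)) * h5
  rw [← h2, ← mul_sub]
  exact Dvd.dvd.mul_left h1 _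

end

end Pool.Agent.Y627.TP
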