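import Pool.Agent.Y627.TP.Stm
import Pool.Agent.Y926.TW.J_SIE

/-!
# SIEa: application of Siegel's lemma, for periodic coefficients
-/

open Polynomial Pool.Agent.H337R2 Pool.Agent.W165.OZ Pool.Agent.Y926.LZ Pool.Agent.Y926.TW

namespace Pool.Agent.Y627.TP

noncomputable section

namespace JSIEa

/-- the integral weight -/
def Zca (f B : ℕ) (a : ℕ → ℤ) (w : ℕ → ℤ) (e u : ℕ) : ℤ :=
  ∑ d ∈ (Finset.Icc 1 B).filter (fun d => e ∣ f * d), w d * a (u * (f * d / e))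

theorem Ca_eq (f B : ℕ) (a : ℕ → ℤ) (w : ℕ → ℤ) (e u : ℕ) :
    Ca f B a (fun d => (w d : ℚ)) e u = (Zca f B a w e u : ℚ) := by
  unfold Ca Zca
  push_cast
  rfl

theorem per_mul {f : ℕ} {a : ℕ → ℤ} (h : ∀ u, a (u + f) = a u) (u k : ℕ) :
    a (u + f * k) = a u := by
  induction k with
  | zero => rw [mul_zero, add_zero]
  | succ k ih => rw [mul_add, mul_one, ← add_assoc, h, ih]

/-- the coefficient depends only on the class modulo `1` -/
theorem Ca_per {f B : ℕ} {a : ℕ → ℤ} (h : ∀ u, a (u + f) = a u) (c : ℕ → ℚ) (e u t : ℕ) :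
    Ca f B a c e (u + e * t) = Ca f B a c e u := by
  unfold Ca
  refine Finset.sum_congr rfl fun d hd => ?_
  have hed : e ∣ f * d := (Finset.mem_filter.1 hd).2
  have h1 : (u + e * t) * (f * d / e) = u * (f * d / e) + f * (d * t) := by
    have h2 : e * (f * d / e) = f * d := Nat.mul_div_cancel' hed
    calc (u + e * t) * (f * d / e) = u * (f * d / e) + (e * (f * d / e)) * t := by ring
      _ = _ := by rw [h2]; ring
  rw [h1, per_mul h]

end JSIEa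

open Pool.Agent.Y926.TW.JSIE JSIEa in
/-- SIEa: Siegel's lemma -/
theorem t_siea (hC : S_COE) : S_SIEa := by
  classical
  intro f b B m ν r D W μ H a w hP hB hμ hW hr hν hw hE hH
  obtain ⟨n, hn⟩ : ∃ n, n = 2 * ν + 1 := ⟨_, rfl⟩
  obtain ⟨L, hL⟩ : ∃ L, L = r * n + ν := ⟨_, rfl⟩
  rw [← hn] at hE hH ⊢
  rw [← hL] at hE hH ⊢
  obtain ⟨S, hS⟩ : ∃ S, S = sua f B a (fun l d => (w l d : ℚ)) := ⟨_, rfl⟩
  have hS1 : ∀ e u, (⟨e, u⟩ : Σ _ : ℕ, ℕ) ∈ S ↔
      ((2 ≤ e ∧ e ≤ f * B) ∧ u < e ∧ Nat.Coprime u e) ∧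
        ∃ l, Ca f B a (fun d => (w l d : ℚ)) e u ≠ 0 := by
    intro e u
    rw [hS]
    unfold sua
    rw [Finset.mem_filter, Finset.mem_sigma, Finset.mem_filter, Finset.mem_Icc, Finset.mem_range]
  have hScard : Fintype.card S = NNa f B a (fun l d => (w l d : ℚ)) := by
    rw [Fintype.card_coe, hS]
    rfl
  have hf : 1 ≤ f := hP.pos
  have hfB : 1 ≤ f * B := Nat.mul_pos hf hB
  have hent : ∀ (p : S × Fin L) (j : Fin (b + 1)) (i : Fin D), ∃ M : ℤ,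
      (p.1.1.1 : ℚ) ^ (4 * D) * (Dl n 1 : ℚ) ^ b *
      PowerSeries.coeff (j : ℕ) (TS (((p.1.1.2 + p.1.1.1 * (p.2 : ℕ) : ℕ) : ℚ) / p.1.1.1 - ν)
        ((Gb n i).comp (yp n))) = M := by
    rintro ⟨⟨⟨e, u⟩, hp⟩, t⟩ j i
    obtain ⟨⟨h1, h2, h3⟩, h4⟩ := (hS1 e u).1 hp
    have he0 : (e : ℚ) ≠ 0 := by exact_mod_cast (by omega : e ≠ 0)
    refine hC n b e D i j _ (by omega) (by omega) ⟨((u + e * (t : ℕ) : ℕ) : ℤ) - ν * e, ?_⟩
      i.2.le (by omega)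
    push_cast
    rw [sub_div, mul_div_cancel_right₀ _ he0]
  choose M hM using hent
  let A : (S × Fin L) × Fin (b + 1) → Fin m × Fin D → ℤ := fun x q =>
    Zca f B a (w q.1) x.1.1.1.1 (x.1.1.1.2 + x.1.1.1.1 * (x.1.2 : ℕ)) * M x.1 x.2 q.2
  have hDl : 0 < Dl n 1 := Pool.Agent.W165.OZ.PRaux.Dl_pos n 1
  have hY : 1 ≤ W * (f * B) ^ (4 * D) * Dl n 1 ^ b * (54 * r ^ 2) ^ (D + n) :=
    Nat.mul_pos (Nat.mul_pos (Nat.mul_pos (by omega) (Nat.pow_pos (by omega)))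
      (Nat.pow_pos hDl)) (Nat.pow_pos (Nat.mul_pos (by norm_num) (Nat.pow_pos (by omega))))
  have hcα : Fintype.card ((S × Fin L) × Fin (b + 1)) =
      (b + 1) * (NNa f B a (fun l d => (w l d : ℚ)) * L) := by
    rw [Fintype.card_prod, Fintype.card_prod, hScard, Fintype.card_fin, Fintype.card_fin, mul_comm]
  have hcβ : Fintype.card (Fin m × Fin D) = m * D := by
    rw [Fintype.card_prod, Fintype.card_fin, Fintype.card_fin]
  have hlt : ∀ e u t : ℕ, u < e → t < L → u + e * t < e * L := by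
    intro e u t h1 h2
    calc u + e * t < e + e * t := by omega
      _ = e * (t + 1) := by ring
      _ ≤ e * L := Nat.mul_le_mul_left _ (by omega)
  obtain ⟨t, ht0, hAt, htH⟩ := siegel A
    (W * (f * B) ^ (4 * D) * Dl n 1 ^ b * (54 * r ^ 2) ^ (D + n)) μ H
    hY (by
      rintro ⟨⟨⟨⟨e, u⟩, hp⟩, s⟩, j⟩ ⟨l, i⟩
      obtain ⟨⟨h1, h2, h3⟩, h4⟩ := (hS1 e u).1 hp
      have h4 : |M (⟨⟨e, u⟩, hp⟩, s) j i| ≤
          (((f * B) ^ (4 * D) * Dl n 1 ^ b * (54 * r ^ 2) ^ (D + n) : ℕ) : ℤ) := by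
        have h5 := hM (⟨⟨e, u⟩, hp⟩, s) j i
        simp only at h5
        rw [hn] at h5
        have h6 := ent_le (B := f * B) hr (by omega) h1.2
          (by rw [← hn, ← hL]; exact hlt e u s h2 s.2) i.2.le
          (by omega) h5
        rw [← hn] at h6
        exact h6
      have h5 := hw l e (u + e * (s : ℕ))
      show |Zca f B a (w l) e (u + e * (s : ℕ)) * M (⟨⟨e, u⟩, hp⟩, s) j i| ≤ _
      rw [abs_mul]
      calc |Zca f B a (w l) e (u + e * (s : ℕ))| * |M (⟨⟨e, u⟩, hp⟩, s) j i|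
          ≤ (W : ℤ) * (((f * B) ^ (4 * D) * Dl n 1 ^ b * (54 * r ^ 2) ^ (D + n) : ℕ) : ℤ) :=
            mul_le_mul h5 h4 (abs_nonneg _) (by positivity)
        _ = _ := by push_cast; ring) hμ (by rw [hcα, hcβ]; exact hE) (by
      rw [hcα, hcβ]
      exact hH)
  obtain ⟨c, hc⟩ : ∃ c : Fin m → ℕ → ℤ, ∀ l i, c l i = if h : i < D then t (l, ⟨i, h⟩) else 0 :=
    ⟨fun l i => if h : i < D then t (l, ⟨i, h⟩) else 0, fun l i => rfl⟩
  refine ⟨c, ?_, ?_, ?_⟩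
  · obtain ⟨⟨l, i⟩, hli⟩ : ∃ q, t q ≠ 0 := by
      by_contra hcon
      push Not at hcon
      exact ht0 (funext hcon)
    refine ⟨l, Qv_ne ⟨i, i.2, ?_⟩⟩
    rw [hc, dif_pos i.2]
    exact hli
  · intro l i
    rw [hc]
    split_ifs with h
    · exact htH _
    · rw [abs_zero]
      positivity
  · intro e he2 heB u hu hcop
    rw [← hn]
    obtain ⟨u0, s, hu0, hs, rfl⟩ : ∃ u0 s, u0 < e ∧ s < L ∧ u = u0 + e * s := by
      refine ⟨u % e, u / e, Nat.mod_lt _ (by omega), ?_, (Nat.mod_add_div u e).symm⟩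
      exact Nat.div_lt_of_lt_mul hu
    have hcop0 : Nat.Coprime u0 e := by simpa using hcop
    by_cases heS : (⟨e, u0⟩ : Σ _ : ℕ, ℕ) ∈ S
    · apply dvd_of_TS
      intro j hj
      have key := hAt ((⟨⟨e, u0⟩, heS⟩, ⟨s, hs⟩), ⟨j, by omega⟩)
      have hkey : (∑ q : Fin m × Fin D, ((Zca f B a (w q.1) e (u0 + e * s) : ℤ) : ℚ) *
          ((M (⟨⟨e, u0⟩, heS⟩, ⟨s, hs⟩) ⟨j, by omega⟩ q.2 : ℤ) : ℚ) * ((t q : ℤ) : ℚ)) = 0 := by
        exact_mod_cast key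
      rw [Fintype.sum_prod_type] at hkey
      have he0 : (e : ℚ) ≠ 0 := by exact_mod_cast (by omega : e ≠ 0)
      have hDl0 : (Dl n 1 : ℚ) ≠ 0 := by exact_mod_cast hDl.ne'
      have hK : (e : ℚ) ^ (4 * D) * (Dl n 1 : ℚ) ^ b ≠ 0 :=
        mul_ne_zero (pow_ne_zero _ he0) (pow_ne_zero _ hDl0)
      apply mul_left_cancel₀ hK
      rw [mul_zero, ← hkey]
      unfold fea
      rw [coeff_sum, Finset.mul_sum]
      refine Finset.sum_congr rfl fun l _ => ?_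
      rw [Ca_eq]
      unfold Qv
      rw [coeff_sum, Finset.sum_range, Finset.mul_sum, Finset.mul_sum]
      refine Finset.sum_congr rfl fun i _ => ?_
      rw [← hM (⟨⟨e, u0⟩, heS⟩, ⟨s, hs⟩) ⟨j, by omega⟩ i, hc, dif_pos i.2]
      simp only [Fin.eta]
      ring
    · have h0 : fea f B a w (fun l => Qv n D (c l)) e (u0 + e * s) = 0 := by
        unfold fea
        refine Finset.sum_eq_zero fun l _ => ?_
        have h1 : Ca f B a (fun d => (w l d : ℚ)) e (u0 + e * s) = 0 := by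
          rw [Ca_per hP.per]
          by_contra hne
          exact heS ((hS1 e u0).2 ⟨⟨⟨he2, heB⟩, hu0, hcop0⟩, l, hne⟩)
        rw [h1, map_zero, zero_mul]
      rw [h0, Polynomial.zero_comp]
      exact dvd_zero _

end

end Pool.Agent.Y627.TP
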