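import Pool.Agent.Y627.TP.Stm
import Pool.Agent.Y926.TW.J_SLP

/-!
# SLPa: a subspace of minimal slope, periodic version
-/

set_option autoImplicit false

open Polynomial Pool.Agent.H337R2 Pool.Agent.W165.OZ Pool.Agent.Y926.LZ Pool.Agent.Y926.TW

namespace Pool.Agent.Y627.TP

noncomputable section

namespace SLPa

open Pool.Agent.Y926.TW.SLP (sum_Icc Ev ker_dim clear)

/-- the functional `c ↦ ∑_{e ∣ f d} c_d a(u f d / e)` -/
def Lf (f B : ℕ) (a : ℕ → ℤ) (e u : ℕ) : (Fin B → ℚ) →ₗ[ℚ] ℚ where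
  toFun c := ∑ d : Fin B, if e ∣ f * (d.1 + 1) then c d * (a (u * (f * (d.1 + 1) / e)) : ℚ) else 0
  map_add' c c' := by
    rw [← Finset.sum_add_distrib]
    refine Finset.sum_congr rfl fun d _ => ?_
    split_ifs
    · rw [Pi.add_apply, add_mul]
    · rw [add_zero]
  map_smul' r c := by
    simp only [RingHom.id_apply, smul_eq_mul, Finset.mul_sum]
    refine Finset.sum_congr rfl fun d _ => ?_
    split_ifs
    · rw [Pi.smul_apply, smul_eq_mul, mul_assoc]
    · rw [mul_zero]

theorem Ca_eq (f B : ℕ) (a : ℕ → ℤ) (e u : ℕ) (c : ℕ → ℚ) :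
    Ca f B a c e u = Lf f B a e u (fun d : Fin B => c (d.1 + 1)) := by
  unfold Ca
  rw [Finset.sum_filter, sum_Icc]
  rfl

open Classical in
/-- the support of a subspace -/
def sup (f B : ℕ) (a : ℕ → ℤ) (V : Submodule ℚ (Fin B → ℚ)) : Finset (Σ _ : ℕ, ℕ) :=
  ((Finset.Icc 2 (f * B)).sigma fun e => (Finset.range e).filter (fun u => Nat.Coprime u e)).filter
    fun q => ∃ c ∈ V, Lf f B a q.1 q.2 c ≠ 0

/-- the weight of a subspace -/
def N (f B : ℕ) (a : ℕ → ℤ) (V : Submodule ℚ (Fin B → ℚ)) : ℕ := (sup f B a V).card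

theorem NN_eq (f B : ℕ) (a : ℕ → ℤ) {m : ℕ} (c : Fin m → ℕ → ℚ) :
    NNa f B a c =
      N f B a (Submodule.span ℚ (Set.range fun (l : Fin m) (d : Fin B) => c l (d.1 + 1))) := by
  unfold NNa N sua sup
  congr 1
  ext q
  simp only [Finset.mem_filter, Ca_eq]
  refine and_congr_right fun _ => ?_
  constructor
  · rintro ⟨l, hl⟩
    exact ⟨_, Submodule.subset_span ⟨l, rfl⟩, hl⟩
  · rintro ⟨x, hx, hx2⟩
    by_contra hcon
    push Not at hcon
    apply hx2
    have : Submodule.span ℚ (Set.range fun (l : Fin m) (d : Fin B) => c l (d.1 + 1)) ≤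
        LinearMap.ker (Lf f B a q.1 q.2) := by
      rw [Submodule.span_le]
      rintro _ ⟨l, rfl⟩
      exact hcon l
    exact this hx

theorem N_le (f B : ℕ) (a : ℕ → ℤ) (hf : 1 ≤ f) (V : Submodule ℚ (Fin B → ℚ)) :
    N f B a V ≤ f * B ^ 2 := by
  classical
  unfold N
  have hsub : sup f B a V ⊆ (Finset.Icc 1 B).biUnion fun d =>
      ((f * d).divisors.sigma fun e => (Finset.range e).filter (fun u => Nat.Coprime u e)) := by
    intro q hq
    unfold sup at hq
    rw [Finset.mem_filter, Finset.mem_sigma] at hq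
    obtain ⟨⟨hq1, hq2⟩, c, -, hc⟩ := hq
    have hd : ∃ d : Fin B, q.1 ∣ f * (d.1 + 1) := by
      by_contra hcon
      push Not at hcon
      apply hc
      change ∑ d : Fin B, _ = _
      refine Finset.sum_eq_zero fun d _ => ?_
      rw [if_neg (hcon d)]
    obtain ⟨d, hd⟩ := hd
    rw [Finset.mem_biUnion]
    refine ⟨d.1 + 1, Finset.mem_Icc.2 ⟨by omega, by omega⟩, ?_⟩
    rw [Finset.mem_sigma]
    refine ⟨Nat.mem_divisors.2 ⟨hd, ?_⟩, hq2⟩
    exact Nat.mul_ne_zero (by omega) (by omega)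
  refine (Finset.card_le_card hsub).trans (Finset.card_biUnion_le.trans ?_)
  calc ∑ d ∈ Finset.Icc 1 B,
        ((f * d).divisors.sigma fun e =>
          (Finset.range e).filter (fun u => Nat.Coprime u e)).card
      = ∑ d ∈ Finset.Icc 1 B, f * d := by
        refine Finset.sum_congr rfl fun d _ => ?_
        rw [Finset.card_sigma]
        have h1 : ∀ e ∈ (f * d).divisors,
            ((Finset.range e).filter (fun u => Nat.Coprime u e)).card = e.totient := by
          intro e _
          rw [Nat.totient]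
          congr 1
          refine Finset.filter_congr fun u _ => ?_
          exact Nat.coprime_comm
        rw [Finset.sum_congr rfl h1, Nat.sum_totient]
    _ ≤ ∑ d ∈ Finset.Icc 1 B, f * B := by
        refine Finset.sum_le_sum fun d hd => ?_
        exact Nat.mul_le_mul_left _ (Finset.mem_Icc.1 hd).2
    _ = f * B ^ 2 := by
        rw [Finset.sum_const, Nat.card_Icc, smul_eq_mul, Nat.add_sub_cancel]
        ring

/-- a subspace of minimal slope -/
theorem exists_min (f B : ℕ) (a : ℕ → ℤ) (W : Submodule ℚ (Fin B → ℚ)) (hW : W ≠ ⊥) :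
    ∃ V0 : Submodule ℚ (Fin B → ℚ), V0 ≤ W ∧ V0 ≠ ⊥ ∧ ∀ V : Submodule ℚ (Fin B → ℚ), V ≤ W →
      V ≠ ⊥ → N f B a V0 * Module.finrank ℚ V ≤ N f B a V * Module.finrank ℚ V0 := by
  set g : Submodule ℚ (Fin B → ℚ) → ℕ := fun V => N f B a V * (B.factorial / Module.finrank ℚ V) with hf
  obtain ⟨V0, hV0, hmin⟩ := WellFounded.has_min (measure g).wf
    {V : Submodule ℚ (Fin B → ℚ) | V ≤ W ∧ V ≠ ⊥} ⟨W, le_rfl, hW⟩
  refine ⟨V0, hV0.1, hV0.2, fun V hV hV2 => ?_⟩
  have h1 : g V0 ≤ g V := by
    have := hmin V ⟨hV, hV2⟩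
    exact not_lt.1 this
  have hd : ∀ V : Submodule ℚ (Fin B → ℚ), V ≠ ⊥ →
      0 < Module.finrank ℚ V ∧ g V * Module.finrank ℚ V = N f B a V * B.factorial := by
    intro V hV
    have h2 : 0 < Module.finrank ℚ V := by
      rw [Module.finrank_pos_iff]
      exact (Submodule.nontrivial_iff_ne_bot).2 hV
    have h3 : Module.finrank ℚ V ≤ B := by
      refine (Submodule.finrank_le _).trans ?_
      rw [Module.finrank_fintype_fun_eq_card, Fintype.card_fin]
    refine ⟨h2, ?_⟩
    rw [hf]
    simp only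
    rw [mul_assoc, Nat.div_mul_cancel (Nat.dvd_factorial h2 h3)]
  obtain ⟨p1, e1⟩ := hd V hV2
  obtain ⟨p0, e0⟩ := hd V0 hV0.2
  have h2 : (N f B a V0 * Module.finrank ℚ V) * B.factorial ≤
      (N f B a V * Module.finrank ℚ V0) * B.factorial := by
    calc (N f B a V0 * Module.finrank ℚ V) * B.factorial
        = (N f B a V0 * B.factorial) * Module.finrank ℚ V := by ring
      _ = g V0 * Module.finrank ℚ V0 * Module.finrank ℚ V := by rw [e0]
      _ ≤ g V * Module.finrank ℚ V0 * Module.finrank ℚ V :=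
          Nat.mul_le_mul_right _ (Nat.mul_le_mul_right _ h1)
      _ = (g V * Module.finrank ℚ V) * Module.finrank ℚ V0 := by ring
      _ = (N f B a V * Module.finrank ℚ V0) * B.factorial := by rw [e1]; ring
  exact Nat.le_of_mul_le_mul_right h2 (Nat.factorial_pos B)

end SLPa

open SLPa in
open Pool.Agent.Y926.TW.SLP (sum_Icc Ev ker_dim clear) in
theorem t_slpa : S_SLPa := by
  intro f B av J hf1 hJ
  set W := LinearMap.ker (Ev B J) with hWd
  have hWdim : B - J.card ≤ Module.finrank ℚ W := ker_dim B J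
  have hW : W ≠ ⊥ := by
    intro h
    rw [h, finrank_bot] at hWdim
    omega
  obtain ⟨V0, hV0, hV0b, hmin⟩ := exists_min f B av W hW
  set m := Module.finrank ℚ V0 with hm
  have hm1 : 1 ≤ m := by
    have : 0 < m := by
      rw [hm, Module.finrank_pos_iff]
      exact (Submodule.nontrivial_iff_ne_bot).2 hV0b
    exact this
  have hmB : m ≤ B := by
    refine (Submodule.finrank_le _).trans ?_
    rw [Module.finrank_fintype_fun_eq_card, Fintype.card_fin]
  set b := Module.finBasis ℚ V0 with hb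
  obtain ⟨D, w, hD, hw⟩ := clear B m (fun l d => (b l : Fin B → ℚ) d)
  set x : Fin m → Fin B → ℚ := fun l d => (w l (d.1 + 1) : ℚ) with hx
  have hxb : ∀ l, x l = D • (b l : Fin B → ℚ) := by
    intro l
    funext d
    rw [Pi.smul_apply, smul_eq_mul]
    exact hw l d
  have hbli : LinearIndependent ℚ (fun l => (b l : Fin B → ℚ)) :=
    b.linearIndependent.map' V0.subtype (Submodule.ker_subtype V0)
  have hxli : LinearIndependent ℚ x := by
    have h1 := hbli.units_smul (fun _ => Units.mk0 D hD)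
    have h2 : ((fun _ : Fin m => Units.mk0 D hD) • fun l => (b l : Fin B → ℚ)) = x := by
      funext l
      rw [hxb l]
      rfl
    rw [h2] at h1
    exact h1
  have hxV : ∀ l, x l ∈ V0 := by
    intro l
    rw [hxb]
    exact V0.smul_mem _ (b l).2
  have hspan : Submodule.span ℚ (Set.range x) = V0 := by
    refine Submodule.eq_of_le_of_finrank_eq ?_ ?_
    · rw [Submodule.span_le]
      rintro _ ⟨l, rfl⟩
      exact hxV l
    · rw [finrank_span_eq_card hxli, Fintype.card_fin]
  have hNw : NNa f B av (fun l d => (w l d : ℚ)) = N f B av V0 := by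
    rw [NN_eq]
    congr 1
  refine ⟨m, w, hm1, hmB, hxli, ?_, ?_, ?_⟩
  · intro l j hj
    have h1 := hV0 (hxV l)
    rw [hWd, LinearMap.mem_ker] at h1
    have h2 := congrFun h1 ⟨j, hj⟩
    have h3 : ((∑ d ∈ Finset.Icc 1 B, w l d * (d : ℤ) ^ j : ℤ) : ℚ) = 0 := by
      push_cast
      rw [sum_Icc B (fun d => (w l d : ℚ) * (d : ℚ) ^ j)]
      exact h2
    exact_mod_cast h3
  · rw [hNw]
    have h1 := hmin W le_rfl hW
    calc N f B av V0 * (B - J.card) ≤ N f B av V0 * Module.finrank ℚ W := Nat.mul_le_mul_left _ hWdim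
      _ ≤ N f B av W * m := h1
      _ ≤ (f * B ^ 2) * m := Nat.mul_le_mul_right _ (N_le f B av hf1 W)
      _ = m * (f * B ^ 2) := mul_comm _ _
  · intro m1 a ha
    rw [hNw]
    rcases Nat.eq_zero_or_pos m1 with h0 | h0
    · subst h0
      simp
    set y : Fin m1 → Fin B → ℚ := fun i d => ∑ l, a i l * (w l (d.1 + 1) : ℚ) with hy
    have hyx : ∀ i, y i = Fintype.linearCombination ℚ x (a i) := by
      intro i
      funext d
      rw [Fintype.linearCombination_apply, Finset.sum_apply]
      rfl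
    have hyli : LinearIndependent ℚ y := by
      have h1 := ha.map' (Fintype.linearCombination ℚ x)
        (LinearMap.ker_eq_bot.2 hxli.fintypeLinearCombination_injective)
      have h2 : (⇑(Fintype.linearCombination ℚ x) ∘ a) = y := by
        funext i
        rw [hyx i]
        rfl
      rw [h2] at h1
      exact h1
    set V1 := Submodule.span ℚ (Set.range y) with hV1
    have hV1le : V1 ≤ V0 := by
      rw [hV1, Submodule.span_le]
      rintro _ ⟨i, rfl⟩
      rw [hyx i, Fintype.linearCombination_apply]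
      exact V0.sum_mem fun l _ => V0.smul_mem _ (hxV l)
    have hV1d : Module.finrank ℚ V1 = m1 := by
      rw [hV1, finrank_span_eq_card hyli, Fintype.card_fin]
    have hV1b : V1 ≠ ⊥ := by
      intro h
      rw [h, finrank_bot] at hV1d
      omega
    have h1 := hmin V1 (hV1le.trans hV0) hV1b
    have h2 : NNa f B av (fun (i : Fin m1) d => ∑ l, a i l * (w l d : ℚ)) = N f B av V1 := by
      rw [NN_eq]
    rw [h2]
    rw [hV1d] at h1
    calc m1 * N f B av V0 = N f B av V0 * m1 := mul_comm _ _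
      _ ≤ N f B av V1 * m := h1
      _ = m * N f B av V1 := mul_comm _ _

end

end Pool.Agent.Y627.TP
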