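import Pool.Agent.Y627.TP.Stm
import Pool.Agent.Y926.TW.J_SYM

/-!
# `SYMa`: symmetrisation of the functional, for periodic sequences

The adaptation of `Pool.Agent.Y926.TW.J_SYM`.
-/

set_option autoImplicit false

open Polynomial Pool.Agent.H337R2 Pool.Agent.W165.OZ Pool.Agent.Y926.LZ Pool.Agent.Y926.TW

namespace Pool.Agent.Y627.TP

noncomputable section

namespace SYM

open Pool.Agent.Y926.TW.SYM

/-- the germs before the symmetrisation -/
def Hka (a : ℕ → ℤ) (z : ℕ → ℚ) (n h b f B : ℕ) (P : ℕ → ℚ[X]) (k : ℕ) : PowerSeries ℚ :=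
  ∑ d ∈ Finset.Icc 1 B, TS (-(k : ℚ)) ((P d).comp (yp n)) * bta a z h b f d k

/-- the functional on polynomials -/
def Pha (a : ℕ → ℤ) (z : ℕ → ℚ) (n h b f B : ℕ) (P : ℕ → ℚ[X]) (F : ℚ[X]) : ℚ :=
  ∑ k ∈ Finset.range n, PowerSeries.coeff (2 * h - 1)
    (TS (-(k : ℚ)) F * VV ((sP n).erase k) (mP h) (-(k : ℚ)) * Hka a z n h b f B P k)

theorem coeff_bta (a : ℕ → ℤ) (z : ℕ → ℚ) (h b f d k : ℕ) (F : PowerSeries ℚ) :
    PowerSeries.coeff (2 * h - 1) (F * bta a z h b f d k) = ∑ i ∈ Finset.Icc 1 (2 * h),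
      PowerSeries.coeff (2 * h - i) F *
        (Cb b i * (((f * d : ℕ) : ℚ)) ^ (i + b) * (z (i + b) - hsa a (i + b) (f * d * k))) := by
  unfold bta
  rw [Finset.mul_sum, map_sum]
  apply Finset.sum_congr rfl
  intro i hi
  rw [Finset.mem_Icc] at hi
  have e : 2 * h - 1 - (i - 1) = 2 * h - i := by omega
  rw [mul_left_comm, PowerSeries.coeff_C_mul, PowerSeries.coeff_mul_X_pow', if_pos (by omega), e,
    mul_comm]

theorem LQa_eq (a : ℕ → ℤ) (z : ℕ → ℚ) (n h b f B : ℕ) (P : ℕ → ℚ[X]) (g : ℚ[X]) :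
    LQa a z n h b f B (fun d => g * P d) =
      (n.factorial : ℚ) ^ (2 * h) * Pha a z n h b f B P (sl n * g.comp (yp n)) := by
  have h1 : ∀ d, (∑ i ∈ Finset.Icc 1 (2 * h), Cb b i * rhoP n h (KP n h (g * P d)) i *
      (((f * d : ℕ) : ℚ)) ^ (i + b) * z (i + b) - bea a n h b f d (KP n h (g * P d))) =
      ∑ k ∈ Finset.range n, ∑ i ∈ Finset.Icc 1 (2 * h),
        pa (sP n) (mP h) (KP n h (g * P d)) k i *
          (Cb b i * (((f * d : ℕ) : ℚ)) ^ (i + b) * (z (i + b) - hsa a (i + b) (f * d * k))) := by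
    intro d
    unfold rhoP bea
    rw [Finset.sum_comm (s := Finset.range n) (t := Finset.Icc 1 (2 * h)),
      Finset.sum_comm (s := sP n) (t := Finset.Icc 1 (2 * h)), ← Finset.sum_sub_distrib]
    apply Finset.sum_congr rfl
    intro i _
    rw [Finset.mul_sum, Finset.sum_mul, Finset.sum_mul, ← Finset.sum_sub_distrib]
    apply Finset.sum_congr rfl
    intro k _
    ring
  have h2 : ∀ d, ∀ k, ∀ i ∈ Finset.Icc 1 (2 * h),
      pa (sP n) (mP h) (KP n h (g * P d)) k i = (n.factorial : ℚ) ^ (2 * h) *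
        PowerSeries.coeff (2 * h - i) (TS (-(k : ℚ)) (sl n * g.comp (yp n)) *
          VV ((sP n).erase k) (mP h) (-(k : ℚ)) * TS (-(k : ℚ)) ((P d).comp (yp n))) := by
    intro d k i hi
    rw [Finset.mem_Icc] at hi
    unfold pa
    rw [if_pos hi.2]
    unfold pfc KP num sl
    rw [map_mul (TS (-(k : ℚ))), TS_C, Polynomial.mul_comp, mul_assoc, PowerSeries.coeff_C_mul]
    congr 2
    rw [← mul_assoc (C 2 * X + C ((n : ℚ) - 1)), map_mul (TS (-(k : ℚ)))]
    ring
  unfold LQa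
  rw [Finset.sum_congr rfl (fun d _ => h1 d), Finset.sum_comm]
  unfold Pha
  rw [Finset.mul_sum]
  apply Finset.sum_congr rfl
  intro k _
  unfold Hka
  rw [Finset.mul_sum, map_sum, Finset.mul_sum]
  apply Finset.sum_congr rfl
  intro d _
  rw [← mul_assoc, coeff_bta, Finset.mul_sum]
  apply Finset.sum_congr rfl
  intro i hi
  rw [h2 d k i hi]
  ring

theorem Pha_add (a : ℕ → ℤ) (z : ℕ → ℚ) (n h b f B : ℕ) (P : ℕ → ℚ[X]) (F F' : ℚ[X]) :
    Pha a z n h b f B P (F + F') = Pha a z n h b f B P F + Pha a z n h b f B P F' := by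
  unfold Pha
  rw [← Finset.sum_add_distrib]
  apply Finset.sum_congr rfl
  intro k _
  rw [map_add, add_mul, add_mul, map_add]

theorem Pha_C (a : ℕ → ℤ) (z : ℕ → ℚ) (n h b f B : ℕ) (P : ℕ → ℚ[X]) (c : ℚ) (F : ℚ[X]) :
    Pha a z n h b f B P (C c * F) = c * Pha a z n h b f B P F := by
  unfold Pha
  rw [Finset.mul_sum]
  apply Finset.sum_congr rfl
  intro k _
  rw [map_mul (TS (-(k : ℚ))), TS_C, mul_assoc, mul_assoc, PowerSeries.coeff_C_mul, mul_assoc]

/-- the functional vanishes on all odd polynomials of bounded degree -/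
theorem Pha_span {a : ℕ → ℤ} {z : ℕ → ℚ} {n h b f B G : ℕ} {P : ℕ → ℚ[X]}
    (hL : ∀ i ≤ G, LQa a z n h b f B (fun d => Gb n i * P d) = 0) (m : ℕ) :
    m ≤ G + 1 → ∀ g : ℚ[X], g.degree < m → Pha a z n h b f B P (sl n * g.comp (yp n)) = 0 := by
  induction m with
  | zero =>
    intro _ g hg
    have hg0 : g = 0 := by
      rw [← Polynomial.degree_eq_bot]
      exact Nat.WithBot.lt_zero_iff.1 (by simpa using hg)
    rw [hg0, Polynomial.zero_comp, mul_zero]
    have h1 := Pha_C a z n h b f B P 0 0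
    rwa [map_zero, zero_mul, zero_mul] at h1
  | succ m ih =>
    intro hm g hg
    have hn0 : (n.factorial : ℚ) ^ (2 * h) ≠ 0 :=
      pow_ne_zero _ (by exact_mod_cast n.factorial_ne_zero)
    have h1 : Pha a z n h b f B P (sl n * (Gb n m).comp (yp n)) = 0 := by
      have h2 := hL m (by omega)
      rw [LQa_eq] at h2
      exact (mul_eq_zero.1 h2).resolve_left hn0
    set c : ℚ := g.coeff m / (Gb n m).leadingCoeff with hc
    have hlc : (Gb n m).leadingCoeff ≠ 0 := Polynomial.leadingCoeff_ne_zero.2 (Gb_ne n m)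
    have h3 : (g - C c * Gb n m).degree < (m : ℕ) := by
      rw [Polynomial.degree_lt_iff_coeff_zero]
      intro j hj
      rw [Polynomial.coeff_sub, Polynomial.coeff_C_mul]
      rcases Nat.eq_or_lt_of_le hj with h4 | h4
      · rw [← h4]
        have h5 : (Gb n m).coeff m = (Gb n m).leadingCoeff := by
          rw [Polynomial.leadingCoeff, Gb_deg]
        rw [h5, hc, div_mul_cancel₀ _ hlc, sub_self]
      · rw [Polynomial.degree_lt_iff_coeff_zero] at hg
        rw [hg j (by omega), Polynomial.coeff_eq_zero_of_natDegree_lt (by rw [Gb_deg]; exact h4),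
          mul_zero, sub_zero]
    have h4 := ih (by omega) _ h3
    have h5 : sl n * g.comp (yp n) = sl n * (g - C c * Gb n m).comp (yp n) +
        C c * (sl n * (Gb n m).comp (yp n)) := by
      rw [Polynomial.sub_comp, Polynomial.mul_comp, Polynomial.C_comp]
      ring
    rw [h5, Pha_add, Pha_C, h4, h1, mul_zero, add_zero]

theorem Hka_io {a : ℕ → ℤ} {z : ℕ → ℚ} {n h b f B : ℕ} {P : ℕ → ℚ[X]} {k : ℕ} (hk : k < n) :
    Hka a z n h b f B P k + sg (Hka a z n h b f B P (n - 1 - k)) = Esa a z n h b f B P k := by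
  unfold Hka Esa bsa
  rw [map_sum, ← Finset.sum_add_distrib]
  apply Finset.sum_congr rfl
  intro d _
  rw [map_mul, ← TS_io hk, Polynomial.comp_assoc, yp_comp, mul_add]

theorem Pha_io {a : ℕ → ℤ} {z : ℕ → ℚ} {n h b f B : ℕ} {P : ℕ → ℚ[X]} (hh : 1 ≤ h) (F : ℚ[X]) :
    Pha a z n h b f B P (F.comp (io n)) = - ∑ k ∈ Finset.range n, PowerSeries.coeff (2 * h - 1)
      (TS (-(k : ℚ)) F * VV ((sP n).erase k) (mP h) (-(k : ℚ)) *
        sg (Hka a z n h b f B P (n - 1 - k))) := by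
  unfold Pha
  rw [← Finset.sum_range_reflect (fun k => PowerSeries.coeff (2 * h - 1)
      (TS (-(k : ℚ)) F * VV ((sP n).erase k) (mP h) (-(k : ℚ)) *
        sg (Hka a z n h b f B P (n - 1 - k)))) n, ← Finset.sum_neg_distrib]
  apply Finset.sum_congr rfl
  intro k hk
  rw [Finset.mem_range] at hk
  have h1 : n - 1 - (n - 1 - k) = k := by omega
  rw [TS_io hk, VV_io hk, h1]
  have h2 : sg (TS (-((n - 1 - k : ℕ) : ℚ)) F) *
      sg (VV ((sP n).erase (n - 1 - k)) (mP h) (-((n - 1 - k : ℕ) : ℚ))) *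
        Hka a z n h b f B P k =
      sg (TS (-((n - 1 - k : ℕ) : ℚ)) F *
        VV ((sP n).erase (n - 1 - k)) (mP h) (-((n - 1 - k : ℕ) : ℚ)) *
          sg (Hka a z n h b f B P k)) := by
    rw [map_mul, map_mul, sg_sg]
  rw [h2, PowerSeries.coeff_rescale]
  have h3 : Odd (2 * h - 1) := ⟨h - 1, by omega⟩
  rw [h3.neg_one_pow]
  ring

end SYM

open SYM Pool.Agent.Y926.TW.SYM in
theorem t_syma : S_SYMa := by
  intro a z n h b f B G P hn hh hL F hF
  obtain ⟨g, hg1, hg2⟩ := anti (n := n) F hF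
  have h1 : Pha a z n h b f B P (sl n * g.comp (yp n)) = 0 := by
    apply Pha_span hL (G + 1) le_rfl
    exact lt_of_le_of_lt Polynomial.degree_le_natDegree (by exact_mod_cast Nat.lt_succ_of_le hg1)
  have h2 : F = F.comp (io n) + sl n * g.comp (yp n) := by rw [← hg2]; ring
  have h3 : Pha a z n h b f B P F = Pha a z n h b f B P (F.comp (io n)) := by
    conv_lhs => rw [h2]
    rw [Pha_add, h1, add_zero]
  rw [Pha_io hh, eq_neg_iff_add_eq_zero] at h3
  rw [← h3]
  unfold Pha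
  rw [← Finset.sum_add_distrib]
  apply Finset.sum_congr rfl
  intro k hk
  rw [Finset.mem_range] at hk
  rw [← Hka_io hk, mul_add, map_add]

end

end Pool.Agent.Y627.TP

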