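import Pool.Agent.Y627.TP.Stm
import Pool.Agent.Y926.TW.J_TELE

/-! TP-TELE: a certain rational function is not a difference `r(t - 1) - r(t)` (periodic case). -/

open Polynomial Pool.Agent.H337R2 Pool.Agent.W165.OZ Pool.Agent.Y926.LZ Pool.Agent.Y926.TW
open Pool.Agent.Y926.TW.JTELE hiding delta_coeff cnt1 cnt2

namespace Pool.Agent.Y627.TP.JTELE

noncomputable section

/-- the `(b + 1)`-st polar coefficient of the sum -/
lemma delta_coeff (n b f B : ℕ) (a : ℕ → ℤ) (c : ℕ → ℚ) (y : ℚ) :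
    (ph y (∑ d ∈ Finset.Icc 1 B, C (c d) * etaa n b f B a d) * (ph y (Pi1a n b f B))⁻¹).coeff
      (-((b : ℤ) + 1)) =
    ∑ d ∈ Finset.Icc 1 B, c d * ∑ v ∈ Finset.Icc 1 (f * d), ((a v : ℤ) : ℚ) *
      ((-1) ^ b * (if y = (v : ℚ) / ((f * d : ℕ) : ℚ) then 1 else 0) +
        (if y = -((n : ℚ) - 2 + (v : ℚ) / ((f * d : ℕ) : ℚ)) then 1 else 0)) := by
  have h1 : ∀ d ∈ Finset.Icc 1 B, ph y (etaa n b f B a d) * (ph y (Pi1a n b f B))⁻¹ =
      ∑ v ∈ Finset.Icc 1 (f * d), ph y (C ((a v : ℤ) : ℚ)) *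
        (ph y (C ((-1) ^ b)) * (ph y (Pf1 b (f * d) v))⁻¹ + (ph y (Pf2 n b (f * d) v))⁻¹) := by
    intro d hd
    unfold etaa
    rw [map_sum, Finset.sum_mul]
    refine Finset.sum_congr rfl fun v hv => ?_
    have hmem : (⟨d, v⟩ : Σ _ : ℕ, ℕ) ∈ Dva f B := by
      unfold Dva
      rw [Finset.mem_sigma]
      exact ⟨hd, hv⟩
    have h2 : Pi1a n b f B = (Pf1 b (f * d) v * Pf2 n b (f * d) v) *
        ∏ q ∈ (Dva f B).erase ⟨d, v⟩, (Pf1 b (f * q.1) q.2 * Pf2 n b (f * q.1) q.2) := by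
      unfold Pi1a
      exact (Finset.mul_prod_erase (Dva f B)
        (fun q : (Σ _ : ℕ, ℕ) => Pf1 b (f * q.1) q.2 * Pf2 n b (f * q.1) q.2) hmem).symm
    have hr : ∏ q ∈ (Dva f B).erase ⟨d, v⟩, (Pf1 b (f * q.1) q.2 * Pf2 n b (f * q.1) q.2) ≠ 0 :=
      Finset.prod_ne_zero_iff.2 fun q _ => mul_ne_zero (Pf1_ne _ _ _) (Pf2_ne _ _ _ _)
    have h3 : ((-1) ^ b : ℚ[X]) = C ((-1) ^ b) := by
      rw [C_pow, C_neg, C_1]
    rw [h2, h3, map_mul, map_mul, map_mul, map_mul, map_add, map_mul]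
    have e1 := ph_ne y hr
    have e2 := ph_ne y (Pf1_ne b (f * d) v)
    have e3 := ph_ne y (Pf2_ne n b (f * d) v)
    generalize ph y (∏ q ∈ (Dva f B).erase ⟨d, v⟩, (Pf1 b (f * q.1) q.2 * Pf2 n b (f * q.1) q.2)) = r at *
    generalize ph y (Pf1 b (f * d) v) = f1 at *
    generalize ph y (Pf2 n b (f * d) v) = f2 at *
    generalize ph y (C ((a v : ℤ) : ℚ)) = aa at *
    generalize ph y (C ((-1 : ℚ) ^ b)) = s at *
    field_simp
  rw [map_sum, Finset.sum_mul, HahnSeries.coeff_sum]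
  refine Finset.sum_congr rfl fun d hd => ?_
  rw [map_mul, mul_assoc, ph_C_mul, h1 d hd, HahnSeries.coeff_sum]
  congr 1
  refine Finset.sum_congr rfl fun v _ => ?_
  rw [ph_C_mul, HahnSeries.coeff_add, ph_C_mul, Pf2_eq, ph_pole]
  congr 3
  exact ph_pole y ((v : ℚ) / ((f * d : ℕ) : ℚ)) b

/-- the first count -/
lemma cnt1 (f e d u v M i : ℕ) (hf : 1 ≤ f) (he : 1 ≤ e) (hd : 1 ≤ d) (hu : 1 ≤ u) (hue : u < f * e)
    (hv1 : 1 ≤ v) (hvd : v ≤ f * d) :
    ((u : ℚ) / ((f * e : ℕ) : ℚ) - M + i = (v : ℚ) / ((f * d : ℕ) : ℚ)) ↔ (i = M ∧ v * e = u * d) := by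
  have hf' : (1 : ℚ) ≤ f := by exact_mod_cast hf
  have he' : (1 : ℚ) ≤ e := by exact_mod_cast he
  have hd' : (1 : ℚ) ≤ d := by exact_mod_cast hd
  have hv' : (1 : ℚ) ≤ v := by exact_mod_cast hv1
  have hu' : (1 : ℚ) ≤ u := by exact_mod_cast hu
  have hvd' : (v : ℚ) ≤ ((f * d : ℕ) : ℚ) := by exact_mod_cast hvd
  have hue' : (u : ℚ) < ((f * e : ℕ) : ℚ) := by exact_mod_cast hue
  have hfd : (0 : ℚ) < ((f * d : ℕ) : ℚ) := by push_cast; positivity
  have hfe : (0 : ℚ) < ((f * e : ℕ) : ℚ) := by push_cast; positivity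
  have h1 : (0 : ℚ) < (v : ℚ) / ((f * d : ℕ) : ℚ) := by positivity
  have h2 : (v : ℚ) / ((f * d : ℕ) : ℚ) ≤ 1 := by rw [div_le_one hfd]; exact hvd'
  have h3 : (0 : ℚ) < (u : ℚ) / ((f * e : ℕ) : ℚ) := by positivity
  have h4 : (u : ℚ) / ((f * e : ℕ) : ℚ) < 1 := by rw [div_lt_one hfe]; exact hue'
  have key : (v * e = u * d) ↔ (u : ℚ) / ((f * e : ℕ) : ℚ) = (v : ℚ) / ((f * d : ℕ) : ℚ) := by
    rw [div_eq_div_iff hfe.ne' hfd.ne']
    constructor
    · intro h
      have h' : (v : ℚ) * e = u * d := by exact_mod_cast h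
      push_cast
      linear_combination (-(f : ℚ)) * h'
    · intro h
      push_cast at h
      have h' : (f : ℚ) * (v * e) = f * (u * d) := by linear_combination -h
      have h'' := mul_left_cancel₀ (show (f : ℚ) ≠ 0 by positivity) h'
      exact_mod_cast h''
  rw [key]
  constructor
  · intro h
    have hi : i = M := by
      have h5 : ((i : ℤ) : ℚ) - (M : ℤ) < 1 := by push_cast; linarith
      have h6 : (-1 : ℚ) < ((i : ℤ) : ℚ) - (M : ℤ) := by push_cast; linarith
      have h7 : (i : ℤ) - M < 1 := by exact_mod_cast h5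
      have h8 : (-1 : ℤ) < (i : ℤ) - M := by exact_mod_cast h6
      omega
    refine ⟨hi, ?_⟩
    rw [hi, sub_add_cancel] at h
    exact h
  · rintro ⟨rfl, h⟩
    rw [sub_add_cancel, h]

/-- the second count -/
lemma cnt2 (n f e d u v M i : ℕ) (hf : 1 ≤ f) (he : 1 ≤ e) (hd : 1 ≤ d) (hu : 1 ≤ u)
    (hue : u < f * e) (hv1 : 1 ≤ v) (hvd : v ≤ f * d) :
    ((u : ℚ) / ((f * e : ℕ) : ℚ) - M + i = -((n : ℚ) - 2 + (v : ℚ) / ((f * d : ℕ) : ℚ))) ↔
      (i + n = M + 1 ∧ v * e = d * (f * e - u)) := by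
  have hf' : (1 : ℚ) ≤ f := by exact_mod_cast hf
  have he' : (1 : ℚ) ≤ e := by exact_mod_cast he
  have hd' : (1 : ℚ) ≤ d := by exact_mod_cast hd
  have hv' : (1 : ℚ) ≤ v := by exact_mod_cast hv1
  have hu' : (1 : ℚ) ≤ u := by exact_mod_cast hu
  have hvd' : (v : ℚ) ≤ ((f * d : ℕ) : ℚ) := by exact_mod_cast hvd
  have hue' : (u : ℚ) < ((f * e : ℕ) : ℚ) := by exact_mod_cast hue
  have hfd : (0 : ℚ) < ((f * d : ℕ) : ℚ) := by push_cast; positivity
  have hfe : (0 : ℚ) < ((f * e : ℕ) : ℚ) := by push_cast; positivity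
  have h1 : (0 : ℚ) < (v : ℚ) / ((f * d : ℕ) : ℚ) := by positivity
  have h2 : (v : ℚ) / ((f * d : ℕ) : ℚ) ≤ 1 := by rw [div_le_one hfd]; exact hvd'
  have h3 : (0 : ℚ) < (u : ℚ) / ((f * e : ℕ) : ℚ) := by positivity
  have h4 : (u : ℚ) / ((f * e : ℕ) : ℚ) < 1 := by rw [div_lt_one hfe]; exact hue'
  have key : (v * e = d * (f * e - u)) ↔
      (v : ℚ) / ((f * d : ℕ) : ℚ) = 1 - (u : ℚ) / ((f * e : ℕ) : ℚ) := by
    have e1 : (1 : ℚ) - (u : ℚ) / ((f * e : ℕ) : ℚ) = (((f * e - u : ℕ) : ℕ) : ℚ) / ((f * e : ℕ) : ℚ) := by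
      rw [Nat.cast_sub hue.le, sub_div, div_self hfe.ne']
    rw [e1, div_eq_div_iff hfd.ne' hfe.ne']
    generalize f * e - u = w
    constructor
    · intro h
      have h' : (v : ℚ) * e = d * w := by exact_mod_cast h
      push_cast
      linear_combination (f : ℚ) * h'
    · intro h
      push_cast at h
      have h' : (f : ℚ) * (v * e) = f * (d * w) := by linear_combination h
      have h'' := mul_left_cancel₀ (show (f : ℚ) ≠ 0 by positivity) h'
      exact_mod_cast h''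
  rw [key]
  constructor
  · intro h
    have hi : i + n = M + 1 := by
      have h5 : ((i : ℤ) : ℚ) + (n : ℤ) - (M : ℤ) < 2 := by push_cast; linarith
      have h6 : (0 : ℚ) < ((i : ℤ) : ℚ) + (n : ℤ) - (M : ℤ) := by push_cast; linarith
      have h7 : (i : ℤ) + n - M < 2 := by exact_mod_cast h5
      have h8 : (0 : ℤ) < (i : ℤ) + n - M := by exact_mod_cast h6
      omega
    refine ⟨hi, ?_⟩
    have hi' : (i : ℚ) + n = M + 1 := by exact_mod_cast hi
    linarith
  · rintro ⟨hi, h⟩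
    have hi' : (i : ℚ) + n = M + 1 := by exact_mod_cast hi
    rw [h]
    linarith

/-- a good class -/
lemma exists_u (f b e : ℕ) (a : ℕ → ℤ) (h : Par f b a) (he : 1 ≤ e) (hfe : 2 ≤ f * e) :
    ∃ u : ℕ, 1 ≤ u ∧ u < f * e ∧ Nat.Coprime u (f * e) ∧ a u ≠ 0 := by
  obtain ⟨u0, hu0, hau0⟩ := h.ne
  have hf := h.pos
  have : NeZero (f * e) := ⟨by omega⟩
  obtain ⟨w, hw⟩ := ZMod.unitsMap_surjective (dvd_mul_right f e) (ZMod.unitOfCoprime u0 hu0)
  set u : ℕ := (w : ZMod (f * e)).val with hu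
  have hcop : Nat.Coprime u (f * e) := ZMod.val_coe_unit_coprime w
  have hlt : u < f * e := ZMod.val_lt _
  have hu1 : 1 ≤ u := by
    by_contra h0
    have h1 : u = 0 := by omega
    rw [h1, Nat.coprime_zero_left] at hcop
    omega
  refine ⟨u, hu1, hlt, hcop, ?_⟩
  have hcong : ((u : ℕ) : ZMod f) = ((u0 : ℕ) : ZMod f) := by
    have h1 := congrArg (fun x : (ZMod f)ˣ => (x : ZMod f)) hw
    simp only [ZMod.unitsMap_val, ZMod.coe_unitOfCoprime] at h1
    rw [← h1, hu, ZMod.natCast_val]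
  have hdvd1 : f ∣ u + u * (f - 1) := by
    refine ⟨u, ?_⟩
    obtain ⟨k, rfl⟩ : ∃ k, f = k + 1 := ⟨f - 1, by omega⟩
    rw [Nat.add_sub_cancel]
    ring
  have hdvd2 : f ∣ u0 + u * (f - 1) := by
    rw [← ZMod.natCast_eq_zero_iff] at hdvd1 ⊢
    push_cast at hdvd1 ⊢
    rw [← hcong]
    exact hdvd1
  have h1 := h.par u _ hdvd1
  have h2 := h.par u0 _ hdvd2
  rw [h1] at h2
  have h3 : ((-1 : ℤ)) ^ b ≠ 0 := pow_ne_zero _ (by norm_num)
  have h4 := mul_left_cancel₀ h3 h2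
  rw [h4]
  exact hau0

end

end Pool.Agent.Y627.TP.JTELE

namespace Pool.Agent.Y627.TP

open JTELE

theorem t_telea : S_TELEa := by
  classical
  intro n b f B a c hpar _ hn hsum u v hv hrel
  by_contra hcon
  push Not at hcon
  have hf := hpar.pos
  -- the largest `e` with `c e ≠ 0`
  set S := (Finset.Icc 1 B).filter (fun d => c d ≠ 0) with hS
  have hSne : S.Nonempty := by
    obtain ⟨d, hd, hd'⟩ := hcon
    exact ⟨d, Finset.mem_filter.2 ⟨hd, hd'⟩⟩
  set e := S.max' hSne with he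
  have heS : e ∈ S := S.max'_mem hSne
  have heB : e ∈ Finset.Icc 1 B := (Finset.mem_filter.1 heS).1
  have hce : c e ≠ 0 := (Finset.mem_filter.1 heS).2
  have he1 : 1 ≤ e := (Finset.mem_Icc.1 heB).1
  have hmax : ∀ d ∈ Finset.Icc 1 B, e < d → c d = 0 := by
    intro d hd hed
    by_contra h
    exact absurd (S.le_max' d (Finset.mem_filter.2 ⟨hd, h⟩)) (not_le.2 hed)
  have he2 : 2 ≤ f * e := by
    by_contra h
    have h0 : f * e ≤ 1 := by omega
    have h1 : e = 1 := by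
      have : e ≤ f * e := Nat.le_mul_of_pos_left e (by omega)
      omega
    rw [Finset.sum_eq_single e] at hsum
    · exact hce hsum
    · intro d hd hde
      apply hmax d hd
      have := (Finset.mem_Icc.1 hd).1
      omega
    · intro h; exact absurd heB h
  obtain ⟨w0, hw1, hwlt, hwcop, haw⟩ := exists_u f b e a hpar he1 he2
  obtain ⟨M0, hM0⟩ := far v hv
  obtain ⟨M, hM⟩ := exists_nat_ge (|M0| + n + 2)
  have hMn : n + 2 ≤ M := by
    have h1 : ((n + 2 : ℕ) : ℚ) ≤ M := by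
      push_cast
      linarith [abs_nonneg M0]
    exact_mod_cast h1
  have hfe : (0 : ℚ) < ((f * e : ℕ) : ℚ) := by
    have : 0 < f * e := by omega
    exact_mod_cast this
  have hx0 : (0 : ℚ) < (w0 : ℚ) / ((f * e : ℕ) : ℚ) := by
    have : (0 : ℚ) < w0 := by exact_mod_cast hw1
    positivity
  have hx1 : (w0 : ℚ) / ((f * e : ℕ) : ℚ) ≤ 1 := by
    rw [div_le_one hfe]
    exact_mod_cast hwlt.le
  set x : ℚ := (w0 : ℚ) / ((f * e : ℕ) : ℚ) with hx
  -- the function `r = u / v` and the sum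
  set F : ℕ → ℚ := fun i => (ph (x - M - 1 + i) u * (ph (x - M - 1 + i) v)⁻¹).coeff
    (-((b : ℤ) + 1)) with hF
  have hstep : ∀ i : ℕ, ∑ d ∈ Finset.Icc 1 B, c d * ∑ w ∈ Finset.Icc 1 (f * d), ((a w : ℤ) : ℚ) *
      ((-1) ^ b * (if x - M + i = (w : ℚ) / ((f * d : ℕ) : ℚ) then 1 else 0) +
        (if x - M + i = -((n : ℚ) - 2 + (w : ℚ) / ((f * d : ℕ) : ℚ)) then 1 else 0)) =
      F i - F (i + 1) := by
    intro i
    have hy1 : x - M - 1 + i = (x - M + i) - 1 := by ring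
    have hy2 : x - M - 1 + ((i + 1 : ℕ) : ℚ) = x - M + i := by push_cast; ring
    rw [← Pool.Agent.Y627.TP.JTELE.delta_coeff]
    simp only [hF]
    rw [hy1, hy2]
    generalize x - M + i = y
    rw [← HahnSeries.coeff_sub]
    congr 1
    have h1 := congrArg (ph y) hrel
    rw [map_add, map_mul, map_sub, map_mul, map_mul, map_mul, map_mul, ph_sh, ph_sh, map_zero] at h1
    have hPi : Pi1a n b f B ≠ 0 :=
      Finset.prod_ne_zero_iff.2 fun q _ => mul_ne_zero (Pf1_ne _ _ _) (Pf2_ne _ _ _ _)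
    have e1 := ph_ne y hPi
    have e2 := ph_ne y hv
    have e3 := ph_ne (y - 1) hv
    generalize ph y (Pi1a n b f B) = P at *
    generalize ph y v = V at *
    generalize ph (y - 1) v = V1 at *
    generalize ph y u = U at *
    generalize ph (y - 1) u = U1 at *
    generalize ph y (∑ d ∈ Finset.Icc 1 B, C (c d) * etaa n b f B a d) = E at *
    field_simp
    linear_combination h1
  have htel : ∑ i ∈ Finset.range (2 * M + 1), (F i - F (i + 1)) = 0 := by
    rw [Finset.sum_range_sub']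
    have h0 : F 0 = 0 := by
      simp only [hF]
      apply ph_reg
      apply hM0
      rw [Nat.cast_zero, add_zero, abs_of_nonpos (by linarith [abs_nonneg M0])]
      linarith [le_abs_self M0, abs_nonneg M0]
    have h1 : F (2 * M + 1) = 0 := by
      simp only [hF]
      apply ph_reg
      apply hM0
      push_cast
      rw [abs_of_nonneg (by linarith [abs_nonneg M0])]
      linarith [le_abs_self M0, abs_nonneg M0]
    rw [h0, h1, sub_zero]
  rw [← Finset.sum_congr rfl (fun i _ => hstep i), Finset.sum_comm] at htel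
  have hcope : Nat.Coprime e w0 := (Nat.Coprime.coprime_mul_left_right hwcop).symm
  -- the count
  have hcount : ∀ d ∈ Finset.Icc 1 B, ∑ i ∈ Finset.range (2 * M + 1), c d *
      ∑ w ∈ Finset.Icc 1 (f * d), ((a w : ℤ) : ℚ) *
      ((-1) ^ b * (if x - M + i = (w : ℚ) / ((f * d : ℕ) : ℚ) then 1 else 0) +
        (if x - M + i = -((n : ℚ) - 2 + (w : ℚ) / ((f * d : ℕ) : ℚ)) then 1 else 0)) =
      if d = e then c e * (2 * (-1) ^ b * ((a w0 : ℤ) : ℚ)) else 0 := by
    intro d hd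
    have hd1 := (Finset.mem_Icc.1 hd).1
    by_cases hde : e < d
    · rw [if_neg (by omega), hmax d hd hde]
      simp
    rw [← Finset.mul_sum, Finset.sum_comm]
    have h1 : ∀ w ∈ Finset.Icc 1 (f * d), ∑ i ∈ Finset.range (2 * M + 1), ((a w : ℤ) : ℚ) *
      ((-1) ^ b * (if x - M + i = (w : ℚ) / ((f * d : ℕ) : ℚ) then 1 else 0) +
        (if x - M + i = -((n : ℚ) - 2 + (w : ℚ) / ((f * d : ℕ) : ℚ)) then 1 else 0)) =
        ((a w : ℤ) : ℚ) * ((-1) ^ b * (if w * e = w0 * d then 1 else 0)) +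
        ((a w : ℤ) : ℚ) * (if w * e = d * (f * e - w0) then 1 else 0) := by
      intro w hw
      have hw' := Finset.mem_Icc.1 hw
      rw [← Finset.mul_sum, Finset.sum_add_distrib, ← Finset.mul_sum, mul_add]
      congr 3
      · rw [Finset.sum_eq_single M]
        · exact if_congr ((cnt1 f e d w0 w M M hf he1 hd1 hw1 hwlt hw'.1 hw'.2).trans (by simp)) rfl rfl
        · intro i _ hi
          rw [if_neg]
          rw [hx, cnt1 f e d w0 w M i hf he1 hd1 hw1 hwlt hw'.1 hw'.2]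
          exact fun h => hi h.1
        · intro h
          exact absurd (Finset.mem_range.2 (by omega)) h
      · rw [Finset.sum_eq_single (M + 1 - n)]
        · refine if_congr ((cnt2 n f e d w0 w M (M + 1 - n) hf he1 hd1 hw1 hwlt hw'.1 hw'.2).trans ?_)
            rfl rfl
          constructor
          · exact fun h => h.2
          · exact fun h => ⟨by omega, h⟩
        · intro i _ hi
          rw [if_neg]
          rw [hx, cnt2 n f e d w0 w M i hf he1 hd1 hw1 hwlt hw'.1 hw'.2]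
          exact fun h => hi (by omega)
        · intro h
          exact absurd (Finset.mem_range.2 (by omega)) h
    rw [Finset.sum_congr rfl h1, Finset.sum_add_distrib]
    split_ifs with h
    · rw [h, Finset.sum_eq_single w0, Finset.sum_eq_single (f * e - w0)]
      · have hpar' := hpar.par w0 (f * e - w0) (by
          rw [Nat.add_sub_cancel' hwlt.le]
          exact dvd_mul_right f e)
        rw [if_pos rfl, if_pos (mul_comm _ _), hpar']
        push_cast
        ring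
      · intro w hw hw1
        rw [if_neg, mul_zero]
        intro h
        apply hw1
        rw [mul_comm] at h
        exact Nat.eq_of_mul_eq_mul_left (by omega) h
      · intro h
        exact absurd (Finset.mem_Icc.2 ⟨by omega, by omega⟩) h
      · intro w hw hw1
        rw [if_neg, mul_zero, mul_zero]
        intro h
        exact hw1 (Nat.eq_of_mul_eq_mul_right (by omega) h)
      · intro h
        exact absurd (Finset.mem_Icc.2 ⟨hw1, hwlt.le⟩) h
    · have hlt : d < e := by omega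
      rw [Finset.sum_eq_zero, Finset.sum_eq_zero]
      · ring
      · intro w hw
        rw [if_neg, mul_zero]
        intro h2
        have h3 : e ∣ d * (f * e - w0) := ⟨w, by rw [← h2]; ring⟩
        have h5 : e ∣ d * w0 := by
          have h6 : d * (f * e - w0) + d * w0 = e * (d * f) := by
            rw [← mul_add, Nat.sub_add_cancel hwlt.le]; ring
          exact (Nat.dvd_add_right h3).1 ⟨_, h6⟩
        have h4 : e ∣ d := hcope.dvd_of_dvd_mul_right h5
        exact absurd (Nat.le_of_dvd (by omega) h4) (by omega)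
      · intro w hw
        rw [if_neg, mul_zero, mul_zero]
        intro h2
        have h3 : e ∣ d * w0 := ⟨w, by rw [mul_comm d, ← h2]; ring⟩
        have h4 : e ∣ d := hcope.dvd_of_dvd_mul_right h3
        exact absurd (Nat.le_of_dvd (by omega) h4) (by omega)
  rw [Finset.sum_congr rfl hcount, Finset.sum_ite_eq', if_pos heB] at htel
  have h1 : ((a w0 : ℤ) : ℚ) ≠ 0 := by exact_mod_cast haw
  have h2 : ((-1 : ℚ)) ^ b ≠ 0 := pow_ne_zero _ (by norm_num)
  exact (mul_ne_zero hce (mul_ne_zero (mul_ne_zero two_ne_zero h2) h1)) htel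

end Pool.Agent.Y627.TP
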