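import Pool.Agent.Y627.TP.Stm
import Pool.Agent.Y926.TW.J_ZT

/-!
# Assembly of the zero estimate, periodic case (job TP-ZTa)
-/

set_option autoImplicit false

open Polynomial Pool.Agent.H337R2 Pool.Agent.W165.OZ Pool.Agent.Y926.LZ Pool.Agent.Y926.TW

namespace Pool.Agent.Y627.TP

noncomputable section

/-! ### degrees -/

lemma zta_card_Dva (f B : ℕ) : (Dva f B).card ≤ f * B ^ 2 := by
  unfold Dva
  rw [Finset.card_sigma]
  calc ∑ d ∈ Finset.Icc 1 B, (Finset.Icc 1 (f * d)).card ≤ ∑ _d ∈ Finset.Icc 1 B, f * B := by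
        refine Finset.sum_le_sum (fun d hd => ?_)
        rw [Nat.card_Icc]
        have := Nat.mul_le_mul_left f (Finset.mem_Icc.1 hd).2
        omega
    _ = f * B ^ 2 := by
        simp only [Finset.sum_const, Nat.card_Icc, smul_eq_mul, add_tsub_cancel_right]
        ring

lemma zta_deg_prod (n b f : ℕ) (s : Finset (Σ _ : ℕ, ℕ)) :
    (∏ q ∈ s, (Pf1 b (f * q.1) q.2 * Pf2 n b (f * q.1) q.2)).natDegree ≤ s.card * (2 * (b + 1)) := by
  refine (natDegree_prod_le _ _).trans ?_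
  rw [← smul_eq_mul, ← Finset.sum_const]
  refine Finset.sum_le_sum (fun q _ => ?_)
  refine natDegree_mul_le.trans ?_
  have h1 := zt_deg_Pf1 b (f * q.1) q.2
  have h2 := zt_deg_Pf2 n b (f * q.1) q.2
  omega

lemma zta_Pi1a_ne (n b f B : ℕ) : Pi1a n b f B ≠ 0 :=
  Finset.prod_ne_zero_iff.2 (fun _ _ => mul_ne_zero (zt_Pf1_ne _ _ _) (zt_Pf2_ne _ _ _ _))

lemma zta_deg_Pi1a (n b f B : ℕ) : (Pi1a n b f B).natDegree ≤ 2 * ((b + 1) * (f * B ^ 2)) := by
  refine (zta_deg_prod n b f (Dva f B)).trans ?_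
  have h := Nat.mul_le_mul_right (2 * (b + 1)) (zta_card_Dva f B)
  calc (Dva f B).card * (2 * (b + 1)) ≤ f * B ^ 2 * (2 * (b + 1)) := h
    _ = 2 * ((b + 1) * (f * B ^ 2)) := by ring

lemma zta_deg_etaa (n b f B : ℕ) (a : ℕ → ℤ) (d : ℕ) (hd : d ∈ Finset.Icc 1 B) :
    (etaa n b f B a d).natDegree ≤ 2 * ((b + 1) * (f * B ^ 2)) := by
  unfold etaa
  refine natDegree_sum_le_of_forall_le _ _ (fun v hv => ?_)
  refine (natDegree_C_mul_le _ _).trans ?_
  have hmem : (⟨d, v⟩ : Σ _ : ℕ, ℕ) ∈ Dva f B := by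
    unfold Dva
    exact Finset.mem_sigma.2 ⟨hd, hv⟩
  refine natDegree_mul_le.trans ?_
  have h1 := zta_deg_prod n b f ((Dva f B).erase ⟨d, v⟩)
  have h0 : ((-1 : ℚ[X]) ^ b * Pf2 n b (f * d) v).natDegree ≤ b + 1 := by
    refine natDegree_mul_le.trans ?_
    have h5 : ((-1 : ℚ[X]) ^ b).natDegree ≤ 0 := by
      refine natDegree_pow_le.trans ?_
      rw [natDegree_neg, natDegree_one, mul_zero]
    have h6 := zt_deg_Pf2 n b (f * d) v
    omega
  have h2 : ((-1 : ℚ[X]) ^ b * Pf2 n b (f * d) v + Pf1 b (f * d) v).natDegree ≤ b + 1 :=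
    natDegree_add_le_of_degree_le h0 (zt_deg_Pf1 _ _ _)
  have h3 : ((Dva f B).erase ⟨d, v⟩).card + 1 = (Dva f B).card := Finset.card_erase_add_one hmem
  have h4 := zta_card_Dva f B
  calc _ ≤ ((Dva f B).erase ⟨d, v⟩).card * (2 * (b + 1)) + (b + 1) := add_le_add h1 h2
    _ ≤ (((Dva f B).erase ⟨d, v⟩).card + 1) * (2 * (b + 1)) := by nlinarith
    _ ≤ f * B ^ 2 * (2 * (b + 1)) := by
        rw [h3]
        exact Nat.mul_le_mul_right _ h4
    _ = 2 * ((b + 1) * (f * B ^ 2)) := by ring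

/-! ### periodicity -/

lemma zta_per_mul {f b : ℕ} {a : ℕ → ℤ} (ha : Par f b a) (u k : ℕ) : a (u + k * f) = a u := by
  induction k with
  | zero => simp
  | succ k ih =>
    rw [show u + (k + 1) * f = (u + k * f) + f by ring, ha.per, ih]

lemma zta_Ca_per {f b : ℕ} {a : ℕ → ℤ} (ha : Par f b a) (B : ℕ) (c : ℕ → ℚ) (e u k : ℕ) :
    Ca f B a c e (u + e * k) = Ca f B a c e u := by
  unfold Ca
  refine Finset.sum_congr rfl (fun d hd => ?_)
  obtain ⟨_, q, hq⟩ := Finset.mem_filter.1 hd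
  congr 2
  rcases Nat.eq_zero_or_pos e with he | he
  · subst he
    simp
  · rw [hq, Nat.mul_div_cancel_left _ he]
    have h1 : (u + e * k) * q = u * q + (d * k) * f := by
      have : e * k * q = (d * k) * f := by
        calc e * k * q = k * (e * q) := by ring
          _ = k * (f * d) := by rw [hq]
          _ = (d * k) * f := by ring
      rw [add_mul, this]
    rw [h1, zta_per_mul ha]

lemma zta_Ca_neg {f b : ℕ} {a : ℕ → ℤ} (ha : Par f b a) (B : ℕ) (c : ℕ → ℚ) (e u v : ℕ)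
    (he : 0 < e) (huv : e ∣ u + v) : Ca f B a c e v = (-1) ^ b * Ca f B a c e u := by
  unfold Ca
  rw [Finset.mul_sum]
  refine Finset.sum_congr rfl (fun d hd => ?_)
  obtain ⟨_, q, hq⟩ := Finset.mem_filter.1 hd
  obtain ⟨k, hk⟩ := huv
  rw [hq, Nat.mul_div_cancel_left _ he]
  have h1 : f ∣ u * q + v * q := by
    refine ⟨d * k, ?_⟩
    calc u * q + v * q = (u + v) * q := by ring
      _ = k * (e * q) := by rw [hk]; ring
      _ = k * (f * d) := by rw [hq]
      _ = f * (d * k) := by ring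
  have h2 := ha.par _ _ h1
  rw [h2]
  push_cast
  ring

lemma zta_fea_per {f b : ℕ} {a : ℕ → ℤ} (ha : Par f b a) {m : ℕ} (B : ℕ) (w : Fin m → ℕ → ℤ)
    (Q : Fin m → ℚ[X]) (e u k : ℕ) : fea f B a w Q e (u + e * k) = fea f B a w Q e u := by
  unfold fea
  exact Finset.sum_congr rfl (fun l _ => by rw [zta_Ca_per ha])

lemma zta_fea_neg {f b : ℕ} {a : ℕ → ℤ} (ha : Par f b a) {m : ℕ} (B : ℕ) (w : Fin m → ℕ → ℤ)
    (Q : Fin m → ℚ[X]) (e u v : ℕ) (he : 0 < e) (huv : e ∣ u + v) :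
    fea f B a w Q e u = C ((-1) ^ b) * fea f B a w Q e v := by
  unfold fea
  rw [Finset.mul_sum]
  refine Finset.sum_congr rfl (fun l _ => ?_)
  rw [zta_Ca_neg ha B _ e v u he (by rwa [add_comm]), C_mul]
  ring

/-- the zeros of the `fea` -/
lemma zta_van {f : ℕ} {a : ℕ → ℤ} {m : ℕ} {b B ν L : ℕ} {w : Fin m → ℕ → ℤ} {Q : Fin m → ℚ[X]}
    (ha : Par f b a) (hV : Vana f b B ν L a w Q)
    {e : ℕ} (he : 2 ≤ e) (heB : e ≤ f * B) {u : ℤ} (hu : IsCoprime u (e : ℤ))
    (h1 : -((e : ℤ) * L) < u) (h2 : u < e * L) {u0 : ℕ} (hu0 : u0 < e) (huu : (e : ℤ) ∣ u - u0) :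
    (X - C ((u : ℚ) / e - ν)) ^ (b + 1) ∣ (fea f B a w Q e u0).comp (yp (2 * ν + 1)) := by
  rcases le_or_gt 0 u with h0 | h0
  · obtain ⟨u', rfl⟩ := Int.eq_ofNat_of_zero_le h0
    have h3 := hV e he heB u' (by exact_mod_cast h2) (Nat.isCoprime_iff_coprime.1 hu)
    obtain ⟨k, hk⟩ := huu
    have hk0 : 0 ≤ k := by
      by_contra hneg
      push Not at hneg
      have : (e : ℤ) * k ≤ e * (-1) := by
        apply mul_le_mul_of_nonneg_left (by omega) (by positivity)
      omega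
    obtain ⟨k', rfl⟩ := Int.eq_ofNat_of_zero_le hk0
    have h4 : u' = u0 + e * k' := by
      have : (u' : ℤ) = u0 + e * k' := by linarith
      exact_mod_cast this
    have h5 : fea f B a w Q e u' = fea f B a w Q e u0 := by
      rw [h4]
      exact zta_fea_per ha B w Q e u0 k'
    rw [h5] at h3
    simpa using h3
  · obtain ⟨u', hu'⟩ := Int.eq_ofNat_of_zero_le (show 0 ≤ -u by omega)
    have hu2 : u = -(u' : ℤ) := by omega
    subst hu2
    have h3 := hV e he heB u' (by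
      have : (u' : ℤ) < e * L := by linarith
      exact_mod_cast this) (Nat.isCoprime_iff_coprime.1 (IsCoprime.neg_left_iff _ _ |>.1 hu))
    have hdvd : e ∣ u0 + u' := by
      have h6 : (e : ℤ) ∣ (u0 : ℤ) + u' := by
        obtain ⟨k, hk⟩ := huu
        exact ⟨-k, by linarith⟩
      exact_mod_cast h6
    have h5 : (X - C ((u' : ℚ) / e - ν)) ^ (b + 1) ∣ (fea f B a w Q e u0).comp (yp (2 * ν + 1)) := by
      rw [zta_fea_neg ha B w Q e u0 u' (by omega) hdvd, mul_comp, C_comp]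
      exact Dvd.dvd.mul_left h3 _
    have h4 := zt_refl ν _ b _ h5
    have h6 : -(2 * ν : ℚ) - ((u' : ℚ) / e - ν) = ((-(u' : ℤ) : ℤ) : ℚ) / e - ν := by
      push_cast
      ring
    rw [h6] at h4
    exact h4

lemma zta_NN_le (f B : ℕ) (a : ℕ → ℤ) (hf : 1 ≤ f) {m : ℕ} (c : Fin m → ℕ → ℚ) :
    NNa f B a c ≤ f * B ^ 2 := by
  classical
  unfold NNa
  set T : ℕ → Finset (Σ _ : ℕ, ℕ) := fun d => (f * d).divisors.sigma fun e =>
    (Finset.range e).filter (fun u => Nat.Coprime u e) with hT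
  have hcard : ∀ d, (T d).card = f * d := by
    intro d
    rw [hT]
    simp only
    rw [Finset.card_sigma]
    have h1 : ∀ e ∈ (f * d).divisors,
        ((Finset.range e).filter (fun u => Nat.Coprime u e)).card = e.totient := by
      intro e _
      rw [Nat.totient_eq_card_coprime]
      congr 1
      ext u
      simp only [Finset.mem_filter, Finset.mem_range, Nat.coprime_comm]
    rw [Finset.sum_congr rfl h1, Nat.sum_totient]
  have hsub : sua f B a c ⊆ (Finset.Icc 1 B).biUnion T := by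
    intro q hq
    unfold sua at hq
    obtain ⟨hq1, l, hl⟩ := Finset.mem_filter.1 hq
    obtain ⟨hq2, hq3⟩ := Finset.mem_sigma.1 hq1
    unfold Ca at hl
    obtain ⟨d, hd, _⟩ := Finset.exists_ne_zero_of_sum_ne_zero hl
    obtain ⟨hd1, hd2⟩ := Finset.mem_filter.1 hd
    refine Finset.mem_biUnion.2 ⟨d, hd1, ?_⟩
    rw [hT]
    refine Finset.mem_sigma.2 ⟨Nat.mem_divisors.2 ⟨hd2, ?_⟩, hq3⟩
    have := (Finset.mem_Icc.1 hd1).1
    positivity
  calc (sua f B a c).card ≤ ((Finset.Icc 1 B).biUnion T).card := Finset.card_le_card hsub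
    _ ≤ ∑ d ∈ Finset.Icc 1 B, (T d).card := Finset.card_biUnion_le
    _ = ∑ d ∈ Finset.Icc 1 B, f * d := Finset.sum_congr rfl (fun d _ => hcard d)
    _ ≤ ∑ _d ∈ Finset.Icc 1 B, f * B := Finset.sum_le_sum (fun d hd =>
        Nat.mul_le_mul_left f (Finset.mem_Icc.1 hd).2)
    _ = f * B ^ 2 := by
        simp only [Finset.sum_const, Nat.card_Icc, smul_eq_mul, add_tsub_cancel_right]
        ring

/-- the degree inequality -/
lemma zta_ineq {m m1 D b N N1 L μ h K G n : ℕ} (hm1 : 1 ≤ m1) (hmm : m1 ≤ m) (hmL : m ≤ L)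
    (hmn : m1 < n) (hN1 : N1 ≤ K) (hsl : m1 * N ≤ m * N1)
    (h1 : m * D ≤ (b + 1) * (N * L) + μ + m)
    (h2 : μ + h * m + 2 * ((b + 1) * (K * m)) + m ≤ G)
    (h3 : 2 * D + 2 * G + 3 ≤ n * (2 * h)) (hD : 1 ≤ D) :
    m1 * (2 * D - 2) + (n * (2 * h) - 2 * G - 3) + m1 * (2 * ((b + 1) * K)) <
      2 * h * (n - m1) + (b + 1) * (N1 * (2 * L - m1)) := by
  have hm : 0 < m := by omega
  have k1 : m1 * D ≤ (b + 1) * (N1 * L) + μ + m := by
    refine Nat.le_of_mul_le_mul_left ?_ hm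
    calc m * (m1 * D) = m1 * (m * D) := by ring
      _ ≤ m1 * ((b + 1) * (N * L) + μ + m) := Nat.mul_le_mul_left _ h1
      _ = (b + 1) * L * (m1 * N) + m1 * (μ + m) := by ring
      _ ≤ (b + 1) * L * (m * N1) + m * (μ + m) := by gcongr
      _ = m * ((b + 1) * (N1 * L) + μ + m) := by ring
  zify [show 2 ≤ 2 * D by omega, show m1 ≤ n by omega, show m1 ≤ 2 * L by omega,
    show 2 * G ≤ n * (2 * h) by omega, show 3 ≤ n * (2 * h) - 2 * G by omega] at *
  have q1 : (m1 : ℤ) * (2 * D) ≤ 2 * ((b + 1) * (N1 * L)) + 2 * μ + 2 * m := by linarith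
  have q2 : (h : ℤ) * m1 ≤ h * m := by
    exact mul_le_mul_of_nonneg_left hmm (by positivity)
  have q3 : ((b : ℤ) + 1) * (K * m1) ≤ (b + 1) * (K * m) := by gcongr
  have q4 : ((b : ℤ) + 1) * (N1 * m1) ≤ (b + 1) * (K * m) := by
    have : (N1 : ℤ) * m1 ≤ K * m := by gcongr
    gcongr
  have q5 : (0 : ℤ) ≤ (b + 1) * (K * m) := by positivity
  nlinarith

/-! ### linearity -/

lemma zta_Ca_sum {m m1 : ℕ} (f B : ℕ) (a : ℕ → ℤ) (w : Fin m → ℕ → ℤ) (g : Fin m1 → Fin m → ℚ)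
    (i : Fin m1) (e u : ℕ) : Ca f B a (fun d => ∑ l, g i l * (w l d : ℚ)) e u =
      ∑ l, g i l * Ca f B a (fun d => (w l d : ℚ)) e u := by
  unfold Ca
  simp only [Finset.sum_mul]
  rw [Finset.sum_comm]
  refine Finset.sum_congr rfl (fun l _ => ?_)
  rw [Finset.mul_sum]
  exact Finset.sum_congr rfl (fun d _ => by ring)

theorem t_zta (hZE : S_ZE) (hT : S_TELEa) (hD : S_DUAL) (hR : S_RECa) (hS : S_SYMa)
    (hNo : S_NODa) : S_ZTa := by
  intro z f b B m h ν L D μ G a w Q hPar hb2 hh hB hmB hmL hmν hSlp hQ0 hQD hVan h1 h2 h3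
  by_contra hcon
  push Not at hcon
  set n : ℕ := 2 * ν + 1 with hn
  obtain ⟨hind, hzero, hslope⟩ := hSlp
  -- step 1
  have hsym := hS a z n h b f B G (Pv w Q) (by omega) hh hcon
  obtain ⟨A, hAdeg, hA⟩ := hD n h (2 * G + 1) (Esa a z n h b f B (Pv w Q)) (by omega) hh (by omega)
    hsym
  -- step 2
  obtain ⟨m1, Q', g, hm1, hm1m, hQ'ind, hgind, hQQ', hQ'D⟩ := zt_basis Q hQ0 hQD
  have hD1 : 1 ≤ D := le_trans (Nat.le_add_left _ _) (hQ'D ⟨0, hm1⟩)
  set c : Fin m1 → ℕ → ℚ := fun i d => ∑ l, g i l * (w l d : ℚ) with hc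
  have hPv : ∀ d, Pv w Q d = ∑ i, C (c i d) * Q' i := by
    intro d
    unfold Pv
    have := zt_comb (fun l => (w l d : ℚ)) g Q Q' hQQ'
    exact this
  have hfe : ∀ e u, fea f B a w Q e u = ∑ i, C (Ca f B a (c i) e u) * Q' i := by
    intro e u
    unfold fea
    rw [zt_comb (fun l => Ca f B a (fun d => (w l d : ℚ)) e u) g Q Q' hQQ']
    refine Finset.sum_congr rfl (fun i _ => ?_)
    rw [hc, zta_Ca_sum]
  -- step 3
  obtain ⟨Nd, hNd1, hNd2⟩ := hNo (sua f B a c) ν L m1 (fun q hq => by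
    classical
    unfold sua at hq
    obtain ⟨hq1, hq2⟩ := Finset.mem_sigma.1 (Finset.mem_filter.1 hq).1
    obtain ⟨hq3, hq4⟩ := Finset.mem_filter.1 hq2
    exact ⟨(Finset.mem_Icc.1 hq1).1, Finset.mem_range.1 hq3, hq4⟩) (by omega)
  have hN1 : (sua f B a c).card = NNa f B a c := rfl
  rw [hN1] at hNd1
  have hze := hZE m1 n (2 * h) b (2 * ((b + 1) * (f * B ^ 2))) (2 * D - 2)
    (n * (2 * h) - 2 * G - 3)
    (fun i => (Q' i).comp (yp n)) A (Pi1a n b f B)
    (fun i => ∑ d ∈ Finset.Icc 1 B, C (c i d) * etaa n b f B a d)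
    (fun k i => ∑ d ∈ Finset.Icc 1 B, PowerSeries.C (c i d) * bsa a z n h b f d k) Nd
  have hlin : LinearIndependent ℚ (fun i => (Q' i).comp (yp n)) := by
    have h4 := hQ'ind.map' (aeval (yp n) : ℚ[X] →ₐ[ℚ] ℚ[X]).toLinearMap (by
      rw [LinearMap.ker_eq_bot']
      intro p hp
      have h5 : p.comp (yp n) = 0 := by
        rw [← hp]
        simp [aeval_def, comp, eval₂_eq_eval_map, algebraMap_eq]
      by_contra hp0
      rcases comp_eq_zero_iff.1 h5 with h6 | ⟨_, h6⟩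
      · exact hp0 h6
      · have h7 := zt_yp_deg n
        rw [h6, natDegree_C] at h7
        omega)
    have h6 : (fun i => (Q' i).comp (yp n)) =
        ⇑((aeval (yp n) : ℚ[X] →ₐ[ℚ] ℚ[X]).toLinearMap) ∘ Q' := by
      funext i
      simp [aeval_def, comp, eval₂_eq_eval_map, algebraMap_eq]
    rw [h6]
    exact h4
  have hA2 : A.natDegree ≤ n * (2 * h) - 2 * G - 3 := by omega
  have hdegQ : ∀ i, ((Q' i).comp (yp n)).natDegree ≤ 2 * D - 2 := by
    intro i
    rw [natDegree_comp, zt_yp_deg]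
    have := hQ'D i
    omega
  have hdegeta : ∀ i, (∑ d ∈ Finset.Icc 1 B, C (c i d) * etaa n b f B a d).natDegree ≤
      2 * ((b + 1) * (f * B ^ 2)) := by
    intro i
    refine natDegree_sum_le_of_forall_le _ _ (fun d hd => ?_)
    exact (natDegree_C_mul_le _ _).trans (zta_deg_etaa n b f B a d hd)
  have hEs : ∀ k, Esa a z n h b f B (Pv w Q) k = ∑ i, TS (-(k : ℚ)) ((Q' i).comp (yp n)) *
      ∑ d ∈ Finset.Icc 1 B, PowerSeries.C (c i d) * bsa a z n h b f d k := by
    intro k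
    unfold Esa
    have h4 : ∀ d, TS (-(k : ℚ)) ((Pv w Q d).comp (yp n)) * bsa a z n h b f d k =
        ∑ i, TS (-(k : ℚ)) ((Q' i).comp (yp n)) *
          (PowerSeries.C (c i d) * bsa a z n h b f d k) := by
      intro d
      rw [hPv d, sum_comp, map_sum, Finset.sum_mul]
      refine Finset.sum_congr rfl (fun i _ => ?_)
      rw [mul_comp, C_comp, map_mul, TS_C]
      ring
    rw [Finset.sum_congr rfl (fun d _ => h4 d), Finset.sum_comm]
    exact Finset.sum_congr rfl (fun i _ => (Finset.mul_sum _ _ _).symm)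
  obtain ⟨u, v, hv, huv⟩ := hze hlin (zta_Pi1a_ne n b f B) hdegQ (by omega) hA2
    (zta_deg_Pi1a n b f B) hdegeta (by omega)
    (fun k hk => by
      have h4 := hA k hk
      rw [hEs k] at h4
      have h5 := (dvd_neg).2 h4
      rwa [neg_sub] at h5)
    (fun k hk i => by
      rw [← Finset.sum_sub_distrib, Finset.mul_sum, map_sum, ← Finset.sum_sub_distrib]
      refine Finset.dvd_sum (fun d hd => ?_)
      obtain ⟨hd1, hd2⟩ := Finset.mem_Icc.1 hd
      have h4 := hR a z n h b f B d k hPar hh hd1 hd2 hk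
      have h5 : TS (-(k : ℚ)) (Pi1a n b f B) * (PowerSeries.C (c i d) * bsa a z n h b f d (k + 1) -
          PowerSeries.C (c i d) * bsa a z n h b f d k) -
            TS (-(k : ℚ)) (C (c i d) * etaa n b f B a d) =
          PowerSeries.C (c i d) * (TS (-(k : ℚ)) (Pi1a n b f B) *
            (bsa a z n h b f d (k + 1) - bsa a z n h b f d k) -
              TS (-(k : ℚ)) (etaa n b f B a d)) := by
        rw [map_mul, TS_C]
        ring
      rw [h5]
      exact Dvd.dvd.mul_left h4 _)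
    (fun x hx => by
      classical
      obtain ⟨hx1, ⟨e, u0⟩, he, u', hu1, hu4, hu2, hu3, hxe⟩ := hNd2 x hx
      simp only at hu1 hu4 hu2 hu3 hxe
      unfold sua at he
      obtain ⟨he1, i0, hi0⟩ := Finset.mem_filter.1 he
      obtain ⟨he2, he3⟩ := Finset.mem_sigma.1 he1
      obtain ⟨he4, he5⟩ := Finset.mem_Icc.1 he2
      obtain ⟨he6, he7⟩ := Finset.mem_filter.1 he3
      have he8 := Finset.mem_range.1 he6
      simp only at he4 he5 he8 he7 hi0
      refine ⟨fun k => ?_, fun i => Ca f B a (c i) e u0, fun h0 => hi0 (congrFun h0 i0),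
        fun j hj => ?_⟩
      · have := hx1 (-(k : ℤ))
        push_cast at this
        exact this
      · rw [zt_sh_sum j (fun i => Ca f B a (c i) e u0) (fun i => (Q' i).comp (yp n))]
        have h5 : ∑ i, C (Ca f B a (c i) e u0) * (Q' i).comp (yp n) =
            (fea f B a w Q e u0).comp (yp n) := by
          rw [hfe e, sum_comp]
          exact Finset.sum_congr rfl (fun i _ => by rw [mul_comp, C_comp])
        rw [h5]
        refine zt_shift j x b _ ?_
        have h6 : x - j = ((u' - j * e : ℤ) : ℚ) / e - ν := by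
          have he0 : (e : ℚ) ≠ 0 := by exact_mod_cast (by omega : e ≠ 0)
          rw [hxe]
          push_cast
          field_simp
          ring
        rw [h6]
        have hj' : (j : ℤ) ≤ m1 := by exact_mod_cast hj
        have he0 : (0 : ℤ) < e := by exact_mod_cast (by omega : 0 < e)
        refine zta_van hPar hVan he4 he5 ?_ ?_ ?_ he8 ?_
        · have h7 : u' - j * e = u' + (e : ℤ) * (-j) := by ring
          rw [h7]
          exact (IsCoprime.add_mul_left_left_iff).2 hu1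
        · nlinarith
        · have : (0 : ℤ) ≤ j * e := by positivity
          linarith
        · obtain ⟨k, hk⟩ := hu4
          exact ⟨k - j, by linarith⟩)
    (by
      rw [hNd1]
      exact zta_ineq hm1 hm1m hmL (by omega) (zta_NN_le f B a hPar.pos c) (hslope m1 g hgind)
        h1 h2 h3 hD1)
  -- step 4
  have htele := hT n b f B a (c ⟨0, hm1⟩) hPar hb2 (by omega) (by
    rw [hc]
    simp only
    rw [Finset.sum_comm]
    refine Finset.sum_eq_zero (fun l _ => ?_)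
    rw [← Finset.mul_sum]
    have h4 := hzero l
    have h5 : ∑ d ∈ Finset.Icc 1 B, (w l d : ℚ) = 0 := by exact_mod_cast h4
    rw [h5, mul_zero]) (u ⟨0, hm1⟩) v hv (huv ⟨0, hm1⟩)
  have ha0 : g ⟨0, hm1⟩ = 0 := by
    funext l
    refine Fintype.linearIndependent_iff.1 hind (g ⟨0, hm1⟩) ?_ l
    funext d
    rw [Finset.sum_apply]
    simp only [Pi.smul_apply, smul_eq_mul, Pi.zero_apply]
    exact htele (d.1 + 1) (Finset.mem_Icc.2 ⟨by omega, by omega⟩)
  exact hgind.ne_zero ⟨0, hm1⟩ ha0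

end

end Pool.Agent.Y627.TP
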