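import Pool.Agent.Y627.TP.RealV
import Pool.Agent.Y627.TP.J_SLP
import Pool.Agent.Y627.TP.J_SIE
import Pool.Agent.Y627.TP.J_INT
import Pool.Agent.Y627.TP.J_ARC
import Pool.Agent.Y627.TP.J_DIF
import Pool.Agent.Y627.TP.J_ZT
import Pool.Agent.Y627.TP.J_NOD
import Pool.Agent.Y627.TP.J_REC
import Pool.Agent.Y627.TP.J_REG
import Pool.Agent.Y627.TP.J_SYM
import Pool.Agent.Y627.TP.J_TELE
import Pool.Agent.Y926.TW.J_RHO
import Pool.Agent.Y926.TW.J_COE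
import Pool.Agent.Y926.TW.J_ZE
import Pool.Agent.Y926.TW.J_CAS
import Pool.Agent.Y926.TW.J_DUAL

/-!
# Periodic analogue of project TW: all the parts
-/

open Pool.Agent.Y926.TW

namespace Pool.Agent.Y627.TP

theorem parts : Parts :=
  ⟨t_slpa, t_siea t_coe, t_inta t_rega, t_arca t_rega, t_difa,
    t_zta (t_ze t_cas) t_telea t_dual t_reca t_syma t_noda⟩

/-- the values at a fixed odd or even sequence: windows -/
theorem window_all {f b B p s D : ℕ} {a : ℕ → ℤ} (hf : 1 ≤ f)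
    (hper : ∀ u, a (u + f) = a u)
    (hpar : ∀ u v, f ∣ u + v → a v = (-1) ^ (p + 1) * a u) (hne : ∃ u, Nat.Coprime u f ∧ a u ≠ 0)
    (hb : 1 ≤ b) (hB : 1 ≤ B) (hD : 1 ≤ D)
    (hs : (150000000 : ℝ) * 512 ^ D * (b + 1) * f *
      (B * (Real.sqrt (B * Real.log (f * B + 1)) + Real.log (f * B + 1))) ≤ s) :
    ∀ᶠ q : ℕ in Filter.atTop, B ≤ Set.ncard (Far a b s p D q) :=
  window_real parts t_rho hf hper hpar hne hb hB hD hs

/-- the asymptotic form -/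
theorem asymp_all : ∃ c : ℝ, 0 < c ∧ ∀ f : ℕ, 1 ≤ f → ∃ s0 : ℕ, ∀ s ≥ s0,
    ∀ (p : ℕ) (a : ℕ → ℤ), (∀ u, a (u + f) = a u) → (∀ u v, f ∣ u + v → a v = (-1) ^ (p + 1) * a u) →
    (∃ u, Nat.Coprime u f ∧ a u ≠ 0) → ∀ D : ℕ, 1 ≤ D → (D : ℝ) ≤ Real.log s / 25 →
    ∀ᶠ q : ℕ in Filter.atTop, c / 64 ^ D * ((s : ℝ) ^ 2 / ((f : ℝ) ^ 2 * Real.log s)) ^ ((1 : ℝ) / 3) ≤
      (Set.ncard (Far a 1 s p D q) : ℝ) :=
  asymp parts t_rho

end Pool.Agent.Y627.TP
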