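import Pool.Agent.Y627.TP.FinV

/-!
# Periodic analogue of project TW: the core of the argument, approximation form
-/

open Polynomial Pool.Agent.H337R2 Pool.Agent.W165.OZ Pool.Agent.Y926.LZ Pool.Agent.Y926.TW Filter Topology

namespace Pool.Agent.Y627.TP

noncomputable section

/-- all the parts -/
structure Parts : Prop where
  slp : S_SLPa
  sie : S_SIEa
  int : S_INTa
  arc : S_ARCa
  dif : S_DIFa
  zt : S_ZTa

lemma natDegree_Qv {n D : ℕ} (c : ℕ → ℤ) (hD : 1 ≤ D) : (Qv n D c).natDegree + 1 ≤ D := by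
  have h : (Qv n D c).natDegree ≤ D - 1 := by
    unfold Qv
    refine Polynomial.natDegree_sum_le_of_forall_le _ _ fun i hi => ?_
    rw [Finset.mem_range] at hi
    refine (Polynomial.natDegree_C_mul_le _ _).trans ?_
    rw [(Gb_spec n i).2]
    omega
  omega

/-- the arithmetic of the parameters -/
lemma params {m f b B K n h ν N eq D ρ : ℕ} (hm : 1 ≤ m) (hmB : m ≤ B) (hK : 1 ≤ K) (hn : n = 2 * ν + 1)
    (hN : N ≤ 2 * m * f * B) (heq : eq = (b + 1) * (N * (2 ^ ρ * n + ν)))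
    (hD : D = (eq + (m * E1 ρ f b B / K + 1) * n) / m + 1) :
    eq + (m * E1 ρ f b B / K + 1) * n ≤ m * D ∧ m * D ≤ eq + (m * E1 ρ f b B / K + 1) * n + m ∧
    D ≤ E2 ρ f b B * n ∧ eq ≤ K * ((m * E1 ρ f b B / K + 1) * n) ∧ m * E1 ρ f b B / K + 1 ≤ M1 ρ f b B K ∧
    1 ≤ D := by
  have hn1 : 1 ≤ n := by omega
  have e1 : eq ≤ m * E1 ρ f b B * n := by
    rw [heq]
    unfold E1
    calc (b + 1) * (N * (2 ^ ρ * n + ν)) ≤ (b + 1) * (2 * m * f * B * (2 ^ (ρ + 1) * n)) := by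
          apply Nat.mul_le_mul_left
          apply Nat.mul_le_mul hN
          have h1 : 1 ≤ 2 ^ ρ := Nat.one_le_two_pow
          have h2 : n ≤ 2 ^ ρ * n := Nat.le_mul_of_pos_left _ h1
          have h3 : 2 ^ (ρ + 1) * n = 2 ^ ρ * n + 2 ^ ρ * n := by rw [pow_succ]; ring
          omega
      _ = m * (2 ^ (ρ + 2) * ((b + 1) * (f * B))) * n := by
          rw [pow_succ 2 (ρ + 1)]
          ring
  have e2 : m * E1 ρ f b B / K + 1 ≤ m * (E1 ρ f b B + 1) := by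
    have h1 : m * E1 ρ f b B / K ≤ m * E1 ρ f b B := Nat.div_le_self _ _
    calc m * E1 ρ f b B / K + 1 ≤ m * E1 ρ f b B + m := by omega
      _ = _ := by ring
  refine ⟨?_, ?_, ?_, ?_, ?_, ?_⟩
  · rw [hD]
    exact (Nat.lt_mul_div_succ _ (by omega)).le
  · rw [hD, Nat.mul_add, Nat.mul_one]
    have := Nat.mul_div_le (eq + (m * E1 ρ f b B / K + 1) * n) m
    omega
  · have h1 : (eq + (m * E1 ρ f b B / K + 1) * n) / m ≤ (2 * E1 ρ f b B + 1) * n := by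
      apply Nat.div_le_of_le_mul
      calc eq + (m * E1 ρ f b B / K + 1) * n ≤ m * E1 ρ f b B * n + m * (E1 ρ f b B + 1) * n := by
            apply Nat.add_le_add e1
            exact Nat.mul_le_mul_right _ e2
        _ = m * ((2 * E1 ρ f b B + 1) * n) := by ring
    rw [hD]
    unfold E2
    calc (eq + (m * E1 ρ f b B / K + 1) * n) / m + 1 ≤ (2 * E1 ρ f b B + 1) * n + n := by omega
      _ = _ := by ring
  · have h1 : m * E1 ρ f b B ≤ K * (m * E1 ρ f b B / K + 1) := (Nat.lt_mul_div_succ _ (by omega)).le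
    calc eq ≤ m * E1 ρ f b B * n := e1
      _ ≤ K * (m * E1 ρ f b B / K + 1) * n := Nat.mul_le_mul_right _ h1
      _ = _ := by ring
  · unfold M1
    apply Nat.succ_le_succ
    exact Nat.div_le_div_right (Nat.mul_le_mul_right _ hmB)
  · rw [hD]
    exact Nat.le_add_left 1 _

/-- **The core of the argument.** -/
theorem coreQ (P : Parts) (hRHO : S_RHO) {f b B K h Λ ρ Dv : ℕ} {a : ℕ → ℤ} (ha : Par f b a) (hb : 1 ≤ b)
    (hB : 1 ≤ B) (hK : 1 ≤ K) (hDv : 1 ≤ Dv) (hL : f * B ≤ 2 ^ Λ) (hρ : ρ = 8 * Dv + 8)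
    (hh1 : E2 ρ f b B + M1 ρ f b B K + 5 ≤ h)
    (hh2 : K * (4 * Λ * E2 ρ f b B + 4 * b + (6 + 2 * ρ) * (E2 ρ f b B + 1)) ≤ h)
    (hh3 : (6 + 2 * ρ) * E3 ρ f b B K ≤ h) (hh4 : 4 * b ≤ h) (hh5 : Dv + 1 ≤ h)
    (I : Finset ℕ) (hI : 2 * (I.card + 1) ≤ B) :
    ∀ᶠ q : ℕ in atTop, ¬ (∀ j, Odd (j + b) → b < j → j ≤ 2 * h + b → j ∉ I →
      ∃ p : ℤ, |(q : ℝ) * zra a j - p| < (q : ℝ) ^ (-(1 / (Dv : ℝ)))) := by
  classical
  have hf := ha.pos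
  -- the weights
  have hJ : (insert 0 I).card < B := by
    have := Finset.card_insert_le 0 I
    omega
  obtain ⟨m, w, hm1, hmB, hind, hw, hNN, hslope⟩ := P.slp f B a (insert 0 I) hf hJ
  obtain ⟨N, hN⟩ : ∃ N, N = NNa f B a (fun l d => (w l d : ℚ)) := ⟨_, rfl⟩
  have hNle : N ≤ 2 * m * f * B := by
    rw [← hN] at hNN
    have h1 : B ≤ 2 * (B - (insert 0 I).card) := by
      have := Finset.card_insert_le 0 I
      omega
    have h2 : N * B ≤ 2 * m * f * B * B := by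
      calc N * B ≤ N * (2 * (B - (insert 0 I).card)) := Nat.mul_le_mul_left _ h1
        _ = 2 * (N * (B - (insert 0 I).card)) := by ring
        _ ≤ 2 * (m * (f * B ^ 2)) := Nat.mul_le_mul_left _ hNN
        _ = _ := by ring
    exact Nat.le_of_mul_le_mul_right h2 hB
  have hw0 : ∀ l, ∑ d ∈ Finset.Icc 1 B, w l d = 0 := by
    intro l
    have := hw l 0 (Finset.mem_insert_self _ _)
    simpa using this
  have hwI : ∀ l, ∀ j ∈ I, WW B (w l) j = 0 := fun l j hj => hw l j (Finset.mem_insert_of_mem hj)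
  obtain ⟨α, hα⟩ := ha.bound
  obtain ⟨Wd, hWd⟩ : ∃ Wd : ℕ, (Wd : ℤ) = ∑ d ∈ Finset.Icc 1 B, ∑ l, |w l d| :=
    ⟨(∑ d ∈ Finset.Icc 1 B, ∑ l, |w l d|).toNat, Int.toNat_of_nonneg
      (Finset.sum_nonneg fun _ _ => Finset.sum_nonneg fun _ _ => abs_nonneg _)⟩
  obtain ⟨W, hW⟩ : ∃ W, W = (α + 1) * Wd + 1 := ⟨_, rfl⟩
  have hWW : ∑ d ∈ Finset.Icc 1 B, ∑ l, |w l d| ≤ (W : ℤ) := by
    rw [← hWd, hW]
    push_cast
    have h1 : (0 : ℤ) ≤ α := by positivity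
    have h2 : (0 : ℤ) ≤ Wd := by positivity
    nlinarith
  have hWs : ∀ l, ∀ e u, |∑ d ∈ (Finset.Icc 1 B).filter (fun d => e ∣ f * d), w l d * a (u * (f * d / e))| ≤
      (W : ℤ) := by
    intro l e u
    calc |∑ d ∈ (Finset.Icc 1 B).filter (fun d => e ∣ f * d), w l d * a (u * (f * d / e))|
        ≤ ∑ d ∈ (Finset.Icc 1 B).filter (fun d => e ∣ f * d), |w l d * a (u * (f * d / e))| :=
          Finset.abs_sum_le_sum_abs _ _
      _ ≤ ∑ d ∈ (Finset.Icc 1 B).filter (fun d => e ∣ f * d), |w l d| * α := by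
          apply Finset.sum_le_sum
          intro d _
          rw [abs_mul]
          exact mul_le_mul_of_nonneg_left (hα _) (abs_nonneg _)
      _ ≤ ∑ d ∈ Finset.Icc 1 B, |w l d| * α :=
          Finset.sum_le_sum_of_subset_of_nonneg (Finset.filter_subset _ _) fun _ _ _ => by positivity
      _ ≤ ∑ d ∈ Finset.Icc 1 B, (∑ l, |w l d|) * α := by
          apply Finset.sum_le_sum
          intro d _
          apply mul_le_mul_of_nonneg_right _ (by positivity)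
          exact Finset.single_le_sum (f := fun l => |w l d|) (fun _ _ => abs_nonneg _) (Finset.mem_univ l)
      _ = Wd * α := by rw [← Finset.sum_mul, ← hWd]
      _ ≤ W := by
          rw [hW]
          push_cast
          have h1 : (0 : ℤ) ≤ α := by positivity
          have h2 : (0 : ℤ) ≤ Wd := by positivity
          nlinarith
  -- the constants
  obtain ⟨T, hT⟩ : ∃ T : ℕ, T = 2 ^ (Dv * (16 * h + 2)) := ⟨_, rfl⟩
  have hT1 : 1 < T := by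
    rw [hT]
    exact Nat.one_lt_two_pow (Nat.mul_ne_zero (by omega) (by omega))
  obtain ⟨C1, hC1⟩ : ∃ C : ℝ, C = (((T ^ 2 : ℕ) : ℝ) * α * W * E2 ρ f b B * (B * E2 ρ f b B * W) ^ K * 2 * 4 ^ (h + 1) *
    (f * B) ^ 2 * (2 ^ ρ) ^ 3) := ⟨_, rfl⟩
  obtain ⟨C2, hC2⟩ : ∃ C : ℝ, C = (((1 : ℕ) : ℝ) * (2 * h) * 2 ^ (2 * h + b) * 4 ^ h * 8 * E2 ρ f b B *
    (B * E2 ρ f b B * W) ^ K * (W * ((f * B : ℕ) : ℝ) ^ (2 * h + b)) * ((1 : ℕ) : ℝ)) := ⟨_, rfl⟩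
  -- the choice of `n`
  obtain ⟨n0, hn0⟩ := eventually_atTop.1 ((Dl_le.and (eventually_small2 C1 (K + 4))).and
    (eventually_small2 C2 (K + 2 * h + 3)))
  obtain ⟨ν0, hν0⟩ : ∃ ν0, ν0 = h * m + 2 * ((b + 1) * (f * B ^ 2 * m)) + m + B + 1 := ⟨_, rfl⟩
  filter_upwards [eventually_ge_atTop (T ^ (n0 + 2 * ν0 + 3))] with q hqT hz
  have hq0 : 0 < q := lt_of_lt_of_le (pow_pos (by omega) _) hqT
  have hlog : n0 + 2 * ν0 + 3 ≤ Nat.log T q := (Nat.le_log_iff_pow_le hT1 (by omega)).2 hqT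
  obtain ⟨ν, hνd⟩ : ∃ ν, ν = (Nat.log T q - 1) / 2 := ⟨_, rfl⟩
  obtain ⟨n, hn⟩ : ∃ n, n = 2 * ν + 1 := ⟨_, rfl⟩
  have hν : ν0 ≤ ν := by omega
  have hn0n : n0 ≤ n := by omega
  have hTn : T ^ n ≤ q := (Nat.pow_le_pow_right (by omega) (by omega)).trans (Nat.pow_log_le_self T (by omega))
  have hqT2 : q ≤ T ^ n * T ^ 2 := by
    rw [← pow_add]
    exact (Nat.lt_pow_succ_log_self hT1 q).le.trans (Nat.pow_le_pow_right (by omega) (by omega))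
  obtain ⟨⟨hnD, hnC1⟩, hnC2⟩ := hn0 n hn0n
  have hn1 : 1 ≤ n := by omega
  -- the approximations
  have hz1 : ∀ j, ∃ p : ℤ, (Odd (j + b) → b < j → j ≤ 2 * h + b → j ∉ I →
      |(q : ℝ) * zra a j - p| < (q : ℝ) ^ (-(1 / (Dv : ℝ)))) := by
    intro j
    by_cases hc : Odd (j + b) ∧ b < j ∧ j ≤ 2 * h + b ∧ j ∉ I
    · obtain ⟨p, hp⟩ := hz j hc.1 hc.2.1 hc.2.2.1 hc.2.2.2
      exact ⟨p, fun _ _ _ _ => hp⟩
    · exact ⟨0, fun h1 h2 h3 h4 => absurd ⟨h1, h2, h3, h4⟩ hc⟩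
  choose p hp using hz1
  obtain ⟨z, hzd⟩ : ∃ z : ℕ → ℚ, z = fun j => (p j : ℚ) / (q : ℚ) := ⟨_, rfl⟩
  have hqz : ∀ j, ∃ y : ℤ, (q : ℚ) * z j = y := by
    intro j
    refine ⟨p j, ?_⟩
    rw [hzd]
    have : (q : ℚ) ≠ 0 := by exact_mod_cast hq0.ne'
    field_simp
  have hqr : (0 : ℝ) < q := by exact_mod_cast hq0
  obtain ⟨δ, hδ⟩ : ∃ δ : ℝ, δ = 1 / (q * 2 ^ ((16 * h + 2) * n)) := ⟨_, rfl⟩
  have hδ0 : 0 ≤ δ := by rw [hδ]; positivity
  have hqpow : (q : ℝ) ^ (-(1 / (Dv : ℝ))) ≤ 1 / 2 ^ ((16 * h + 2) * n) := by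
    have hDv' : (0 : ℝ) < Dv := by exact_mod_cast hDv
    have h1 : ((2 : ℝ) ^ ((16 * h + 2) * n)) ^ Dv ≤ q := by
      have h2 : ((2 : ℕ) ^ ((16 * h + 2) * n)) ^ Dv ≤ q := by
        refine le_trans (le_of_eq ?_) hTn
        rw [hT, ← pow_mul, ← pow_mul]
        congr 1
        ring
      exact_mod_cast h2
    have h3 : (2 : ℝ) ^ ((16 * h + 2) * n) ≤ (q : ℝ) ^ (1 / (Dv : ℝ)) := by
      have h4 : (2 : ℝ) ^ ((16 * h + 2) * n) = (((2 : ℝ) ^ ((16 * h + 2) * n)) ^ Dv) ^ (1 / (Dv : ℝ)) := by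
        rw [← Real.rpow_natCast (((2 : ℝ) ^ ((16 * h + 2) * n))) Dv, ← Real.rpow_mul (by positivity),
          mul_one_div_cancel hDv'.ne', Real.rpow_one]
      rw [h4]
      exact Real.rpow_le_rpow (by positivity) h1 (by positivity)
    rw [Real.rpow_neg hqr.le, ← one_div]
    exact one_div_le_one_div_of_le (by positivity) h3
  have hzδ : ∀ j, Odd (j + b) → b < j → j ≤ 2 * h + b → j ∉ I → |zra a j - (z j : ℝ)| ≤ δ := by
    intro j h1 h2 h3 h4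
    have h5 := (hp j h1 h2 h3 h4).le.trans hqpow
    have h6 : zra a j - (z j : ℝ) = ((q : ℝ) * zra a j - p j) / q := by
      rw [hzd]
      push_cast
      field_simp
    rw [h6, abs_div, abs_of_pos hqr, hδ, div_le_iff₀ hqr]
    refine h5.trans (le_of_eq ?_)
    field_simp
  obtain ⟨eq, heq⟩ : ∃ eq, eq = (b + 1) * (N * (2 ^ ρ * n + ν)) := ⟨_, rfl⟩
  obtain ⟨D, hD⟩ : ∃ D, D = (eq + (m * E1 ρ f b B / K + 1) * n) / m + 1 := ⟨_, rfl⟩
  obtain ⟨p1, p2, p3, p4, p5, p6⟩ := params (h := h) hm1 hmB hK hn hNle heq hD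
  obtain ⟨M0, hM0⟩ : ∃ M0, M0 = m * E1 ρ f b B / K + 1 := ⟨_, rfl⟩
  rw [← hM0] at p1 p2 p4 p5
  have hM01 : 1 ≤ M0 := by rw [hM0]; exact Nat.le_add_left 1 _
  have hr2 : 2 ≤ 2 ^ ρ := by
    rw [hρ]
    calc 2 = 2 ^ 1 := rfl
      _ ≤ 2 ^ (8 * Dv + 8) := Nat.pow_le_pow_right (by norm_num) (by omega)
  obtain ⟨base, hbase⟩ : ∃ base, base = m * D * (W * (f * B) ^ (4 * D) * Dl n 1 ^ b *
    (54 * (2 ^ ρ) ^ 2) ^ (D + n)) := ⟨_, rfl⟩
  have hDl : 1 ≤ Dl n 1 := PRaux.Dl_pos n 1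
  have hW1 : 1 ≤ W := by omega
  have hbase1 : 1 ≤ base := by
    rw [hbase]
    have hfB : 0 < f * B := Nat.mul_pos (by omega) (by omega)
    have : 0 < m * D * (W * (f * B) ^ (4 * D) * Dl n 1 ^ b * (54 * (2 ^ ρ) ^ 2) ^ (D + n)) := by
      have hm0 : 0 < m := by omega
      have hD0 : 0 < D := by omega
      have hW0 : 0 < W := by omega
      have hDl0 : 0 < Dl n 1 := by omega
      positivity
    exact this
  obtain ⟨H, hH⟩ : ∃ H, H = base ^ K := ⟨_, rfl⟩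
  -- Siegel's lemma
  obtain ⟨c, hcne, hcH, hV⟩ := P.sie f b B m ν (2 ^ ρ) D W (M0 * n) H a w ha hB
    (Nat.mul_pos (by omega) (by omega)) hW1 hr2 (by omega) hWs (by
      rw [← hN, ← hn, ← heq]
      exact p1) (by
      rw [← hN, ← hn, ← heq, ← hbase, hH, ← pow_mul]
      exact Nat.pow_le_pow_right hbase1 p4)
  rw [← hn] at hV hcne
  -- the zero estimate
  have hGn : (M0 + 1) * n ≤ (M1 ρ f b B K + 1) * n := Nat.mul_le_mul_right _ (by omega)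
  have hDn : D ≤ E2 ρ f b B * n := p3
  have hhn : 2 * D + 2 * ((M0 + 1) * n) + 4 * n + 3 ≤ 2 * h * n := by
    calc 2 * D + 2 * ((M0 + 1) * n) + 4 * n + 3
        ≤ 2 * (E2 ρ f b B * n) + 2 * ((M1 ρ f b B K + 1) * n) + 8 * n := by omega
      _ = 2 * (E2 ρ f b B + M1 ρ f b B K + 5) * n := by ring
      _ ≤ 2 * h * n := Nat.mul_le_mul_right _ (Nat.mul_le_mul_left _ hh1)
  have hcomm : n * (2 * h) = 2 * h * n := by ring
  have hnr : n ≤ 2 ^ ρ * n := Nat.le_mul_of_pos_left _ (by omega)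
  obtain ⟨i, hi, hne⟩ := P.zt z f b B m h ν (2 ^ ρ * n + ν) D (M0 * n) ((M0 + 1) * n) a w
    (fun l => Qv n D (c l)) ha hb (by omega) hB hmB (by omega) (by omega)
    ⟨hind, hw0, hslope⟩ hcne (fun l => natDegree_Qv _ p6) hV (by
      rw [← hN, ← heq]
      exact p2) (by
      have : (M0 + 1) * n = M0 * n + n := by ring
      rw [this]
      omega) (by rw [← hn, hcomm]; omega)
  rw [← hn] at hne
  -- integrality
  have hdegi : 2 * (i + D) + 3 ≤ n * (2 * h) := by rw [hcomm]; omega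
  obtain ⟨M, hM⟩ := P.int z f b B m h ν (2 ^ ρ * n + ν) D i q a w c ha (by omega) (by rw [← hn]; exact hdegi)
    hw0 (by rw [hn] at hV ⊢; exact hV) (fun j hj1 hj2 hj3 => Or.inr (hqz j))
  rw [← hn] at hM
  -- the forms
  have hdegl : ∀ l, 2 * (Gb n i * Qv n D (c l)).natDegree + 3 ≤ n * (2 * h) := by
    intro l
    have h1 := Polynomial.natDegree_mul_le (p := Gb n i) (q := Qv n D (c l))
    rw [(Gb_spec n i).2] at h1
    have h2 := natDegree_Qv (n := n) (c l) p6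
    omega
  obtain ⟨R, hR⟩ : ∃ R : ℚ, R = 4 ^ h * (8 * (n : ℚ) ^ 2) * (D * H * 216 ^ (i + D + 2 * n)) *
    ((n : ℚ) * 4 ^ n) ^ (2 * h) := ⟨_, rfl⟩
  have hdif := P.dif z n h b f B m a w (Gb n i) (fun l => Qv n D (c l)) R W δ ha hn1 hB hb hδ0
    (by rw [hR]; positivity)
    hdegl (fun l j hj => by
      rw [hR]
      exact hRHO n h D i j H (c l) hn1 hj (fun i => hcH l i))
    hWW (fun j hj1 hj2 hj3 => by
      by_cases hjI : j ∈ I
      · exact Or.inl fun l => hwI l j hjI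
      · exact Or.inr (hzδ j hj1 hj2 hj3 hjI))
  have harc := P.arc f b B m h ν (2 ^ ρ) D i W H α a w c ha hb hr2 (by omega) hα
    (by rw [← hn]; omega) hw0 hcH hWW (by rw [hn] at hV; exact hV)
  rw [← hn] at harc
  -- the contradiction
  have hiE3 : i + D + 2 * n ≤ E3 ρ f b B K * n := by
    unfold E3
    calc i + D + 2 * n ≤ (M1 ρ f b B K + 1) * n + E2 ρ f b B * n + 2 * n := by omega
      _ = _ := by ring
  have hest1 := est1 (n := n) (h := h) (b := b) (E2 := E2 ρ f b B) (E3 := E3 ρ f b B K) (K := K) (Λ := Λ) (ρ := ρ)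
    (Dv := Dv) (D := D) (i := i) (W := W) (α := α) (q := T ^ n) (e0 := T ^ 2) (B := B) (f := f) (m := m)
    (Dn := Dl n 1) hn1 hDn hiE3 (by omega) (by exact_mod_cast hnD) hmB hB hf hL hW1 hρ hh2 hh3 hh4 hh5
    (by rw [hT])
  have hest2 := est2 (n := n) (h := h) (b := b) (E2 := E2 ρ f b B) (E3 := E3 ρ f b B K) (K := K) (Λ := Λ) (ρ := ρ)
    (Dv := Dv) (D := D) (i := i) (W := W) (e0 := 1) (B := B) (f := f) (m := m)
    (Dn := Dl n 1) (Y := 1) hn1 hDn hiE3 (by exact_mod_cast hnD) hmB hB hf hL hW1 hρ hh2 hh3 hh4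
  rw [← hbase, ← hH, ← hC1] at hest1
  rw [← hbase, ← hH, ← hC2] at hest2
  have hMne : M ≠ 0 := by
    rintro rfl
    rw [Int.cast_zero] at hM
    have hq' : (q : ℚ) ≠ 0 := by exact_mod_cast hq0.ne'
    have hD' : (Dl n 1 : ℚ) ^ (2 * h + b) ≠ 0 := by
      apply pow_ne_zero
      exact_mod_cast (by omega : Dl n 1 ≠ 0)
    exact (mul_ne_zero (mul_ne_zero hq' hD') hne) hM
  have h1 : (1 : ℝ) ≤ |(M : ℝ)| := by
    have : 1 ≤ |M| := Int.one_le_abs hMne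
    exact_mod_cast this
  have h2 : (M : ℝ) = (q : ℝ) * (Dl n 1 : ℝ) ^ (2 * h + b) *
      (LQa a z n h b f B (fun d => Gb n i * Pv w (fun l => Qv n D (c l)) d) : ℝ) := by
    have := congrArg (fun x : ℚ => (x : ℝ)) hM
    push_cast at this
    exact this.symm
  rw [h2, abs_mul, abs_of_nonneg (by positivity : (0 : ℝ) ≤ (q : ℝ) * (Dl n 1 : ℝ) ^ (2 * h + b))] at h1
  obtain ⟨LQ0, hLQ0⟩ : ∃ x : ℝ, x = (LQa a z n h b f B (fun d => Gb n i * Pv w (fun l => Qv n D (c l)) d) : ℝ) :=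
    ⟨_, rfl⟩
  obtain ⟨SD0, hSD0⟩ : ∃ x : ℝ, x = ∑ d ∈ Finset.Icc 1 B, Sda a n h b f d (KP n h
      (Gb n i * Pv w (fun l => Qv n D (c l)) d)) := ⟨_, rfl⟩
  rw [← hLQ0] at h1 hdif
  rw [← hSD0] at hdif harc
  obtain ⟨A1, hA1⟩ : ∃ x : ℝ, x = α * W * (D * H * (2 * (M8 n h (f * B) (2 ^ ρ) (i + D + 2 * n) : ℝ))) := ⟨_, rfl⟩
  rw [← hA1] at harc hest1
  obtain ⟨A2, hA2⟩ : ∃ x : ℝ, x = 2 * h * (2 ^ (2 * h + b) * R * (W * ((f * B : ℕ) : ℝ) ^ (2 * h + b)) * δ) := ⟨_, rfl⟩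
  rw [← hA2] at hdif
  have hA10 : 0 ≤ A1 := (abs_nonneg _).trans harc
  have h3 : |LQ0| ≤ A1 + A2 := by
    calc |LQ0| = |SD0 - (SD0 - LQ0)| := by rw [sub_sub_cancel]
      _ ≤ |SD0| + |SD0 - LQ0| := abs_sub _ _
      _ ≤ A1 + A2 := add_le_add harc hdif
  have h4 : (q : ℝ) * (Dl n 1 : ℝ) ^ (2 * h + b) * A1 < 1 / 2 := by
    refine lt_of_le_of_lt (le_trans ?_ hest1) hnC1
    have h5 : (q : ℝ) ≤ ((T ^ n * T ^ 2 : ℕ) : ℝ) := by exact_mod_cast hqT2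
    gcongr
  have h5 : (q : ℝ) * (Dl n 1 : ℝ) ^ (2 * h + b) * A2 < 1 / 2 := by
    refine lt_of_le_of_lt (le_trans (le_of_eq ?_) hest2) hnC2
    rw [hA2, hR, hδ]
    push_cast
    field_simp
  have h6 : (q : ℝ) * (Dl n 1 : ℝ) ^ (2 * h + b) * |LQ0| ≤
      (q : ℝ) * (Dl n 1 : ℝ) ^ (2 * h + b) * (A1 + A2) := by gcongr
  rw [mul_add] at h6
  linarith

end

end Pool.Agent.Y627.TP
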