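import Pool.Agent.Y627.TP.Stm
import Pool.Agent.Y926.LZ.Fin

/-!
# Periodic analogue of project TW: the final argument, for rational subspaces
-/

open Polynomial Pool.Agent.H337R2 Pool.Agent.W165.OZ Pool.Agent.Y926.LZ Pool.Agent.Y926.TW Filter Topology

namespace Pool.Agent.Y627.TP

noncomputable section

lemma Par.bound {f b : ℕ} {a : ℕ → ℤ} (ha : Par f b a) : ∃ α : ℕ, ∀ u, |a u| ≤ (α : ℤ) := by
  refine ⟨(∑ u ∈ Finset.range f, |a u|).toNat, fun u => ?_⟩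
  have h0 : 0 ≤ ∑ u ∈ Finset.range f, |a u| := Finset.sum_nonneg fun _ _ => abs_nonneg _
  rw [Int.toNat_of_nonneg h0]
  have hp : Function.Periodic a f := ha.per
  rw [← hp.map_mod_nat u]
  exact Finset.single_le_sum (f := fun u => |a u|) (fun _ _ => abs_nonneg _)
    (Finset.mem_range.2 (Nat.mod_lt _ ha.pos))

/-- the first constant: `(b + 1) N L ≤ m E1 n` -/
def E1 (ρ f b B : ℕ) : ℕ := 2 ^ (ρ + 2) * ((b + 1) * (f * B))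

/-- `D ≤ E2 n` -/
def E2 (ρ f b B : ℕ) : ℕ := 2 * E1 ρ f b B + 2

/-- `μ = M0 n`, `M0 ≤ M1` -/
def M1 (ρ f b B K : ℕ) : ℕ := B * E1 ρ f b B / K + 1

/-- `i + D + 2 n ≤ E3 n` -/
def E3 (ρ f b B K : ℕ) : ℕ := M1 ρ f b B K + 1 + E2 ρ f b B + 2

lemma eventually_small2 (c : ℝ) (k : ℕ) : ∀ᶠ n : ℕ in atTop, c * ((n : ℝ) ^ k * (1 / 2 : ℝ) ^ n) < 1 / 2 := by
  have h1 := eventually_small (q := (1 / 2 : ℝ)) (by norm_num) (by norm_num) (2 * c) k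
  filter_upwards [h1] with n hn
  linarith

/-- the size of the coefficients from Siegel's lemma -/
lemma H_le {n b E2 K Λ ρ D W B f m Dn : ℕ} (hn : 1 ≤ n) (hD : D ≤ E2 * n) (hDn : Dn ≤ 16 ^ n) (hm : m ≤ B)
    (hB : 1 ≤ B) (hf : 1 ≤ f) (hL : f * B ≤ 2 ^ Λ) (hW : 1 ≤ W) :
    ((((m * D * (W * (f * B) ^ (4 * D) * Dn ^ b * (54 * (2 ^ ρ) ^ 2) ^ (D + n))) ^ K : ℕ)) : ℝ) ≤
      (B * E2 * W * n) ^ K * (2 ^ (K * (4 * Λ * E2 + 4 * b + (6 + 2 * ρ) * (E2 + 1)))) ^ n := by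
  have hn' : (1 : ℝ) ≤ n := by exact_mod_cast hn
  have hB' : (1 : ℝ) ≤ B := by exact_mod_cast hB
  have hf' : (1 : ℝ) ≤ f := by exact_mod_cast hf
  have hW' : (1 : ℝ) ≤ W := by exact_mod_cast hW
  have hD' : (D : ℝ) ≤ E2 * n := by exact_mod_cast hD
  have hDn' : (Dn : ℝ) ≤ 16 ^ n := by exact_mod_cast hDn
  have hm' : (m : ℝ) ≤ B := by exact_mod_cast hm
  have hL' : (f : ℝ) * B ≤ 2 ^ Λ := by exact_mod_cast hL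
  have hE2 : (0 : ℝ) ≤ E2 := by positivity
  have h1 : (((m * D * (W * (f * B) ^ (4 * D) * Dn ^ b * (54 * (2 ^ ρ) ^ 2) ^ (D + n))) : ℕ) : ℝ) ≤
      (B * E2 * W * n) * (2 ^ ((4 * Λ * E2 + 4 * b + (6 + 2 * ρ) * (E2 + 1)) * n)) := by
    push_cast
    have e1 : ((f : ℝ) * B) ^ (4 * D) ≤ 2 ^ (4 * Λ * E2 * n) := by
      calc ((f : ℝ) * B) ^ (4 * D) ≤ (2 ^ Λ) ^ (4 * D) := by gcongr
        _ = 2 ^ (Λ * (4 * D)) := by rw [← pow_mul]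
        _ ≤ 2 ^ (4 * Λ * E2 * n) := by
            apply pow_le_pow_right₀ (by norm_num)
            calc Λ * (4 * D) ≤ Λ * (4 * (E2 * n)) := by gcongr
              _ = _ := by ring
    have e2 : (Dn : ℝ) ^ b ≤ 2 ^ (4 * b * n) := by
      calc (Dn : ℝ) ^ b ≤ (16 ^ n) ^ b := by gcongr
        _ = 2 ^ (4 * b * n) := by
            rw [show (16 : ℝ) = 2 ^ 4 by norm_num, ← pow_mul, ← pow_mul]
            congr 1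
            ring
    have e3 : (54 * ((2 : ℝ) ^ ρ) ^ 2) ^ (D + n) ≤ 2 ^ ((6 + 2 * ρ) * (E2 + 1) * n) := by
      calc (54 * ((2 : ℝ) ^ ρ) ^ 2) ^ (D + n) ≤ (2 ^ (6 + 2 * ρ)) ^ (D + n) := by
            apply pow_le_pow_left₀ (by positivity)
            rw [pow_add, mul_comm 2 ρ, pow_mul _ ρ 2]
            have : (0 : ℝ) ≤ ((2 : ℝ) ^ ρ) ^ 2 := by positivity
            nlinarith
        _ = 2 ^ ((6 + 2 * ρ) * (D + n)) := by rw [← pow_mul]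
        _ ≤ 2 ^ ((6 + 2 * ρ) * (E2 + 1) * n) := by
            apply pow_le_pow_right₀ (by norm_num)
            calc (6 + 2 * ρ) * (D + n) ≤ (6 + 2 * ρ) * (E2 * n + n) := by gcongr
              _ = _ := by ring
    calc (m : ℝ) * D * (W * ((f : ℝ) * B) ^ (4 * D) * (Dn : ℝ) ^ b * (54 * ((2 : ℝ) ^ ρ) ^ 2) ^ (D + n))
        ≤ B * (E2 * n) * (W * 2 ^ (4 * Λ * E2 * n) * 2 ^ (4 * b * n) * 2 ^ ((6 + 2 * ρ) * (E2 + 1) * n)) := by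
          gcongr
      _ = _ := by
          have e4 : (2 : ℝ) ^ ((4 * Λ * E2 + 4 * b + (6 + 2 * ρ) * (E2 + 1)) * n) =
              2 ^ (4 * Λ * E2 * n) * 2 ^ (4 * b * n) * 2 ^ ((6 + 2 * ρ) * (E2 + 1) * n) := by
            rw [← pow_add, ← pow_add]
            congr 1
            ring
          rw [e4]
          ring
  rw [Nat.cast_pow]
  calc _ ≤ ((B * E2 * W * n) * (2 ^ ((4 * Λ * E2 + 4 * b + (6 + 2 * ρ) * (E2 + 1)) * n)) : ℝ) ^ K :=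
        pow_le_pow_left₀ (by positivity) h1 K
    _ = _ := by
        rw [mul_pow, ← pow_mul, ← pow_mul]
        congr 2
        ring

lemma Dn_le {n h b Dn : ℕ} (hDn : Dn ≤ 16 ^ n) : (Dn : ℝ) ^ (2 * h + b) ≤ (2 ^ (8 * h + 4 * b)) ^ n := by
  have hDn' : (Dn : ℝ) ≤ 16 ^ n := by exact_mod_cast hDn
  calc (Dn : ℝ) ^ (2 * h + b) ≤ (16 ^ n) ^ (2 * h + b) := by gcongr
    _ = (2 ^ (8 * h + 4 * b)) ^ n := by
        rw [show (16 : ℝ) = 2 ^ 4 by norm_num, ← pow_mul, ← pow_mul, ← pow_mul]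
        congr 1
        ring

/-- the first exponential estimate -/
lemma est1 {n h b E2 E3 K Λ ρ Dv D i W α q e0 B f m Dn : ℕ} (hn : 1 ≤ n)
    (hD : D ≤ E2 * n) (hi : i + D + 2 * n ≤ E3 * n) (hE3h : 2 * (i + D + 2 * n) + 3 ≤ 2 * h * n)
    (hDn : Dn ≤ 16 ^ n) (hm : m ≤ B) (hB : 1 ≤ B) (hf : 1 ≤ f) (hL : f * B ≤ 2 ^ Λ)
    (hW : 1 ≤ W) (hρ : ρ = 8 * Dv + 8) (hX : K * (4 * Λ * E2 + 4 * b + (6 + 2 * ρ) * (E2 + 1)) ≤ h)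
    (h3 : (6 + 2 * ρ) * E3 ≤ h) (hb4 : 4 * b ≤ h) (hDv : Dv + 1 ≤ h) (hq : q ≤ (2 ^ (Dv * (16 * h + 2))) ^ n) :
    ((q * e0 : ℕ) : ℝ) * (Dn : ℝ) ^ (2 * h + b) * (α * W * (D * (((m * D * (W * (f * B) ^ (4 * D) * Dn ^ b *
      (54 * (2 ^ ρ) ^ 2) ^ (D + n))) ^ K : ℕ) : ℝ) *
      (2 * (M8 n h (f * B) (2 ^ ρ) (i + D + 2 * n) : ℝ)))) ≤
    (e0 * α * W * E2 * (B * E2 * W) ^ K * 2 * 4 ^ (h + 1) * (f * B) ^ 2 * (2 ^ ρ) ^ 3) *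
      ((n : ℝ) ^ (K + 4) * (1 / 2 : ℝ) ^ n) := by
  have h2 := H_le (b := b) (K := K) (ρ := ρ) hn hD hDn hm hB hf hL hW
  have h5 := Dn_le (h := h) (b := b) hDn
  have hn' : (1 : ℝ) ≤ n := by exact_mod_cast hn
  have hD' : (D : ℝ) ≤ E2 * n := by exact_mod_cast hD
  have hq' : (q : ℝ) ≤ (2 ^ (Dv * (16 * h + 2))) ^ n := by exact_mod_cast hq
  obtain ⟨Hh, hHh⟩ : ∃ Hh : ℝ, Hh = (((m * D * (W * (f * B) ^ (4 * D) * Dn ^ b *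
      (54 * (2 ^ ρ) ^ 2) ^ (D + n))) ^ K : ℕ) : ℝ) := ⟨_, rfl⟩
  have hHh0 : 0 ≤ Hh := by rw [hHh]; exact Nat.cast_nonneg _
  rw [← hHh] at h2 ⊢
  obtain ⟨X, hXd⟩ : ∃ X, X = K * (4 * Λ * E2 + 4 * b + (6 + 2 * ρ) * (E2 + 1)) := ⟨_, rfl⟩
  rw [← hXd] at h2 hX
  -- the archimedean bound
  have hM8 : (M8 n h (f * B) (2 ^ ρ) (i + D + 2 * n) : ℝ) ≤
      4 ^ (h + 1) * n * (2 ^ ((6 + 2 * ρ) * E3)) ^ n * (2 ^ ρ) ^ 3 / (2 ^ (2 * ρ * h)) ^ n * (f * B * n) ^ 2 := by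
    unfold M8
    push_cast
    obtain ⟨E, hE⟩ : ∃ E, E = i + D + 2 * n := ⟨_, rfl⟩
    rw [← hE] at hi hE3h ⊢
    obtain ⟨e, he⟩ : ∃ e, 2 * h * n = 2 * E + 3 + e := ⟨2 * h * n - (2 * E + 3), by omega⟩
    have h4 : 2 * h * n - (2 * E + 1) - 2 = e := by omega
    rw [h4]
    have h6 : ((2 : ℝ) ^ (2 * ρ * h)) ^ n = (2 ^ ρ) ^ (2 * E + 3) * (2 ^ ρ) ^ e := by
      rw [← pow_add, ← he, ← pow_mul, ← pow_mul]
      congr 1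
      ring
    rw [h6]
    have h7 : (54 : ℝ) ^ E * ((2 : ℝ) ^ ρ) ^ (2 * E) ≤ (2 ^ ((6 + 2 * ρ) * E3)) ^ n := by
      calc (54 : ℝ) ^ E * ((2 : ℝ) ^ ρ) ^ (2 * E) = (54 * ((2 : ℝ) ^ ρ) ^ 2) ^ E := by rw [pow_mul, ← mul_pow]
        _ ≤ (2 ^ (6 + 2 * ρ)) ^ E := by
            apply pow_le_pow_left₀ (by positivity)
            rw [pow_add, mul_comm 2 ρ, pow_mul _ ρ 2]
            have : (0 : ℝ) ≤ ((2 : ℝ) ^ ρ) ^ 2 := by positivity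
            nlinarith
        _ ≤ (2 ^ (6 + 2 * ρ)) ^ (E3 * n) := pow_le_pow_right₀ (one_le_pow₀ (by norm_num)) hi
        _ = _ := by rw [← pow_mul, ← pow_mul, mul_assoc]
    have h8 : (4 : ℝ) ^ (h + 1) * n * 54 ^ E / (2 ^ ρ) ^ e ≤
        4 ^ (h + 1) * n * (2 ^ ((6 + 2 * ρ) * E3)) ^ n * (2 ^ ρ) ^ 3 / ((2 ^ ρ) ^ (2 * E + 3) * (2 ^ ρ) ^ e) := by
      rw [div_le_div_iff₀ (by positivity) (by positivity)]
      calc (4 : ℝ) ^ (h + 1) * n * 54 ^ E * ((2 ^ ρ) ^ (2 * E + 3) * (2 ^ ρ) ^ e)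
          = 4 ^ (h + 1) * n * (54 ^ E * (2 ^ ρ) ^ (2 * E)) * (2 ^ ρ) ^ 3 * (2 ^ ρ) ^ e := by
            rw [pow_add ((2 : ℝ) ^ ρ) (2 * E) 3]
            ring
        _ ≤ 4 ^ (h + 1) * n * (2 ^ ((6 + 2 * ρ) * E3)) ^ n * (2 ^ ρ) ^ 3 * (2 ^ ρ) ^ e := by gcongr
    exact mul_le_mul_of_nonneg_right h8 (by positivity)
  have h4 : (0 : ℝ) ≤ (M8 n h (f * B) (2 ^ ρ) (i + D + 2 * n) : ℝ) := by
    have : 0 ≤ M8 n h (f * B) (2 ^ ρ) (i + D + 2 * n) := by unfold M8; positivity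
    exact_mod_cast this
  have h6 : ((2 : ℝ) ^ (Dv * (16 * h + 2))) ^ n * (((2 : ℝ) ^ (8 * h + 4 * b)) ^ n * ((2 ^ X) ^ n *
      ((2 ^ ((6 + 2 * ρ) * E3)) ^ n / (2 ^ (2 * ρ * h)) ^ n))) ≤ (1 / 2) ^ n := by
    rw [← div_pow, ← mul_pow, ← mul_pow, ← mul_pow]
    apply pow_le_pow_left₀ (by positivity)
    rw [mul_div_assoc', mul_div_assoc', mul_div_assoc', div_le_div_iff₀ (by positivity) (by norm_num), one_mul,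
      ← pow_add, ← pow_add, ← pow_add, ← pow_succ]
    apply pow_le_pow_right₀ (by norm_num)
    rw [hρ] at h3 ⊢
    have e1 : 2 * (8 * Dv + 8) * h = 16 * (Dv * h) + 16 * h := by ring
    have e2 : Dv * (16 * h + 2) = 16 * (Dv * h) + 2 * Dv := by ring
    rw [e1, e2]
    omega
  calc ((q * e0 : ℕ) : ℝ) * (Dn : ℝ) ^ (2 * h + b) * (α * W * (D * Hh *
      (2 * (M8 n h (f * B) (2 ^ ρ) (i + D + 2 * n) : ℝ))))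
      = (q : ℝ) * e0 * (Dn : ℝ) ^ (2 * h + b) * (α * W * (D * Hh *
      (2 * (M8 n h (f * B) (2 ^ ρ) (i + D + 2 * n) : ℝ)))) := by push_cast; ring
    _ ≤ (2 ^ (Dv * (16 * h + 2))) ^ n * e0 * (2 ^ (8 * h + 4 * b)) ^ n * (α * W * (E2 * n *
        ((B * E2 * W * n) ^ K * (2 ^ X) ^ n) *
        (2 * (4 ^ (h + 1) * n * (2 ^ ((6 + 2 * ρ) * E3)) ^ n * (2 ^ ρ) ^ 3 / (2 ^ (2 * ρ * h)) ^ n *
          (f * B * n) ^ 2)))) := by gcongr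
    _ = (e0 * α * W * E2 * (B * E2 * W) ^ K * 2 * 4 ^ (h + 1) * (f * B) ^ 2 * (2 ^ ρ) ^ 3) * n ^ (K + 4) *
        (((2 : ℝ) ^ (Dv * (16 * h + 2))) ^ n * (((2 : ℝ) ^ (8 * h + 4 * b)) ^ n * ((2 ^ X) ^ n *
          ((2 ^ ((6 + 2 * ρ) * E3)) ^ n / (2 ^ (2 * ρ * h)) ^ n)))) := by
        rw [mul_pow ((B : ℝ) * E2 * W) n K]
        ring
    _ ≤ (e0 * α * W * E2 * (B * E2 * W) ^ K * 2 * 4 ^ (h + 1) * (f * B) ^ 2 * (2 ^ ρ) ^ 3) * n ^ (K + 4) *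
        (1 / 2) ^ n := by gcongr
    _ = _ := by ring

/-- the second exponential estimate -/
lemma est2 {n h b E2 E3 K Λ ρ Dv D i W e0 B f m Dn Y : ℕ} (hn : 1 ≤ n)
    (hD : D ≤ E2 * n) (hi : i + D + 2 * n ≤ E3 * n)
    (hDn : Dn ≤ 16 ^ n) (hm : m ≤ B) (hB : 1 ≤ B) (hf : 1 ≤ f) (hL : f * B ≤ 2 ^ Λ)
    (hW : 1 ≤ W) (hρ : ρ = 8 * Dv + 8) (hX : K * (4 * Λ * E2 + 4 * b + (6 + 2 * ρ) * (E2 + 1)) ≤ h)
    (h3 : (6 + 2 * ρ) * E3 ≤ h) (hb4 : 4 * b ≤ h) :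
    (e0 : ℝ) * (Dn : ℝ) ^ (2 * h + b) * (2 * h * (2 ^ (2 * h + b) *
      (4 ^ h * (8 * (n : ℝ) ^ 2) * (D * (((m * D * (W * (f * B) ^ (4 * D) * Dn ^ b *
      (54 * (2 ^ ρ) ^ 2) ^ (D + n))) ^ K : ℕ) : ℝ) * 216 ^ (i + D + 2 * n)) * ((n : ℝ) * 4 ^ n) ^ (2 * h)) *
      (W * ((f * B : ℕ) : ℝ) ^ (2 * h + b)) * (Y / 2 ^ ((16 * h + 2) * n)))) ≤
    (e0 * (2 * h) * 2 ^ (2 * h + b) * 4 ^ h * 8 * E2 * (B * E2 * W) ^ K * (W * ((f * B : ℕ) : ℝ) ^ (2 * h + b)) * Y) *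
      ((n : ℝ) ^ (K + 2 * h + 3) * (1 / 2 : ℝ) ^ n) := by
  have h2 := H_le (b := b) (K := K) (ρ := ρ) hn hD hDn hm hB hf hL hW
  have h5 := Dn_le (h := h) (b := b) hDn
  have hn' : (1 : ℝ) ≤ n := by exact_mod_cast hn
  have hD' : (D : ℝ) ≤ E2 * n := by exact_mod_cast hD
  obtain ⟨Hh, hHh⟩ : ∃ Hh : ℝ, Hh = (((m * D * (W * (f * B) ^ (4 * D) * Dn ^ b *
      (54 * (2 ^ ρ) ^ 2) ^ (D + n))) ^ K : ℕ) : ℝ) := ⟨_, rfl⟩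
  have hHh0 : 0 ≤ Hh := by rw [hHh]; exact Nat.cast_nonneg _
  rw [← hHh] at h2 ⊢
  obtain ⟨X, hXd⟩ : ∃ X, X = K * (4 * Λ * E2 + 4 * b + (6 + 2 * ρ) * (E2 + 1)) := ⟨_, rfl⟩
  rw [← hXd] at h2 hX
  obtain ⟨F, hF⟩ : ∃ F : ℝ, F = ((f * B : ℕ) : ℝ) := ⟨_, rfl⟩
  have hF0 : 0 ≤ F := by rw [hF]; exact Nat.cast_nonneg _
  rw [← hF]
  have h7 : (216 : ℝ) ^ (i + D + 2 * n) ≤ (2 ^ (8 * E3)) ^ n := by
    calc (216 : ℝ) ^ (i + D + 2 * n) ≤ (2 ^ 8) ^ (i + D + 2 * n) := by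
          apply pow_le_pow_left₀ (by norm_num)
          norm_num
      _ ≤ (2 ^ 8) ^ (E3 * n) := pow_le_pow_right₀ (by norm_num) hi
      _ = _ := by rw [← pow_mul, ← pow_mul, mul_assoc]
  have h8 : ((n : ℝ) * 4 ^ n) ^ (2 * h) = (n : ℝ) ^ (2 * h) * (2 ^ (4 * h)) ^ n := by
    rw [mul_pow, show (4 : ℝ) = 2 ^ 2 by norm_num, ← pow_mul, ← pow_mul, ← pow_mul]
    congr 2
    ring
  have h9 : (2 : ℝ) ^ ((16 * h + 2) * n) = (2 ^ (16 * h + 2)) ^ n := by rw [← pow_mul]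
  rw [h8, h9]
  have h6 : ((2 : ℝ) ^ (8 * h + 4 * b)) ^ n * ((2 ^ X) ^ n * ((2 ^ (8 * E3)) ^ n *
      ((2 ^ (4 * h)) ^ n / (2 ^ (16 * h + 2)) ^ n))) ≤ (1 / 2) ^ n := by
    rw [← div_pow, ← mul_pow, ← mul_pow, ← mul_pow]
    apply pow_le_pow_left₀ (by positivity)
    rw [mul_div_assoc', mul_div_assoc', mul_div_assoc', div_le_div_iff₀ (by positivity) (by norm_num), one_mul,
      ← pow_add, ← pow_add, ← pow_add, ← pow_succ]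
    apply pow_le_pow_right₀ (by norm_num)
    have e1 : 8 * E3 ≤ (6 + 2 * ρ) * E3 := Nat.mul_le_mul_right _ (by omega)
    omega
  calc (e0 : ℝ) * (Dn : ℝ) ^ (2 * h + b) * (2 * h * (2 ^ (2 * h + b) *
      (4 ^ h * (8 * (n : ℝ) ^ 2) * (D * Hh * 216 ^ (i + D + 2 * n)) * ((n : ℝ) ^ (2 * h) * (2 ^ (4 * h)) ^ n)) *
      (W * F ^ (2 * h + b)) * (Y / (2 ^ (16 * h + 2)) ^ n)))
      ≤ (e0 : ℝ) * (2 ^ (8 * h + 4 * b)) ^ n * (2 * h * (2 ^ (2 * h + b) *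
      (4 ^ h * (8 * (n : ℝ) ^ 2) * (E2 * n * ((B * E2 * W * n) ^ K * (2 ^ X) ^ n) * (2 ^ (8 * E3)) ^ n) *
        ((n : ℝ) ^ (2 * h) * (2 ^ (4 * h)) ^ n)) *
      (W * F ^ (2 * h + b)) * (Y / (2 ^ (16 * h + 2)) ^ n))) := by gcongr
    _ = (e0 * (2 * h) * 2 ^ (2 * h + b) * 4 ^ h * 8 * E2 * (B * E2 * W) ^ K * (W * F ^ (2 * h + b)) * Y) *
        n ^ (K + 2 * h + 3) *
        (((2 : ℝ) ^ (8 * h + 4 * b)) ^ n * ((2 ^ X) ^ n * ((2 ^ (8 * E3)) ^ n *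
          ((2 ^ (4 * h)) ^ n / (2 ^ (16 * h + 2)) ^ n)))) := by
        rw [mul_pow ((B : ℝ) * E2 * W) n K]
        ring
    _ ≤ (e0 * (2 * h) * 2 ^ (2 * h + b) * 4 ^ h * 8 * E2 * (B * E2 * W) ^ K * (W * F ^ (2 * h + b)) * Y) *
        n ^ (K + 2 * h + 3) * (1 / 2) ^ n := by gcongr
    _ = _ := by ring

end

end Pool.Agent.Y627.TP
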