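import Pool.Agent.Y627.TP.CoreV

/-!
# Periodic analogue of project TW: the parameters, approximation form
-/

open Polynomial Pool.Agent.H337R2 Pool.Agent.W165.OZ Pool.Agent.Y926.LZ Pool.Agent.Y926.TW Filter Topology

namespace Pool.Agent.Y627.TP

noncomputable section

/-- the parameter `Λ + 6` -/
def Lp (f B : ℕ) : ℕ := Nat.clog 2 (f * B) + 6

/-- the parameter `S`, about `√(B log (f B)) + log (f B)` -/
def Sp' (f B : ℕ) : ℕ := Nat.sqrt (B * Lp f B) + Lp f B + 1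

/-- the parameter `h` -/
def hp (Dv f b B : ℕ) : ℕ := 152 * (Dv * (Sp' f B * E1 (8 * Dv + 8) f b B))

/-- the choice of the parameters -/
theorem core2 (P : Parts) (hRHO : S_RHO) {f b B Dv : ℕ} {a : ℕ → ℤ} (ha : Par f b a) (hb : 1 ≤ b) (hB : 1 ≤ B)
    (hDv : 1 ≤ Dv) (I : Finset ℕ) (hI : 2 * (I.card + 1) ≤ B) :
    ∀ᶠ q : ℕ in atTop, ¬ (∀ j, Odd (j + b) → b < j → j ≤ 2 * hp Dv f b B + b → j ∉ I →
      ∃ p : ℤ, |(q : ℝ) * zra a j - p| < (q : ℝ) ^ (-(1 / (Dv : ℝ)))) := by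
  have hf := ha.pos
  obtain ⟨Λ, hΛ⟩ : ∃ Λ, Λ = Nat.clog 2 (f * B) := ⟨_, rfl⟩
  obtain ⟨L, hL⟩ : ∃ L, L = Λ + 6 := ⟨_, rfl⟩
  have hLp : Lp f B = L := by rw [hL, hΛ]; rfl
  obtain ⟨S, hS⟩ : ∃ S, S = Nat.sqrt (B * L) + L + 1 := ⟨_, rfl⟩
  have hSp : Sp' f B = S := by rw [hS, ← hLp]; rfl
  obtain ⟨K, hK⟩ : ∃ K, K = S / L + 1 := ⟨_, rfl⟩
  obtain ⟨ρ, hρ⟩ : ∃ ρ, ρ = 8 * Dv + 8 := ⟨_, rfl⟩
  obtain ⟨E, hE⟩ : ∃ E, E = E1 ρ f b B := ⟨_, rfl⟩
  have hS2 : B * L ≤ S * S := by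
    have h1 : Nat.sqrt (B * L) + 1 ≤ S := by omega
    exact (Nat.lt_succ_sqrt (B * L)).le.trans (Nat.mul_le_mul h1 h1)
  have hLS : L ≤ S := by omega
  have hL6 : 6 ≤ L := by omega
  have hKL1 : S ≤ K * L := by
    rw [hK, Nat.mul_comm]
    exact (Nat.lt_mul_div_succ S (by omega)).le
  have hKL2 : K * L ≤ 2 * S := by
    rw [hK, Nat.add_mul, Nat.one_mul]
    have := Nat.div_mul_le_self S L
    omega
  have hSK : B ≤ S * K := by
    have h1 : B * L ≤ S * K * L := by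
      calc B * L ≤ S * S := hS2
        _ ≤ S * (K * L) := Nat.mul_le_mul_left _ hKL1
        _ = _ := by ring
    exact Nat.le_of_mul_le_mul_right h1 (by omega)
  have hS1 : 1 ≤ S := by omega
  have hEb : 4 * (b + 1) ≤ E := by
    rw [hE]
    unfold E1
    have : 1 ≤ f * B := Nat.mul_pos (by omega) (by omega)
    have h4 : 4 ≤ 2 ^ (ρ + 2) := by
      calc 4 = 2 ^ 2 := rfl
        _ ≤ 2 ^ (ρ + 2) := Nat.pow_le_pow_right (by norm_num) (by omega)
    calc 4 * (b + 1) = 4 * ((b + 1) * 1) := by ring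
      _ ≤ _ := Nat.mul_le_mul h4 (Nat.mul_le_mul_left _ this)
  have hM1 : M1 ρ f b B K ≤ S * E + 1 := by
    unfold M1
    rw [← hE]
    apply Nat.succ_le_succ
    apply Nat.div_le_of_le_mul
    calc B * E ≤ S * K * E := Nat.mul_le_mul_right _ hSK
      _ = _ := by ring
  have hE2 : E2 ρ f b B = 2 * E + 2 := by rw [hE]; rfl
  have hSE : E ≤ S * E := Nat.le_mul_of_pos_left _ (by omega)
  have hDSE : S * E ≤ Dv * (S * E) := Nat.le_mul_of_pos_left _ (by omega)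
  have hE8 : 8 ≤ E := by omega
  have hDvE : Dv ≤ Dv * (S * E) := Nat.le_mul_of_pos_right _ (by omega)
  have hhp : hp Dv f b B = 152 * (Dv * (S * E)) := by
    unfold hp
    rw [hSp, ← hρ, ← hE]
  rw [hhp]
  refine coreQ P hRHO (K := K) (Λ := Λ) (ρ := ρ) (Dv := Dv) (h := 152 * (Dv * (S * E))) ha hb hB
    (by rw [hK]; exact Nat.le_add_left 1 _) hDv
    (by rw [hΛ]; exact Nat.le_pow_clog (by norm_num) _) hρ ?_ ?_ ?_ ?_ ?_ I hI
  · rw [hE2]
    omega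
  · rw [hE2]
    have h2 : 4 * Λ * (2 * E + 2) + 4 * b + (6 + 2 * ρ) * (2 * E + 2 + 1) ≤ 20 * (Dv * (L * E)) := by
      have h3 : Λ ≤ Λ * E := Nat.le_mul_of_pos_right _ (by omega)
      have h4 : 4 * Λ * (2 * E + 2) = 8 * (Λ * E) + 8 * Λ := by ring
      have h5 : 20 * (Dv * (L * E)) = 20 * (Dv * (Λ * E)) + 120 * (Dv * E) := by rw [hL]; ring
      have h6 : 8 * Λ ≤ Λ * E := by
        calc 8 * Λ = Λ * 8 := by ring
          _ ≤ Λ * E := Nat.mul_le_mul_left _ (by omega)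
      have h7 : Λ * E ≤ Dv * (Λ * E) := Nat.le_mul_of_pos_left _ (by omega)
      have h8 : (6 + 2 * ρ) * (2 * E + 2 + 1) ≤ 114 * (Dv * E) := by
        rw [hρ]
        calc (6 + 2 * (8 * Dv + 8)) * (2 * E + 2 + 1) ≤ (38 * Dv) * (3 * E) := by
              apply Nat.mul_le_mul
              · omega
              · omega
          _ = _ := by ring
      have h9 : E ≤ Dv * E := Nat.le_mul_of_pos_left _ (by omega)
      rw [h4, h5]
      omega
    calc K * (4 * Λ * (2 * E + 2) + 4 * b + (6 + 2 * ρ) * (2 * E + 2 + 1)) ≤ K * (20 * (Dv * (L * E))) :=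
          Nat.mul_le_mul_left _ h2
      _ = 20 * (Dv * ((K * L) * E)) := by ring
      _ ≤ 20 * (Dv * ((2 * S) * E)) := by
          apply Nat.mul_le_mul_left
          apply Nat.mul_le_mul_left
          exact Nat.mul_le_mul_right _ hKL2
      _ = 40 * (Dv * (S * E)) := by ring
      _ ≤ _ := Nat.mul_le_mul_right _ (by norm_num)
  · have h1 : E3 ρ f b B K ≤ 4 * (S * E) := by
      unfold E3
      rw [hE2]
      omega
    calc (6 + 2 * ρ) * E3 ρ f b B K ≤ (38 * Dv) * (4 * (S * E)) := by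
          apply Nat.mul_le_mul _ h1
          rw [hρ]
          omega
      _ = _ := by ring
  · omega
  · omega

/-- sums over the exponents of the right parity -/
theorem window_nat (P : Parts) (hRHO : S_RHO) {f b B p s Dv : ℕ} {a : ℕ → ℤ} (hf : 1 ≤ f)
    (hper : ∀ u, a (u + f) = a u) (hpar : ∀ u v, f ∣ u + v → a v = (-1) ^ (p + 1) * a u)
    (hne : ∃ u, Nat.Coprime u f ∧ a u ≠ 0) (hb : 1 ≤ b) (hB : 1 ≤ B) (hDv : 1 ≤ Dv)
    (hs : 2 * hp Dv f (b + 1) B + (b + 1) ≤ s) :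
    ∀ᶠ q : ℕ in atTop, B < 2 * (Set.ncard {j : ℕ | b < j ∧ j ≤ s ∧ j % 2 = p % 2 ∧
      ∀ y : ℤ, (q : ℝ) ^ (-(1 / (Dv : ℝ))) ≤ |(q : ℝ) * (∑' n : ℕ, (a (n + 1) : ℝ) / ((n : ℝ) + 1) ^ j) - y|} + 1) := by
  classical
  -- the choice of `b'`
  obtain ⟨b', hb'1, hb'2, hb'p⟩ : ∃ b', b ≤ b' ∧ b' ≤ b + 1 ∧ b' % 2 = (p + 1) % 2 := by
    rcases Nat.even_or_odd (b + p) with h | h
    · exact ⟨b + 1, by omega, by omega, by obtain ⟨k, hk⟩ := h; omega⟩
    · exact ⟨b, by omega, by omega, by obtain ⟨k, hk⟩ := h; omega⟩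
  have hsign : ((-1 : ℤ)) ^ (p + 1) = (-1) ^ b' := by
    rw [neg_one_pow_eq_pow_mod_two (n := p + 1), neg_one_pow_eq_pow_mod_two (n := b'), hb'p]
  have ha : Par f b' a := ⟨hf, hper, fun u v h => by rw [hpar u v h, hsign], hne⟩
  have hhp : hp Dv f b' B ≤ hp Dv f (b + 1) B := by
    unfold hp E1
    apply Nat.mul_le_mul_left
    apply Nat.mul_le_mul_left
    apply Nat.mul_le_mul_left
    apply Nat.mul_le_mul_left
    apply Nat.mul_le_mul_right
    omega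
  have hall : ∀ᶠ q : ℕ in atTop, ∀ I ∈ (Finset.range (s + 1)).powerset, 2 * (I.card + 1) ≤ B →
      ¬ (∀ j, Odd (j + b') → b' < j → j ≤ 2 * hp Dv f b' B + b' → j ∉ I →
        ∃ p : ℤ, |(q : ℝ) * zra a j - p| < (q : ℝ) ^ (-(1 / (Dv : ℝ)))) := by
    rw [Filter.eventually_all_finset]
    intro I _
    by_cases hI : 2 * (I.card + 1) ≤ B
    · filter_upwards [core2 P hRHO ha (by omega) hB hDv I hI] with q hq _
      exact hq
    · exact Filter.Eventually.of_forall fun q h => absurd h hI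
  filter_upwards [hall] with q hq
  by_contra hlt
  rw [not_lt] at hlt
  have hfin : {j : ℕ | b < j ∧ j ≤ s ∧ j % 2 = p % 2 ∧
      ∀ y : ℤ, (q : ℝ) ^ (-(1 / (Dv : ℝ))) ≤
        |(q : ℝ) * (∑' n : ℕ, (a (n + 1) : ℝ) / ((n : ℝ) + 1) ^ j) - y|}.Finite :=
    (Set.finite_Iic s).subset fun j hj => hj.2.1
  refine hq hfin.toFinset ?_ ?_ ?_
  · rw [Finset.mem_powerset]
    intro j hj
    rw [Set.Finite.mem_toFinset] at hj
    rw [Finset.mem_range]
    have := hj.2.1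
    omega
  · rw [← Set.ncard_eq_toFinset_card _ hfin]
    exact hlt
  · intro j hj1 hj2 hj3 hj4
    rw [Set.Finite.mem_toFinset] at hj4
    by_contra hcon
    push Not at hcon
    apply hj4
    refine ⟨by omega, by omega, ?_, hcon⟩
    obtain ⟨k, hk⟩ := hj1
    omega

end

end Pool.Agent.Y627.TP
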