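import Pool.Agent.Y627.TP.MainV
import Pool.Agent.Y926.LZ.Main
import Pool.Agent.TH818.SA.Sub

/-!
# Periodic analogue of project TW: the final forms
-/

open Polynomial Pool.Agent.H337R2 Pool.Agent.W165.OZ Pool.Agent.Y926.LZ Pool.Agent.Y926.TW Filter Topology

namespace Pool.Agent.Y627.TP

noncomputable section

lemma Lp_le {f B : ℕ} (hf : 1 ≤ f) (hB : 1 ≤ B) : (Lp f (16 * B) : ℝ) ≤ 18 * Real.log (f * B + 1) := by
  have h1 := clog_le (B := f * (16 * B)) (Nat.mul_pos (by omega) (by omega))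
  have h2 := log_lb (B := f * B) (Nat.mul_pos (by omega) (by omega))
  have hf' : (1 : ℝ) ≤ f := by exact_mod_cast hf
  have hB' : (1 : ℝ) ≤ B := by exact_mod_cast hB
  have h3 : Real.log (((f * (16 * B) : ℕ) : ℝ) + 1) ≤ 2.78 + Real.log (f * B + 1) := by
    have h4 : ((f * (16 * B) : ℕ) : ℝ) + 1 ≤ 16 * (f * B + 1) := by
      push_cast
      nlinarith
    have h5 : Real.log 16 ≤ 2.78 := by
      have : Real.log 16 = 4 * Real.log 2 := by
        rw [show (16 : ℝ) = 2 ^ 4 by norm_num, Real.log_pow]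
        norm_num
      rw [this]
      have := Real.log_two_lt_d9
      linarith
    calc Real.log (((f * (16 * B) : ℕ) : ℝ) + 1) ≤ Real.log (16 * (f * B + 1)) :=
          Real.log_le_log (by positivity) h4
      _ = Real.log 16 + Real.log (f * B + 1) := Real.log_mul (by norm_num) (by positivity)
      _ ≤ _ := by linarith
  unfold Lp
  push_cast at h1 h2 h3 ⊢
  linarith

/-- the exponents for which `q · ∑ a(n)/n^j` is not closer than `q^(-1/D)` to an integer -/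
def Far (a : ℕ → ℤ) (b s p D q : ℕ) : Set ℕ := {j : ℕ | b < j ∧ j ≤ s ∧ j % 2 = p % 2 ∧
  ∀ y : ℤ, (q : ℝ) ^ (-(1 / (D : ℝ))) ≤ |(q : ℝ) * (∑' n : ℕ, (a (n + 1) : ℝ) / ((n : ℝ) + 1) ^ j) - y|}

lemma Far_finite (a : ℕ → ℤ) (b s p D q : ℕ) : (Far a b s p D q).Finite :=
  (Set.finite_Iic s).subset fun _ hj => hj.2.1

theorem window_real (P : Parts) (hRHO : S_RHO) {f b B p s D : ℕ} {a : ℕ → ℤ} (hf : 1 ≤ f)
    (hper : ∀ u, a (u + f) = a u)
    (hpar : ∀ u v, f ∣ u + v → a v = (-1) ^ (p + 1) * a u) (hne : ∃ u, Nat.Coprime u f ∧ a u ≠ 0)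
    (hb : 1 ≤ b) (hB : 1 ≤ B) (hD : 1 ≤ D)
    (hs : (150000000 : ℝ) * 512 ^ D * (b + 1) * f *
      (B * (Real.sqrt (B * Real.log (f * B + 1)) + Real.log (f * B + 1))) ≤ s) :
    ∀ᶠ q : ℕ in atTop, B ≤ Set.ncard (Far a b s p D q) := by
  have hf' : (1 : ℝ) ≤ f := by exact_mod_cast hf
  have hB' : (1 : ℝ) ≤ B := by exact_mod_cast hB
  have hb' : (1 : ℝ) ≤ b := by exact_mod_cast hb
  obtain ⟨l, hl⟩ : ∃ l, l = Real.log (f * B + 1) := ⟨_, rfl⟩
  have hl1 : 69 / 100 ≤ l := by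
    rw [hl]
    have h2 := log_lb (B := f * B) (Nat.mul_pos (by omega) (by omega))
    push_cast at h2
    exact h2
  obtain ⟨q, hq⟩ : ∃ q, q = Real.sqrt (B * l) := ⟨_, rfl⟩
  have hq2 : q * q = B * l := by rw [hq]; exact Real.mul_self_sqrt (by positivity)
  have hq0 : 0 ≤ q := by rw [hq]; exact Real.sqrt_nonneg _
  have hq1 : 83 / 100 ≤ q := by
    rw [hq]
    apply Real.le_sqrt_of_sq_le
    nlinarith
  have hS : (Sp' f (16 * B) : ℝ) ≤ 19 * (q + l) := by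
    unfold Sp'
    have h1 : (Nat.sqrt (16 * B * Lp f (16 * B)) : ℝ) ≤ 17 * q := by
      have h2 : ((Nat.sqrt (16 * B * Lp f (16 * B)) : ℕ) : ℝ) ≤
          Real.sqrt ((16 * B * Lp f (16 * B) : ℕ) : ℝ) := Real.nat_sqrt_le_real_sqrt
      refine h2.trans ?_
      apply Real.sqrt_le_iff.2
      refine ⟨by positivity, ?_⟩
      push_cast
      have h3 := Lp_le (f := f) (B := B) hf hB
      rw [← hl] at h3
      calc 16 * (B : ℝ) * (Lp f (16 * B) : ℝ) ≤ 16 * B * (18 * l) := by gcongr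
        _ = 288 * (q * q) := by rw [hq2]; ring
        _ ≤ (17 * q) ^ 2 := by nlinarith [mul_self_nonneg q]
    have h3 := Lp_le (f := f) (B := B) hf hB
    rw [← hl] at h3
    push_cast
    linarith
  have hC1 : (1 : ℝ) ≤ 512 ^ D := one_le_pow₀ (by norm_num)
  have hDC : (D : ℝ) * 256 ^ D ≤ 512 ^ D := by
    have h1 : (D : ℝ) ≤ 2 ^ D := by exact_mod_cast (Nat.lt_two_pow_self (n := D)).le
    calc (D : ℝ) * 256 ^ D ≤ 2 ^ D * 256 ^ D := by gcongr
      _ = 512 ^ D := by rw [← mul_pow]; norm_num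
  have h2 := window_nat P hRHO (B := 16 * B) (p := p) (s := s) (Dv := D) hf hper hpar hne hb (by omega) hD (by
    have h3 : ((2 * hp D f (b + 1) (16 * B) + (b + 1) : ℕ) : ℝ) ≤ s := by
      refine le_trans ?_ hs
      rw [← hl, ← hq]
      unfold hp E1
      push_cast
      have h4 : (1 : ℝ) ≤ f * B := by nlinarith
      have h5 : ((b : ℝ) + 1 + 1) ≤ 3 / 2 * (b + 1) := by linarith
      have h9 : (2 : ℝ) ^ (8 * D + 8 + 2) = 1024 * 256 ^ D := by
        rw [show 8 * D + 8 + 2 = 10 + 8 * D by ring, pow_add, pow_mul]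
        norm_num
      rw [h9]
      have hl0 : 0 ≤ l := by linarith
      calc 2 * (152 * ((D : ℝ) * ((Sp' f (16 * B) : ℝ) * (1024 * 256 ^ D * (((b : ℝ) + 1 + 1) * (f * (16 * B))))))) +
            (b + 1)
          ≤ 2 * (152 * ((D : ℝ) * ((19 * (q + l)) * (1024 * 256 ^ D * ((3 / 2 * (b + 1)) * (f * (16 * B))))))) +
            (b + 1) := by gcongr
        _ = 141950976 * ((D : ℝ) * 256 ^ D) * ((b + 1) * f * (B * (q + l))) + (b + 1) := by ring
        _ ≤ 141950976 * 512 ^ D * ((b + 1) * f * (B * (q + l))) + 2 * 512 ^ D * ((b + 1) * f * (B * (q + l))) := by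
            have h6 : (1 : ℝ) ≤ 2 * (f * B * (q + l)) := by nlinarith
            have h7 : ((b : ℝ) + 1) * 1 ≤ (b + 1) * (2 * (f * B * (q + l))) := by gcongr
            have h8 : ((b : ℝ) + 1) * (2 * (f * B * (q + l))) ≤ 512 ^ D * ((b + 1) * (2 * (f * B * (q + l)))) :=
              le_mul_of_one_le_left (by positivity) hC1
            have h10 : 141950976 * ((D : ℝ) * 256 ^ D) * ((b + 1) * f * (B * (q + l))) ≤
                141950976 * 512 ^ D * ((b + 1) * f * (B * (q + l))) := by gcongr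
            linarith
        _ ≤ 150000000 * 512 ^ D * (b + 1) * f * (B * (q + l)) := by
            have h8 : 0 ≤ (512 : ℝ) ^ D * ((b + 1) * f * (B * (q + l))) := by positivity
            linarith
    exact_mod_cast h3)
  filter_upwards [h2] with x hx
  unfold Far
  omega

/-- from approximations to subspaces -/
theorem sub_of_far {a : ℕ → ℤ} {b s p D : ℕ} {x : ℝ}
    (h : ∀ᶠ q : ℕ in atTop, x ≤ (Set.ncard (Far a b s p (D + 1) q) : ℝ))
    (V : Submodule ℚ ℝ) (hV : FiniteDimensional ℚ V) (hVD : Module.finrank ℚ V ≤ D) :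
    x ≤ (Set.ncard {j : ℕ | b < j ∧ j ≤ s ∧ j % 2 = p % 2 ∧
      (∑' n : ℕ, (a (n + 1) : ℝ) / ((n : ℝ) + 1) ^ j) ∉ V} : ℝ) := by
  classical
  obtain ⟨q0, hq0⟩ := eventually_atTop.1 h
  obtain ⟨J, hJ⟩ : ∃ J : Finset ℕ, J = (Finset.range (s + 1)).filter (fun j =>
    (∑' n : ℕ, (a (n + 1) : ℝ) / ((n : ℝ) + 1) ^ j) ∈ V) := ⟨_, rfl⟩
  obtain ⟨q, hqq0, hq⟩ := Pool.Agent.TH818.SA.sim_sub V D hVD J
    (fun j => ∑' n : ℕ, (a (n + 1) : ℝ) / ((n : ℝ) + 1) ^ j)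
    (fun i hi => by
      rw [hJ, Finset.mem_filter] at hi
      exact hi.2) q0
  refine (hq0 q hqq0).trans ?_
  have hfin : {j : ℕ | b < j ∧ j ≤ s ∧ j % 2 = p % 2 ∧
      (∑' n : ℕ, (a (n + 1) : ℝ) / ((n : ℝ) + 1) ^ j) ∉ V}.Finite :=
    (Set.finite_Iic s).subset fun i hi => hi.2.1
  have hsub : Far a b s p (D + 1) q ⊆ {j : ℕ | b < j ∧ j ≤ s ∧ j % 2 = p % 2 ∧
      (∑' n : ℕ, (a (n + 1) : ℝ) / ((n : ℝ) + 1) ^ j) ∉ V} := by
    rintro j ⟨a1, a2, a3, a4⟩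
    refine ⟨a1, a2, a3, fun hmem => ?_⟩
    have hiJ : j ∈ J := by
      rw [hJ, Finset.mem_filter, Finset.mem_range]
      exact ⟨by omega, hmem⟩
    obtain ⟨y, hy⟩ := hq j hiJ
    have h4 := a4 y
    push_cast at h4
    linarith
  exact_mod_cast Set.ncard_le_ncard hsub hfin

theorem asymp (P : Parts) (hRHO : S_RHO) : ∃ c : ℝ, 0 < c ∧ ∀ f : ℕ, 1 ≤ f → ∃ s0 : ℕ, ∀ s ≥ s0,
    ∀ (p : ℕ) (a : ℕ → ℤ), (∀ u, a (u + f) = a u) → (∀ u v, f ∣ u + v → a v = (-1) ^ (p + 1) * a u) →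
    (∃ u, Nat.Coprime u f ∧ a u ≠ 0) → ∀ D : ℕ, 1 ≤ D → (D : ℝ) ≤ Real.log s / 25 →
    ∀ᶠ q : ℕ in atTop, c / 64 ^ D * ((s : ℝ) ^ 2 / ((f : ℝ) ^ 2 * Real.log s)) ^ ((1 : ℝ) / 3) ≤
      (Set.ncard (Far a 1 s p D q) : ℝ) := by
  -- `c₀ ^ 3 = 1 / (9 * 10 ^ 8) ^ 2`
  obtain ⟨c0, hc0, hc03⟩ : ∃ c0 : ℝ, 0 < c0 ∧ c0 ^ 3 = 1 / (900000000 : ℝ) ^ 2 :=
    ⟨(1 / (900000000 : ℝ) ^ 2) ^ ((1 : ℝ) / 3), by positivity, by
      rw [← Real.rpow_natCast, ← Real.rpow_mul (by positivity)]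
      norm_num⟩
  refine ⟨c0 / 2, by positivity, fun f hf => ?_⟩
  have hf' : (1 : ℝ) ≤ f := by exact_mod_cast hf
  -- the growth of `X`
  have hlog : Tendsto (fun s : ℕ => Real.log (s : ℝ)) atTop atTop :=
    Real.tendsto_log_atTop.comp tendsto_natCast_atTop_atTop
  obtain ⟨M, hM⟩ : ∃ M : ℝ, M = (2 * (f : ℝ) + 2) / c0 := ⟨_, rfl⟩
  have hM0 : 0 ≤ M := by rw [hM]; positivity
  have h0 : Tendsto (fun s : ℕ => (s : ℝ)) atTop atTop := tendsto_natCast_atTop_atTop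
  -- `M * s^(1/6) ≤ X`
  have hX : ∀ᶠ s : ℕ in atTop, M * (s : ℝ) ^ ((1 : ℝ) / 6) ≤
      ((s : ℝ) ^ 2 / ((f : ℝ) ^ 2 * Real.log s)) ^ ((1 : ℝ) / 3) := by
    have h1 : ∀ᶠ s : ℕ in atTop, M ^ 3 * (f : ℝ) ^ 2 ≤ (s : ℝ) ^ ((1 : ℝ) / 2) :=
      ((tendsto_rpow_atTop (y := (1 : ℝ) / 2) (by norm_num)).comp h0).eventually_ge_atTop _
    filter_upwards [h1, hlog.eventually_ge_atTop 1, eventually_ge_atTop 1] with s hs1 hs2 hs3
    have hs0 : (0 : ℝ) < s := by exact_mod_cast hs3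
    have h4 : Real.log (s : ℝ) ≤ s := by
      have := Real.log_le_sub_one_of_pos hs0
      linarith
    have h7 : ((s : ℝ) ^ ((1 : ℝ) / 6)) ^ 3 = (s : ℝ) ^ ((1 : ℝ) / 2) := by
      rw [← Real.rpow_natCast, ← Real.rpow_mul hs0.le]
      norm_num
    have h5 : (M * (s : ℝ) ^ ((1 : ℝ) / 6)) ^ 3 ≤ (s : ℝ) ^ 2 / ((f : ℝ) ^ 2 * Real.log s) := by
      rw [le_div_iff₀ (by positivity), mul_pow, h7]
      calc M ^ 3 * (s : ℝ) ^ ((1 : ℝ) / 2) * ((f : ℝ) ^ 2 * Real.log s)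
          = (M ^ 3 * (f : ℝ) ^ 2) * (s : ℝ) ^ ((1 : ℝ) / 2) * Real.log s := by ring
        _ ≤ (s : ℝ) ^ ((1 : ℝ) / 2) * (s : ℝ) ^ ((1 : ℝ) / 2) * s := by gcongr
        _ = (s : ℝ) ^ 2 := by
            rw [← Real.rpow_add hs0]
            norm_num
            ring
    have h6 : M * (s : ℝ) ^ ((1 : ℝ) / 6) = ((M * (s : ℝ) ^ ((1 : ℝ) / 6)) ^ 3) ^ ((1 : ℝ) / 3) := by
      rw [← Real.rpow_natCast (M * (s : ℝ) ^ ((1 : ℝ) / 6)), ← Real.rpow_mul (by positivity)]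
      norm_num
    rw [h6]
    exact Real.rpow_le_rpow (by positivity) h5 (by norm_num)
  have hfs : ∀ᶠ s : ℕ in atTop, (f : ℝ) * (c0 + 1) + 1 ≤ (s : ℝ) ^ ((1 : ℝ) / 3) :=
    ((tendsto_rpow_atTop (y := (1 : ℝ) / 3) (by norm_num)).comp h0).eventually_ge_atTop _
  obtain ⟨s0, hs0⟩ := eventually_atTop.1 ((hX.and hfs).and ((hlog.eventually_ge_atTop 1).and (eventually_ge_atTop 1)))
  refine ⟨s0, fun s hs p a hper hpar hne D hD hDs => ?_⟩
  obtain ⟨⟨h1, h2⟩, h3, h4⟩ := hs0 s hs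
  have hsp : (0 : ℝ) < s := by exact_mod_cast h4
  have hs1 : (1 : ℝ) ≤ s := by exact_mod_cast h4
  obtain ⟨X, hXd⟩ : ∃ X, X = ((s : ℝ) ^ 2 / ((f : ℝ) ^ 2 * Real.log s)) ^ ((1 : ℝ) / 3) := ⟨_, rfl⟩
  rw [← hXd] at h1 ⊢
  have hX0 : 0 ≤ X := by rw [hXd]; positivity
  have hX3 : X ^ 3 = (s : ℝ) ^ 2 / ((f : ℝ) ^ 2 * Real.log s) := by
    rw [hXd, ← Real.rpow_natCast, ← Real.rpow_mul (by positivity)]
    norm_num
  -- the power of `64`
  have h64 : (64 : ℝ) ^ D ≤ (s : ℝ) ^ ((1 : ℝ) / 6) := by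
    have hl2 : Real.log 64 ≤ 25 / 6 := by
      have : Real.log 64 = 6 * Real.log 2 := by
        rw [show (64 : ℝ) = 2 ^ 6 by norm_num, Real.log_pow]
        norm_num
      rw [this]
      have := Real.log_two_lt_d9
      linarith
    rw [Real.rpow_def_of_pos hsp, ← Real.rpow_natCast, Real.rpow_def_of_pos (by norm_num)]
    apply Real.exp_le_exp.2
    calc Real.log 64 * D ≤ 25 / 6 * (Real.log s / 25) := by
          apply mul_le_mul hl2 hDs (by positivity) (by norm_num)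
      _ = Real.log s * (1 / 6) := by ring
  have h64p : (0 : ℝ) < 64 ^ D := by positivity
  obtain ⟨Y, hY⟩ : ∃ Y, Y = X / 64 ^ D := ⟨_, rfl⟩
  have hMY : M ≤ Y := by
    rw [hY, le_div_iff₀ h64p]
    exact (mul_le_mul_of_nonneg_left h64 hM0).trans h1
  have hYX : Y ≤ X := by
    rw [hY]
    exact div_le_self hX0 (one_le_pow₀ (by norm_num))
  have hY0 : 0 ≤ Y := hM0.trans hMY
  have hY3 : (512 : ℝ) ^ (2 * D) * Y ^ 3 = X ^ 3 := by
    rw [hY, div_pow]
    have : (512 : ℝ) ^ (2 * D) = (64 ^ D) ^ 3 := by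
      rw [← pow_mul, show (512 : ℝ) = 64 ^ ((3 : ℝ) / 2) by
        rw [show (64 : ℝ) = 8 ^ (2 : ℕ) by norm_num, ← Real.rpow_natCast, ← Real.rpow_mul (by norm_num)]
        norm_num]
      rw [← Real.rpow_natCast, ← Real.rpow_natCast, ← Real.rpow_mul (by norm_num)]
      congr 1
      push_cast
      ring
    rw [this]
    field_simp
  obtain ⟨B, hBd⟩ : ∃ B, B = ⌊c0 * Y⌋₊ := ⟨_, rfl⟩
  have hcX : 2 * (f : ℝ) + 2 ≤ c0 * Y := by
    have : M * c0 = 2 * (f : ℝ) + 2 := by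
      rw [hM]
      field_simp
    calc 2 * (f : ℝ) + 2 = M * c0 := this.symm
      _ ≤ Y * c0 := by gcongr
      _ = _ := by ring
  have hB1 : (B : ℝ) ≤ c0 * Y := by
    rw [hBd]
    exact Nat.floor_le (by positivity)
  have hB2 : c0 * Y < B + 1 := by
    rw [hBd]
    exact Nat.lt_floor_add_one _
  have hBf : f ≤ B := by
    have : (f : ℝ) < B := by linarith
    exact_mod_cast this.le
  have hB : 1 ≤ B := by omega
  have hB' : (1 : ℝ) ≤ B := by exact_mod_cast hB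
  -- the logarithm
  have hlogB : Real.log (f * B + 1) ≤ Real.log s := by
    apply Real.log_le_log (by positivity)
    have h5 : X ≤ (s : ℝ) ^ ((2 : ℝ) / 3) := by
      rw [hXd]
      have h6 : (s : ℝ) ^ 2 / ((f : ℝ) ^ 2 * Real.log s) ≤ (s : ℝ) ^ 2 := by
        apply div_le_self (by positivity)
        have : (1 : ℝ) ≤ (f : ℝ) ^ 2 := one_le_pow₀ hf'
        nlinarith
      calc ((s : ℝ) ^ 2 / ((f : ℝ) ^ 2 * Real.log s)) ^ ((1 : ℝ) / 3) ≤ ((s : ℝ) ^ 2) ^ ((1 : ℝ) / 3) :=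
            Real.rpow_le_rpow (by positivity) h6 (by norm_num)
        _ = _ := by
            rw [← Real.rpow_natCast, ← Real.rpow_mul hsp.le]
            norm_num
    have h7 : (1 : ℝ) ≤ (s : ℝ) ^ ((2 : ℝ) / 3) := Real.one_le_rpow hs1 (by norm_num)
    calc (f : ℝ) * B + 1 ≤ f * (c0 * (s : ℝ) ^ ((2 : ℝ) / 3)) + 1 * (s : ℝ) ^ ((2 : ℝ) / 3) := by
          have : (B : ℝ) ≤ c0 * (s : ℝ) ^ ((2 : ℝ) / 3) := hB1.trans (by
            have := hYX.trans h5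
            gcongr)
          gcongr
          linarith
      _ ≤ (f * (c0 + 1) + 1) * (s : ℝ) ^ ((2 : ℝ) / 3) := by
          have : 0 ≤ (f : ℝ) * (s : ℝ) ^ ((2 : ℝ) / 3) := by positivity
          nlinarith
      _ ≤ (s : ℝ) ^ ((1 : ℝ) / 3) * (s : ℝ) ^ ((2 : ℝ) / 3) := by gcongr
      _ = s := by
          rw [← Real.rpow_add hsp]
          norm_num
  -- the hypothesis of the window theorem
  have hw := window_real P hRHO (f := f) (b := 1) (B := B) (p := p) (s := s) (D := D) hf hper hpar hne le_rfl hB hD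
    (by
    have h5 : Real.sqrt (B * Real.log (f * B + 1)) ≤ Real.sqrt (B * Real.log s) :=
      Real.sqrt_le_sqrt (by gcongr)
    have hlog0 : 0 ≤ Real.log (f * B + 1) := Real.log_nonneg (by
      have : (0 : ℝ) ≤ f * B := by positivity
      linarith)
    have hlB : Real.log (f * B + 1) ≤ 2 * B := by
      have hBf' : (f : ℝ) ≤ B := by exact_mod_cast hBf
      calc Real.log (f * B + 1) ≤ Real.log ((B + 1) ^ 2) := by
            apply Real.log_le_log (by positivity)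
            nlinarith
        _ = 2 * Real.log (B + 1) := by rw [Real.log_pow]; norm_num
        _ ≤ 2 * B := by
            have := Real.log_le_sub_one_of_pos (by positivity : (0 : ℝ) < B + 1)
            linarith
    have h9 : Real.log (f * B + 1) ≤ 2 * Real.sqrt (B * Real.log s) := by
      have h10 : Real.log (f * B + 1) ≤ Real.sqrt (4 * (B * Real.log (f * B + 1))) := by
        apply Real.le_sqrt_of_sq_le
        nlinarith
      rw [Real.sqrt_mul (by norm_num), show (4 : ℝ) = 2 ^ 2 by norm_num, Real.sqrt_sq (by norm_num)] at h10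
      linarith
    have h6 : (900000000 : ℝ) * 512 ^ D * f * (B * Real.sqrt (B * Real.log s)) ≤ s := by
      have h7 : ((900000000 : ℝ) * 512 ^ D * f * (B * Real.sqrt (B * Real.log s))) ^ 2 ≤ (s : ℝ) ^ 2 := by
        have h8 : Real.sqrt (B * Real.log s) ^ 2 = B * Real.log s := Real.sq_sqrt (by positivity)
        calc ((900000000 : ℝ) * 512 ^ D * f * (B * Real.sqrt (B * Real.log s))) ^ 2
            = (900000000 : ℝ) ^ 2 * 512 ^ (2 * D) * f ^ 2 * (B ^ 2 * Real.sqrt (B * Real.log s) ^ 2) := by ring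
          _ = (900000000 : ℝ) ^ 2 * 512 ^ (2 * D) * f ^ 2 * Real.log s * (B : ℝ) ^ 3 := by rw [h8]; ring
          _ ≤ (900000000 : ℝ) ^ 2 * 512 ^ (2 * D) * f ^ 2 * Real.log s * (c0 * Y) ^ 3 := by gcongr
          _ = (900000000 : ℝ) ^ 2 * f ^ 2 * Real.log s * c0 ^ 3 * (512 ^ (2 * D) * Y ^ 3) := by ring
          _ = (s : ℝ) ^ 2 := by
              rw [hY3, hc03, hX3]
              have : Real.log (s : ℝ) ≠ 0 := by linarith
              field_simp
      exact (pow_le_pow_iff_left₀ (by positivity) hsp.le (by norm_num)).1 h7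
    calc (150000000 : ℝ) * 512 ^ D * ((1 : ℕ) + 1) * f *
          (B * (Real.sqrt (B * Real.log (f * B + 1)) + Real.log (f * B + 1)))
        ≤ (150000000 : ℝ) * 512 ^ D * ((1 : ℕ) + 1) * f *
          (B * (Real.sqrt (B * Real.log s) + 2 * Real.sqrt (B * Real.log s))) := by gcongr
      _ = (900000000 : ℝ) * 512 ^ D * f * (B * Real.sqrt (B * Real.log s)) := by push_cast; ring
      _ ≤ s := h6)
  filter_upwards [hw] with q hq
  have hw' : (B : ℝ) ≤ (Set.ncard (Far a 1 s p D q) : ℝ) := by exact_mod_cast hq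
  refine le_trans ?_ hw'
  have : c0 / 2 / 64 ^ D * X = c0 * Y / 2 := by rw [hY]; ring
  rw [this]
  linarith

end

end Pool.Agent.Y627.TP
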