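import Pool.Agent.Y926.TW.Stm2

/-!
# More than `√s` irrational values of periodic Dirichlet series: the statements of the parts

The periodic analogue of project TW (`Pool.Agent.Y926.TW`): `a` is a sequence of integers with period `f` and
`a (-u) = (-1)^b a (u)`, the values are `∑ a(n) / n^j`, `j ≡ b + 1` modulo `2`, and the denominators are `f d`,
`1 ≤ d ≤ B`. The classes are the reduced fractions `u/e` modulo `1` with `e ∣ f d` for some `d ≤ B`.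
-/

open Polynomial Pool.Agent.H337R2 Pool.Agent.W165.OZ Pool.Agent.Y926.LZ Pool.Agent.Y926.TW

namespace Pool.Agent.Y627.TP

noncomputable section

/-- the assumptions on the sequence `a`: the period is `f`, the parity is that of `b`, and `a` does not vanish at all
integers prime to `f` -/
structure Par (f b : ℕ) (a : ℕ → ℤ) : Prop where
  pos : 1 ≤ f
  per : ∀ u, a (u + f) = a u
  par : ∀ u v, f ∣ u + v → a v = (-1) ^ b * a u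
  ne : ∃ u, Nat.Coprime u f ∧ a u ≠ 0

/-- the value at `e` -/
def zra (a : ℕ → ℤ) (e : ℕ) : ℝ := ∑' t : ℕ, (a (t + 1) : ℝ) / ((t : ℝ) + 1) ^ e

/-- the partial sums -/
def hsa (a : ℕ → ℤ) (e m : ℕ) : ℚ := ∑ l ∈ Finset.range m, (a (l + 1) : ℚ) / ((l : ℚ) + 1) ^ e

/-! ### The germs -/

/-- the pairs `(d, v)`, `1 ≤ d ≤ B`, `1 ≤ v ≤ f d` -/
def Dva (f B : ℕ) : Finset (Σ _ : ℕ, ℕ) := (Finset.Icc 1 B).sigma fun d => Finset.Icc 1 (f * d)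

/-- the common denominator -/
def Pi1a (n b f B : ℕ) : ℚ[X] := ∏ q ∈ Dva f B, (Pf1 b (f * q.1) q.2 * Pf2 n b (f * q.1) q.2)

/-- `Pj · ∑_{v ≤ f d} a(v) ((-1)^b / (t - v/(f d))^(b+1) + 1 / (t + n - 2 + v/(f d))^(b+1))` -/
def etaa (n b f B : ℕ) (a : ℕ → ℤ) (d : ℕ) : ℚ[X] := ∑ v ∈ Finset.Icc 1 (f * d), C ((a v : ℤ) : ℚ) *
  ((∏ q ∈ (Dva f B).erase ⟨d, v⟩, (Pf1 b (f * q.1) q.2 * Pf2 n b (f * q.1) q.2)) *
    ((-1) ^ b * Pf2 n b (f * d) v + Pf1 b (f * d) v))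

/-- the germ at `-k` of the function belonging to the denominator `f d` -/
def bta (a : ℕ → ℤ) (z : ℕ → ℚ) (h b f d k : ℕ) : PowerSeries ℚ := ∑ i ∈ Finset.Icc 1 (2 * h),
  PowerSeries.C (Cb b i * (((f * d : ℕ) : ℚ)) ^ (i + b) * (z (i + b) - hsa a (i + b) (f * d * k))) *
    PowerSeries.X ^ (i - 1)

/-- the symmetrised germ -/
def bsa (a : ℕ → ℤ) (z : ℕ → ℚ) (n h b f d k : ℕ) : PowerSeries ℚ :=
  bta a z h b f d k + PowerSeries.rescale (-1 : ℚ) (bta a z h b f d (n - 1 - k))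

/-- RECa: the recursion -/
def S_RECa : Prop := ∀ (a : ℕ → ℤ) (z : ℕ → ℚ) (n h b f B d k : ℕ), Par f b a → 1 ≤ h → 1 ≤ d → d ≤ B → k + 1 < n →
  (PowerSeries.X : PowerSeries ℚ) ^ (2 * h) ∣
    TS (-(k : ℚ)) (Pi1a n b f B) * (bsa a z n h b f d (k + 1) - bsa a z n h b f d k) -
      TS (-(k : ℚ)) (etaa n b f B a d)

/-- TELEa: the functions are not of the form `r(t - 1) - r(t)` with a rational function `r` -/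
def S_TELEa : Prop := ∀ (n b f B : ℕ) (a : ℕ → ℤ) (c : ℕ → ℚ), Par f b a → 1 ≤ b → 1 ≤ n →
  ∑ d ∈ Finset.Icc 1 B, c d = 0 → ∀ u v : ℚ[X], v ≠ 0 →
  Pi1a n b f B * (u * sh 1 v - sh 1 u * v) + (∑ d ∈ Finset.Icc 1 B, C (c d) * etaa n b f B a d) * v * sh 1 v = 0 →
  ∀ d ∈ Finset.Icc 1 B, c d = 0

/-! ### The linear forms -/

/-- the rational part of the linear form of the line `f d` -/
def bea (a : ℕ → ℤ) (n h b f d : ℕ) (P : ℚ[X]) : ℚ :=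
  ∑ k ∈ sP n, ∑ i ∈ Finset.Icc 1 (2 * h), pa (sP n) (mP h) P k i * Cb b i *
    ((((f * d : ℕ) : ℚ)) ^ (i + b) * hsa a (i + b) (f * d * k))

/-- the linear form of a vector `P` of polynomials, with `z j` in the place of the value at `j` -/
def LQa (a : ℕ → ℤ) (z : ℕ → ℚ) (n h b f B : ℕ) (P : ℕ → ℚ[X]) : ℚ := ∑ d ∈ Finset.Icc 1 B,
  (∑ i ∈ Finset.Icc 1 (2 * h), Cb b i * rhoP n h (KP n h (P d)) i * (((f * d : ℕ) : ℚ)) ^ (i + b) * z (i + b) -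
    bea a n h b f d (KP n h (P d)))

/-- the sum over one line -/
def Sda (a : ℕ → ℤ) (n h b f d : ℕ) (P : ℚ[X]) : ℝ := (-1) ^ b * ∑' t : ℕ, (a (t + 1) : ℝ) *
  ((PowerSeries.coeff b (RS (sP n) (mP h) P (((t : ℚ) + 1) / ((f * d : ℕ) : ℚ))) : ℚ) : ℝ)

/-- the symmetrised germ of a vector of polynomials -/
def Esa (a : ℕ → ℤ) (z : ℕ → ℚ) (n h b f B : ℕ) (P : ℕ → ℚ[X]) (k : ℕ) : PowerSeries ℚ :=
  ∑ d ∈ Finset.Icc 1 B, TS (-(k : ℚ)) ((P d).comp (yp n)) * bsa a z n h b f d k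

/-- SYMa: if the forms of all `Gb n i * P`, `i ≤ G`, vanish, then the symmetrised functional vanishes on all
polynomials of degree `≤ 2 G + 1` -/
def S_SYMa : Prop := ∀ (a : ℕ → ℤ) (z : ℕ → ℚ) (n h b f B G : ℕ) (P : ℕ → ℚ[X]), 1 ≤ n → 1 ≤ h →
  (∀ i ≤ G, LQa a z n h b f B (fun d => Gb n i * P d) = 0) →
  ∀ F : ℚ[X], F.natDegree ≤ 2 * G + 1 → ∑ k ∈ Finset.range n,
    PowerSeries.coeff (2 * h - 1) (TS (-(k : ℚ)) F * VV ((sP n).erase k) (mP h) (-(k : ℚ)) *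
      Esa a z n h b f B P k) = 0

/-! ### The classes -/

/-- the coefficient of the class `u/e`: `∑ c(d) a(v)` over the `d ≤ B` and `v` with `v/(f d) = u/e` -/
def Ca (f B : ℕ) (a : ℕ → ℤ) (c : ℕ → ℚ) (e u : ℕ) : ℚ :=
  ∑ d ∈ (Finset.Icc 1 B).filter (fun d => e ∣ f * d), c d * (a (u * (f * d / e)) : ℚ)

/-- the classes which occur -/
def sua (f B : ℕ) (a : ℕ → ℤ) {m : ℕ} (c : Fin m → ℕ → ℚ) : Finset (Σ _ : ℕ, ℕ) := by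
  classical
  exact ((Finset.Icc 2 (f * B)).sigma fun e => (Finset.range e).filter (fun u => Nat.Coprime u e)).filter
    (fun q => ∃ l, Ca f B a (c l) q.1 q.2 ≠ 0)

/-- their number -/
def NNa (f B : ℕ) (a : ℕ → ℤ) {m : ℕ} (c : Fin m → ℕ → ℚ) : ℕ := (sua f B a c).card

/-- SLPa: a subspace of minimal slope -/
def S_SLPa : Prop := ∀ (f B : ℕ) (a : ℕ → ℤ) (J : Finset ℕ), 1 ≤ f → J.card < B →
  ∃ (m : ℕ) (w : Fin m → ℕ → ℤ), 1 ≤ m ∧ m ≤ B ∧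
  LinearIndependent ℚ (fun (l : Fin m) (d : Fin B) => (w l (d.1 + 1) : ℚ)) ∧
  (∀ l, ∀ j ∈ J, ∑ d ∈ Finset.Icc 1 B, w l d * (d : ℤ) ^ j = 0) ∧
  NNa f B a (fun l d => (w l d : ℚ)) * (B - J.card) ≤ m * (f * B ^ 2) ∧
  ∀ (m1 : ℕ) (g : Fin m1 → Fin m → ℚ), LinearIndependent ℚ g →
    m1 * NNa f B a (fun l d => (w l d : ℚ)) ≤ m * NNa f B a (fun (i : Fin m1) d => ∑ l, g i l * (w l d : ℚ))

/-- NODa: the nodes `u/e - ν` -/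
def S_NODa : Prop := ∀ (S : Finset (Σ _ : ℕ, ℕ)) (ν L m : ℕ),
  (∀ q ∈ S, 2 ≤ q.1 ∧ q.2 < q.1 ∧ Nat.Coprime q.2 q.1) → m ≤ L →
  ∃ Nd : Finset ℚ, Nd.card = S.card * (2 * L - m) ∧
    ∀ x ∈ Nd, (∀ k : ℤ, x ≠ k) ∧ ∃ q ∈ S, ∃ u : ℤ, IsCoprime u (q.1 : ℤ) ∧ (q.1 : ℤ) ∣ u - q.2 ∧
      -((q.1 : ℤ) * ((L : ℤ) - m)) < u ∧ u < q.1 * L ∧ x = (u : ℚ) / q.1 - ν

/-- REGa: the sum over all `v/(f d)`, grouped by the reduced fractions -/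
def S_REGa : Prop := ∀ (A : Type) [AddCommMonoid A] (f B M : ℕ) (F : ℕ → ℕ → A), 1 ≤ f →
  ∑ d ∈ Finset.Icc 1 B, ∑ v ∈ Finset.range (f * d * M), F d v =
    ∑ e ∈ Finset.Icc 1 (f * B), ∑ u ∈ (Finset.range (e * M)).filter (fun u => Nat.Coprime u e),
      ∑ d ∈ (Finset.Icc 1 B).filter (fun d => e ∣ f * d), F d (u * (f * d / e))

/-- `∑ a(v) P_d` over the `d ≤ B` and `v` with `v/(f d) = u/e` -/
def fea {m : ℕ} (f B : ℕ) (a : ℕ → ℤ) (w : Fin m → ℕ → ℤ) (Q : Fin m → ℚ[X]) (e u : ℕ) : ℚ[X] :=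
  ∑ l, C (Ca f B a (fun d => (w l d : ℚ)) e u) * Q l

/-- vanishing to the order `b + 1` at the fractions `u/e - ν`, `0 ≤ u < e L` -/
def Vana {m : ℕ} (f b B ν L : ℕ) (a : ℕ → ℤ) (w : Fin m → ℕ → ℤ) (Q : Fin m → ℚ[X]) : Prop :=
  ∀ e, 2 ≤ e → e ≤ f * B → ∀ u : ℕ, u < e * L → Nat.Coprime u e →
    (X - C ((u : ℚ) / e - ν)) ^ (b + 1) ∣ (fea f B a w Q e u).comp (yp (2 * ν + 1))

/-! ### The parts of the proof; throughout `n = 2 ν + 1` -/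

/-- SIEa: Siegel's lemma -/
def S_SIEa : Prop := ∀ (f b B m ν r D W μ H : ℕ) (a : ℕ → ℤ) (w : Fin m → ℕ → ℤ), Par f b a →
  1 ≤ B → 1 ≤ μ → 1 ≤ W → 2 ≤ r → 1 ≤ ν →
  (∀ l, ∀ e u, |∑ d ∈ (Finset.Icc 1 B).filter (fun d => e ∣ f * d), w l d * a (u * (f * d / e))| ≤ (W : ℤ)) →
  (b + 1) * (NNa f B a (fun l d => (w l d : ℚ)) * (r * (2 * ν + 1) + ν)) + μ ≤ m * D →
  (m * D * (W * (f * B) ^ (4 * D) * Dl (2 * ν + 1) 1 ^ b * (54 * r ^ 2) ^ (D + (2 * ν + 1)))) ^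
    ((b + 1) * (NNa f B a (fun l d => (w l d : ℚ)) * (r * (2 * ν + 1) + ν))) ≤ H ^ μ →
  ∃ c : Fin m → ℕ → ℤ, (∃ l, Qv (2 * ν + 1) D (c l) ≠ 0) ∧ (∀ l i, |c l i| ≤ (H : ℤ)) ∧
    Vana f b B ν (r * (2 * ν + 1) + ν) a w (fun l => Qv (2 * ν + 1) D (c l))

/-- INTa: integrality of the forms -/
def S_INTa : Prop := ∀ (z : ℕ → ℚ) (f b B m h ν L D i q : ℕ) (a : ℕ → ℤ) (w c : Fin m → ℕ → ℤ), Par f b a →
  ν + 1 ≤ L → 2 * (i + D) + 3 ≤ (2 * ν + 1) * (2 * h) →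
  (∀ l, ∑ d ∈ Finset.Icc 1 B, w l d = 0) →
  Vana f b B ν L a w (fun l => Qv (2 * ν + 1) D (c l)) →
  (∀ j, Odd (j + b) → b < j → j ≤ 2 * h + b → (∀ l, WW B (w l) j = 0) ∨ ∃ y : ℤ, (q : ℚ) * z j = y) →
  ∃ M : ℤ, (q : ℚ) * (Dl (2 * ν + 1) 1 : ℚ) ^ (2 * h + b) *
    LQa a z (2 * ν + 1) h b f B
      (fun d => Gb (2 * ν + 1) i * Pv w (fun l => Qv (2 * ν + 1) D (c l)) d) = M

/-- ARCa: the forms are small -/
def S_ARCa : Prop := ∀ (f b B m h ν r D i W H α : ℕ) (a : ℕ → ℤ) (w c : Fin m → ℕ → ℤ), Par f b a →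
  1 ≤ b → 2 ≤ r → 1 ≤ ν → (∀ u, |a u| ≤ (α : ℤ)) →
  2 * (i + D + 2 * (2 * ν + 1)) + 3 ≤ 2 * h * (2 * ν + 1) →
  (∀ l, ∑ d ∈ Finset.Icc 1 B, w l d = 0) → (∀ l i, |c l i| ≤ (H : ℤ)) →
  ∑ d ∈ Finset.Icc 1 B, ∑ l, |w l d| ≤ (W : ℤ) →
  Vana f b B ν (r * (2 * ν + 1) + ν) a w (fun l => Qv (2 * ν + 1) D (c l)) →
  |∑ d ∈ Finset.Icc 1 B, Sda a (2 * ν + 1) h b f d (KP (2 * ν + 1) h
      (Gb (2 * ν + 1) i * Pv w (fun l => Qv (2 * ν + 1) D (c l)) d))| ≤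
    α * W * (D * H * (2 * (M8 (2 * ν + 1) h (f * B) r (i + D + 2 * (2 * ν + 1)) : ℝ)))

/-- DIFa: the difference of the forms with the values and with `z j` -/
def S_DIFa : Prop := ∀ (z : ℕ → ℚ) (n h b f B m : ℕ) (a : ℕ → ℤ) (w : Fin m → ℕ → ℤ) (g : ℚ[X]) (Q : Fin m → ℚ[X])
  (R : ℚ) (W : ℕ) (δ : ℝ), Par f b a → 1 ≤ n → 1 ≤ B → 1 ≤ b → 0 ≤ δ → 0 ≤ R →
  (∀ l, 2 * (g * Q l).natDegree + 3 ≤ n * (2 * h)) →
  (∀ l, ∀ i ≤ 2 * h, |rhoP n h (KP n h (g * Q l)) i| ≤ R) →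
  ∑ d ∈ Finset.Icc 1 B, ∑ l, |w l d| ≤ (W : ℤ) →
  (∀ j, Odd (j + b) → b < j → j ≤ 2 * h + b → (∀ l, WW B (w l) j = 0) ∨ |zra a j - (z j : ℝ)| ≤ δ) →
  |∑ d ∈ Finset.Icc 1 B, Sda a n h b f d (KP n h (g * Pv w Q d)) -
      (LQa a z n h b f B (fun d => g * Pv w Q d) : ℝ)| ≤
    2 * h * (2 ^ (2 * h + b) * R * (W * ((f * B : ℕ) : ℝ) ^ (2 * h + b)) * δ)

/-- the hypotheses on the weights: independence, sum zero and minimal slope -/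
def Slpa (f B m : ℕ) (a : ℕ → ℤ) (w : Fin m → ℕ → ℤ) : Prop :=
  LinearIndependent ℚ (fun (l : Fin m) (d : Fin B) => (w l (d.1 + 1) : ℚ)) ∧
  (∀ l, ∑ d ∈ Finset.Icc 1 B, w l d = 0) ∧
  ∀ (m1 : ℕ) (g : Fin m1 → Fin m → ℚ), LinearIndependent ℚ g →
    m1 * NNa f B a (fun l d => (w l d : ℚ)) ≤ m * NNa f B a (fun (i : Fin m1) d => ∑ l, g i l * (w l d : ℚ))

/-- ZTa: the forms of `Gb n i * P`, `i ≤ G`, do not all vanish -/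
def S_ZTa : Prop := ∀ (z : ℕ → ℚ) (f b B m h ν L D μ G : ℕ) (a : ℕ → ℤ) (w : Fin m → ℕ → ℤ) (Q : Fin m → ℚ[X]),
  Par f b a → 1 ≤ b → 1 ≤ h → 1 ≤ B → m ≤ B → m ≤ L → m ≤ 2 * ν → Slpa f B m a w → (∃ l, Q l ≠ 0) →
  (∀ l, (Q l).natDegree + 1 ≤ D) → Vana f b B ν L a w Q →
  m * D ≤ (b + 1) * (NNa f B a (fun l d => (w l d : ℚ)) * L) + μ + m →
  μ + h * m + 2 * ((b + 1) * (f * B ^ 2 * m)) + m ≤ G →
  2 * D + 2 * G + 3 ≤ (2 * ν + 1) * (2 * h) →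
  ∃ i ≤ G, LQa a z (2 * ν + 1) h b f B (fun d => Gb (2 * ν + 1) i * Pv w Q d) ≠ 0

end

end Pool.Agent.Y627.TP
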